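import Mathlib
import Pool.Agent.Work.MP_73869e_nt.TH.TDef

set_option autoImplicit false

/-!
Definitions for the uniform cluster theorem (Maynard-Tao weights, second moment, five clusters).

Labelled sets (`Lab`, `LS`), the model expectation `Ex`, the weights `ff`, their coefficients `la`, the
operation `Zj`, the one variable function `yy` and the coefficients `YY` are those of
MP_73869e_nt/TH/TDef.lean. Here `(p, i) ∈ om P a b z` means that the prime `p` of `P` divides the form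
`a i * z + b i`.
-/

namespace Pool.Agent.Work.MP_70e905_nt.MT

open Finset Pool.Agent.Work.MP_73869e_nt.TH

/-- number of primes up to `y` congruent to `c` modulo `q` -/
def pic (y q c : ℕ) : ℕ := #((Icc 1 y).filter (fun p => p.Prime ∧ p % q = c % q))

/-- level of distribution `θ` of the primes -/
def LD (θ : ℝ) : Prop := ∀ A : ℕ, ∃ C : ℝ, 0 < C ∧ ∀ Y : ℕ, 2 ≤ Y → ∀ y c : ℕ → ℕ,
  (∀ q, y q ≤ Y) → (∀ q, Nat.Coprime (c q) q) →
  ∑ q ∈ Icc 1 ⌊(Y : ℝ) ^ θ⌋₊,
    |(pic (y q) q (c q) : ℝ) - (Nat.primeCounting (y q) : ℝ) / Nat.totient q| ≤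
      C * Y / (Real.log Y) ^ A

/-- the prime number theorem -/
def PNT : Prop :=
  Filter.Tendsto (fun x : ℕ => (Nat.primeCounting x : ℝ) * Real.log x / x) Filter.atTop (nhds 1)

/-- largest error of the distribution of the primes up to `y` in the reduced classes modulo `m` -/
noncomputable def mx (y m : ℕ) : ℝ :=
  ((((range m).filter (fun c => Nat.Coprime c m)).sup (fun c =>
    Real.toNNReal |(pic y m c : ℝ) - (Nat.primeCounting y : ℝ) / Nat.totient m|) : NNReal) : ℝ)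

/-- `1 / p` -/
noncomputable def go (p : ℕ) : ℝ := 1 / (p : ℝ)

/-- `1 / (p - 1)` -/
noncomputable def gg (p : ℕ) : ℝ := 1 / ((p : ℝ) - 1)

/-- product of `1 / (p - 1)` over a finite set -/
noncomputable def HH (S : Finset ℕ) : ℝ := ∏ p ∈ S, gg p

/-- product of the elements of a finite set -/
def pd (S : Finset ℕ) : ℕ := ∏ p ∈ S, p

/-- product of `1 - 1 / p` over a finite set -/
noncomputable def rt (S : Finset ℕ) : ℝ := ∏ p ∈ S, (1 - 1 / (p : ℝ))

/-- two of the forms have the same zero modulo `p` -/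
def bd {K : ℕ} (a b : Fin K → ℕ) (p : ℕ) : Prop := ∃ i j, i ≠ j ∧ a i * b j ≡ a j * b i [MOD p]

instance {K : ℕ} (a b : Fin K → ℕ) : DecidablePred (bd a b) := fun p => by
  unfold bd
  infer_instance

/-- weighted number of products of at most `z` -/
noncomputable def Nz (P : Finset ℕ) (z : ℝ) : ℝ :=
  ∑ S ∈ P.powerset.filter (fun S => ((pd S : ℕ) : ℝ) ≤ z), HH S

noncomputable def U1 (P : Finset ℕ) (x L : ℕ) (t₀ : ℝ) : ℝ :=
  ∑ S ∈ P.powerset, HH S * yy x L t₀ (pd S)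

noncomputable def U2 (P : Finset ℕ) (x L : ℕ) (t₀ : ℝ) : ℝ :=
  ∑ S ∈ P.powerset, HH S * yy x L t₀ (pd S) ^ 2

noncomputable def U2t (P : Finset ℕ) (x L : ℕ) (t₀ : ℝ) : ℝ :=
  ∑ S ∈ P.powerset, HH S * yy x L t₀ (pd S) ^ 2 * (Real.log ((pd S : ℕ) : ℝ) / Real.log x)

/-- the outcome of the integer `z` -/
def om {K : ℕ} (P : Finset ℕ) (a b : Fin K → ℕ) (z : ℕ) : Finset (ℕ × Fin K) :=
  (P ×ˢ (univ : Finset (Fin K))).filter (fun c => c.1 ∣ a c.2 * z + b c.2)

/-- coefficients of a weight for `gg` with respect to the centred indicators for `go` -/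
noncomputable def cv {K : ℕ} (P : Finset ℕ) (Y : Finset (ℕ × Fin K) → ℝ)
    (A : Finset (ℕ × Fin K)) : ℝ :=
  ∑ C ∈ (LS K P).filter (fun C => A ⊆ C), Y C * ∏ c ∈ C \ A, (gg c.1 - go c.1)

/-- coefficients of the majorant for the label `j`: `Z` on the labels different from `j`, constant weights
up to `R` on the label `j` -/
noncomputable def Yg {K : ℕ} (P P' : Finset ℕ) (R : ℝ) (j : Fin K) (Z : Finset (ℕ × Fin K) → ℝ)
    (A : Finset (ℕ × Fin K)) : ℝ :=
  open Classical in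
  if (∀ c ∈ A, c.2 ≠ j → c.1 ∈ P) ∧ ((pd (lb j A) : ℕ) : ℝ) ≤ R then
    Z (A.filter (fun c => c.2 ≠ j)) /
      Nz (P' \ (A.filter (fun c => c.2 ≠ j)).image Prod.fst) R
  else 0

/-- one label for each zero modulo `r` -/
def Jr {K : ℕ} (a b : Fin K → ℕ) (r : ℕ) : Finset (Fin K) :=
  univ.filter (fun j => ∀ l, l < j → ¬ a j * b l ≡ a l * b j [MOD r])

/-- one label for each zero modulo `r` different from the zero of the form `i` -/
def Ji {K : ℕ} (a b : Fin K → ℕ) (i : Fin K) (r : ℕ) : Finset (Fin K) :=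
  (Jr a b r).filter (fun j => ¬ a i * b j ≡ a j * b i [MOD r])

/-- Legendre coefficient of a labelled set with labels restricted to `J` -/
noncomputable def eJ {K : ℕ} (J : ℕ → Finset (Fin K)) (E : Finset (ℕ × Fin K)) : ℝ :=
  ∏ c ∈ E, (if c.2 ∈ J c.1 then (-1 : ℝ) else 0)

/-- a configuration: the forms `a i * z + b i` for `x < z ≤ 2 x`, `z ≡ v` modulo `W` -/

structure Cfg (K : ℕ) where
  x : ℕ
  v : ℕ
  a : Fin K → ℕ
  b : Fin K → ℕ

/-- the hypotheses on a configuration -/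
structure Cfg.Ok {K : ℕ} (c : Cfg K) (D₀ W A₀ C : ℕ) : Prop where
  hW : 0 < W
  hDW : primorial D₀ ∣ W
  ha : ∀ i, 1 ≤ c.a i
  haA : ∀ i, c.a i ≤ A₀
  haW : ∀ i, ∀ p : ℕ, p.Prime → p ∣ c.a i → p ∣ W
  hb : ∀ i, c.b i ≤ C * c.x
  hcop : ∀ i, Nat.Coprime (c.a i * c.v + c.b i) W
  hdif : ∀ i j, i ≠ j → c.a i * c.b j ≠ c.a j * c.b i

/-- the primes up to `z` not dividing `W` modulo which the zeros of the forms are different -/
noncomputable def Cfg.PZ {K : ℕ} (c : Cfg K) (W : ℕ) (z : ℝ) : Finset ℕ :=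
  (Icc 1 ⌊z⌋₊).filter (fun p => p.Prime ∧ ¬ p ∣ W ∧ ¬ bd c.a c.b p)

/-- the small primes modulo which two zeros coincide -/
noncomputable def Cfg.P₀ {K : ℕ} (c : Cfg K) (W : ℕ) (s : ℝ) : Finset ℕ :=
  (Icc 1 ⌊s * Real.log c.x⌋₊).filter (fun p => p.Prime ∧ ¬ p ∣ W ∧ bd c.a c.b p)

/-- the primes of the weights -/
noncomputable def Cfg.P {K : ℕ} (c : Cfg K) (W : ℕ) (t : ℝ) : Finset ℕ := c.PZ W ((c.x : ℝ) ^ t)

/-- no form has a prime factor in `P₀` -/
def cop {K : ℕ} (P₀ : Finset ℕ) (a b : Fin K → ℕ) (z : ℕ) : Prop := ∀ r ∈ P₀, ∀ j, ¬ r ∣ a j * z + b j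

instance {K : ℕ} (P₀ : Finset ℕ) (a b : Fin K → ℕ) (z : ℕ) : Decidable (cop P₀ a b z) := by
  unfold cop
  infer_instance

/-- the weight before squaring -/
noncomputable def Cfg.f {K : ℕ} (c : Cfg K) (W L : ℕ) (δ t₀ : ℝ) (z : ℕ) : ℝ :=
  ff gg (c.P W δ) (YY c.x L t₀ δ) (om (c.P W δ) c.a c.b z)

/-- the weight -/
noncomputable def Cfg.w {K : ℕ} (c : Cfg K) (W L : ℕ) (s δ t₀ : ℝ) (z : ℕ) : ℝ :=
  if cop (c.P₀ W s) c.a c.b z then (c.f W L δ t₀ z) ^ 2 else 0

/-- the range of `z` -/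
def Cfg.dom {K : ℕ} (c : Cfg K) (W : ℕ) : Finset ℕ :=
  (Ioc c.x (2 * c.x)).filter (fun z => z % W = c.v % W)

/-- number of primes among the values of the form `i` -/
noncomputable def Cfg.N {K : ℕ} (c : Cfg K) (i : Fin K) : ℝ :=
  (Nat.primeCounting (c.a i * (2 * c.x) + c.b i) : ℝ) - Nat.primeCounting (c.a i * c.x + c.b i)

/-- density of the exceptional primes -/
noncomputable def Cfg.κ {K : ℕ} (c : Cfg K) (W : ℕ) : ℝ :=
  rt ((Icc 1 c.x).filter (fun p => p.Prime ∧ (p ∣ W ∨ bd c.a c.b p)))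

/-- `φ(W) / W` -/
noncomputable def rW (W : ℕ) : ℝ := (Nat.totient W : ℝ) / W

/-- local factor of the first sum -/
noncomputable def Cfg.q1 {K : ℕ} (c : Cfg K) (W : ℕ) (s : ℝ) : ℝ :=
  ∏ r ∈ c.P₀ W s, (1 - #(Jr c.a c.b r) * go r)

/-- local factor of the sums over primes -/
noncomputable def Cfg.q2 {K : ℕ} (c : Cfg K) (W : ℕ) (s : ℝ) : ℝ :=
  ∏ r ∈ c.P₀ W s, (1 - (#(Jr c.a c.b r) - 1) * gg r)

/-- the expected number of primes in a class modulo `W` -/
noncomputable def Cfg.X {K : ℕ} (c : Cfg K) (W : ℕ) : ℝ := c.x / (Nat.totient W * Real.log c.x)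

end Pool.Agent.Work.MP_70e905_nt.MT
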