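import Mathlib
import Pool.Agent.Work.MP_70e905_nt.MT.Defs

set_option autoImplicit false

/-!
MODULE A1 (elementary facts on the outcome `om`), size S.
mem_om, sub_om: unfold om, mem_filter, mem_product.
om_LS: mem_LS (TH/TDef): the first coordinates are in P; if p divides a i z + b i and a j z + b j with i ≠ j,
then a i * (a j z + b j) ≡ 0 ≡ a j * (a i z + b i) mod p, so a i b j ≡ a j b i mod p, i.e. bd a b p.
xx_om: for c in A (first coordinate in P) c ∈ om P' ↔ c ∈ om P; xx is a product over A.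
om_no: a prime p ∈ P dividing the prime a i z + b i equals it, but p < a i z + b i.
-/

namespace Pool.Agent.Work.MP_70e905_nt.MT

open Finset Pool.Agent.Work.MP_73869e_nt.TH

theorem mem_om {K : ℕ} (P : Finset ℕ) (a b : Fin K → ℕ) (z : ℕ) (c : ℕ × Fin K) :
    c ∈ om P a b z ↔ c.1 ∈ P ∧ c.1 ∣ a c.2 * z + b c.2 := by
  unfold om
  rw [mem_filter, mem_product]
  simp

theorem sub_om {K : ℕ} (P : Finset ℕ) (a b : Fin K → ℕ) (z : ℕ) (B : Finset (ℕ × Fin K))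
    (hB : ∀ c ∈ B, c.1 ∈ P) : B ⊆ om P a b z ↔ ∀ c ∈ B, c.1 ∣ a c.2 * z + b c.2 := by
  constructor
  · intro h c hc
    exact ((mem_om P a b z c).1 (h hc)).2
  · intro h c hc
    exact (mem_om P a b z c).2 ⟨hB c hc, h c hc⟩

theorem om_LS {K : ℕ} (P : Finset ℕ) (a b : Fin K → ℕ) (hP : ∀ p ∈ P, ¬ bd a b p) (z : ℕ) :
    om P a b z ∈ LS K P := by
  rw [mem_LS]
  refine ⟨fun c hc => ((mem_om P a b z c).1 hc).1, ?_⟩
  intro c hc d hd hcd
  by_contra hne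
  have h1 := (mem_om P a b z c).1 hc
  have h2 := (mem_om P a b z d).1 hd
  have hij : c.2 ≠ d.2 := fun h => hne (Prod.ext hcd h)
  apply hP c.1 h1.1
  refine ⟨c.2, d.2, hij, ?_⟩
  have e1 : c.1 ∣ a d.2 * (a c.2 * z + b c.2) := Dvd.dvd.mul_left h1.2 _
  have e2 : c.1 ∣ a c.2 * (a d.2 * z + b d.2) := by
    rw [hcd]
    exact Dvd.dvd.mul_left h2.2 _
  have e3 : a c.2 * (a d.2 * z + b d.2) ≡ a d.2 * (a c.2 * z + b c.2) [MOD c.1] :=
    ((Nat.modEq_zero_iff_dvd.2 e2).trans (Nat.modEq_zero_iff_dvd.2 e1).symm)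
  have e4 : a c.2 * a d.2 * z + a c.2 * b d.2 ≡ a c.2 * a d.2 * z + a d.2 * b c.2 [MOD c.1] := by
    have e5 : a c.2 * (a d.2 * z + b d.2) = a c.2 * a d.2 * z + a c.2 * b d.2 := by ring
    have e6 : a d.2 * (a c.2 * z + b c.2) = a c.2 * a d.2 * z + a d.2 * b c.2 := by ring
    rw [e5, e6] at e3
    exact e3
  exact Nat.ModEq.add_left_cancel' _ e4

theorem xx_om {K : ℕ} (γ : ℕ → ℝ) (P P' : Finset ℕ) (h : P ⊆ P') (a b : Fin K → ℕ) (z : ℕ)
    (A : Finset (ℕ × Fin K)) (hA : A ∈ LS K P) :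
    xx γ A (om P' a b z) = xx γ A (om P a b z) := by
  unfold xx
  apply Finset.prod_congr rfl
  intro c hc
  have h1 : c.1 ∈ P := (mem_LS.1 hA).1 c hc
  have h2 : (c ∈ om P' a b z) ↔ (c ∈ om P a b z) := by
    rw [mem_om, mem_om]
    simp [h1, h h1]
  simp [h2]

theorem om_no {K : ℕ} (P : Finset ℕ) (a b : Fin K → ℕ) (z : ℕ) (i : Fin K)
    (hP : ∀ p ∈ P, p.Prime ∧ p < a i * z + b i) (hz : (a i * z + b i).Prime) :
    ∀ c ∈ om P a b z, c.2 ≠ i := by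
  intro c hc hci
  have h1 := (mem_om P a b z c).1 hc
  have h2 := hP c.1 h1.1
  rw [hci] at h1
  have h3 := (Nat.prime_dvd_prime_iff_eq h2.1 hz).1 h1.2
  omega

end Pool.Agent.Work.MP_70e905_nt.MT
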