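import Mathlib
import Pool.Agent.Work.MP_70e905_nt.MT.A1
import Pool.Agent.Work.MP_73869e_nt.TH.T01

set_option autoImplicit false

/-!
MODULE A2 (Legendre's formula with labels), size M.
Let r be a prime dividing no a j. For one z the labels j with r ∣ a j z + b j: if j, l are two of them, then
a j b l ≡ a l b j mod r (r divides a j (a l z + b l) - a l (a j z + b j)); conversely if r ∣ a j z + b j and
a j b l ≡ a l b j, then r ∣ a j (a l z + b l), so r ∣ a l z + b l. So if the set of these labels is not empty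
it contains exactly one element of Jr a b r (its minimum: it satisfies the condition of Jr, and a larger
label of the set does not); and if r does not divide a i z + b i then it is a set of labels j with
¬ a i b j ≡ a j b i (otherwise r ∣ a i z + b i), so it contains exactly one element of Ji a b i r.
Hence 1 - sum over j in Jr of 1[r ∣ a j z + b j] = 1[no form divisible by r] (the same for Ji).
leg, leg_i: the product over r ∈ P₀ of these equations, with sum_LS_prod (TH/T01) for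
f c = (if c.2 ∈ J c.1 then -1 else 0) * (if c ∈ om P₀ a b z then 1 else 0); the product over c ∈ E of the
second factor is 1[E ⊆ om P₀ a b z].
sum_eJ: sum_LS_prod for f c = (if c.2 ∈ J c.1 then -1 else 0) * γ c.1.
card_Ji: exactly one j ∈ Jr a b r has a i b j ≡ a j b i (the least j of the class of i; the relation
a j b l ≡ a l b j mod r is an equivalence relation because r divides no a j; i itself is in the class).
-/

namespace Pool.Agent.Work.MP_70e905_nt.MT

open Finset Pool.Agent.Work.MP_73869e_nt.TH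

private theorem A2_iff {K : ℕ} (a b : Fin K → ℕ) (r : ℕ) (j l : Fin K) :
    a j * b l ≡ a l * b j [MOD r] ↔ (a j : ZMod r) * b l = a l * b j := by
  rw [← ZMod.natCast_eq_natCast_iff]
  push_cast
  rfl

private theorem A2_dvd {K : ℕ} (a b : Fin K → ℕ) (r z : ℕ) (j : Fin K) :
    r ∣ a j * z + b j ↔ (a j : ZMod r) * z + b j = 0 := by
  rw [← ZMod.natCast_eq_zero_iff]
  push_cast
  rfl

private theorem A2_ne {K : ℕ} (a : Fin K → ℕ) (r : ℕ) (ha : ∀ j, ¬ r ∣ a j) (j : Fin K) :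
    (a j : ZMod r) ≠ 0 := by
  rw [Ne, ZMod.natCast_eq_zero_iff]
  exact ha j

private theorem A2_both {K : ℕ} (a b : Fin K → ℕ) (r z : ℕ) (j l : Fin K)
    (hj : r ∣ a j * z + b j) (hl : r ∣ a l * z + b l) : a j * b l ≡ a l * b j [MOD r] := by
  rw [A2_dvd] at hj hl
  rw [A2_iff]
  linear_combination (a j : ZMod r) * hl - (a l : ZMod r) * hj

private theorem A2_cl {K : ℕ} (a b : Fin K → ℕ) (r z : ℕ) (hr : r.Prime) (ha : ∀ j, ¬ r ∣ a j)
    (j l : Fin K) (hj : r ∣ a j * z + b j) (h : a j * b l ≡ a l * b j [MOD r]) :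
    r ∣ a l * z + b l := by
  have := Fact.mk hr
  rw [A2_dvd] at hj ⊢
  rw [A2_iff] at h
  have h1 := A2_ne a r ha j
  apply mul_left_cancel₀ h1
  linear_combination h + (a l : ZMod r) * hj

private theorem A2_tr {K : ℕ} (a b : Fin K → ℕ) (r : ℕ) (hr : r.Prime) (ha : ∀ j, ¬ r ∣ a j)
    (i j l : Fin K) (h1 : a i * b j ≡ a j * b i [MOD r]) (h2 : a j * b l ≡ a l * b j [MOD r]) :
    a i * b l ≡ a l * b i [MOD r] := by
  have := Fact.mk hr
  rw [A2_iff] at h1 h2 ⊢
  apply mul_left_cancel₀ (A2_ne a r ha j)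
  linear_combination (a i : ZMod r) * h2 + (a l : ZMod r) * h1

private theorem A2_Jr {K : ℕ} (a b : Fin K → ℕ) (r z : ℕ) (hr : r.Prime) (ha : ∀ j, ¬ r ∣ a j)
    (hne : ∃ j, r ∣ a j * z + b j) :
    #(univ.filter (fun j => j ∈ Jr a b r ∧ r ∣ a j * z + b j)) = 1 := by
  set S : Finset (Fin K) := univ.filter (fun j => r ∣ a j * z + b j) with hS
  have hSne : S.Nonempty := by
    obtain ⟨j, hj⟩ := hne
    exact ⟨j, by rw [hS, mem_filter]; exact ⟨mem_univ _, hj⟩⟩
  have hm := S.min'_mem hSne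
  set m := S.min' hSne with hmdef
  have hm2 : r ∣ a m * z + b m := (mem_filter.1 hm).2
  rw [card_eq_one]
  refine ⟨m, ?_⟩
  ext j
  rw [mem_filter, mem_singleton]
  constructor
  · rintro ⟨-, hj1, hj2⟩
    by_contra hne'
    have hle : m ≤ j := S.min'_le j (by rw [hS, mem_filter]; exact ⟨mem_univ _, hj2⟩)
    have hlt : m < j := lt_of_le_of_ne hle (Ne.symm hne')
    exact (mem_filter.1 hj1).2 m hlt (A2_both a b r z j m hj2 hm2)
  · rintro rfl
    refine ⟨mem_univ _, ?_, hm2⟩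
    unfold Jr
    rw [mem_filter]
    refine ⟨mem_univ _, fun l hl h => ?_⟩
    have h3 := A2_cl a b r z hr ha m l hm2 h
    have h4 : m ≤ l := S.min'_le l (by rw [hS, mem_filter]; exact ⟨mem_univ _, h3⟩)
    exact absurd hl (not_lt.2 h4)

private theorem A2_one {K : ℕ} (J : Finset (Fin K)) (S : Fin K → Prop) [DecidablePred S]
    (h : (∃ j, S j) → #(univ.filter (fun j => j ∈ J ∧ S j)) = 1) :
    (1 : ℝ) + ∑ j : Fin K, (if j ∈ J then (-1 : ℝ) else 0) * (if S j then 1 else 0) =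
      if ∀ j, ¬ S j then 1 else 0 := by
  have h1 : ∑ j : Fin K, (if j ∈ J then (-1 : ℝ) else 0) * (if S j then 1 else 0) =
      - (#(univ.filter (fun j => j ∈ J ∧ S j)) : ℝ) := by
    rw [card_filter]
    push_cast
    rw [← sum_neg_distrib]
    apply sum_congr rfl
    intro j _
    by_cases hj : j ∈ J <;> by_cases hs : S j <;> simp [hj, hs]
  rw [h1]
  by_cases hall : ∀ j, ¬ S j
  · rw [if_pos hall]
    have : univ.filter (fun j => j ∈ J ∧ S j) = ∅ := by
      rw [filter_eq_empty_iff]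
      intro j _ hj
      exact hall j hj.2
    rw [this]
    simp
  · rw [if_neg hall]
    push Not at hall
    rw [h hall]
    simp

private theorem A2_leg {K : ℕ} (J : ℕ → Finset (Fin K)) (P₀ : Finset ℕ) (a b : Fin K → ℕ) (z : ℕ)
    (h : ∀ r ∈ P₀, (∃ j, r ∣ a j * z + b j) →
      #(univ.filter (fun j => j ∈ J r ∧ r ∣ a j * z + b j)) = 1) :
    (if cop P₀ a b z then (1 : ℝ) else 0) =
      ∑ E ∈ LS K P₀, eJ J E * (if E ⊆ om P₀ a b z then 1 else 0) := by
  have h1 : ∀ E ∈ LS K P₀, eJ J E * (if E ⊆ om P₀ a b z then (1 : ℝ) else 0) =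
      ∏ c ∈ E, ((if c.2 ∈ J c.1 then (-1 : ℝ) else 0) *
        (if c.1 ∣ a c.2 * z + b c.2 then 1 else 0)) := by
    intro E hE
    rw [prod_mul_distrib]
    unfold eJ
    congr 1
    rw [prod_boole]
    have h2 := sub_om P₀ a b z E (mem_LS.1 hE).1
    by_cases h3 : E ⊆ om P₀ a b z
    · rw [if_pos h3, if_pos (h2.1 h3)]
    · rw [if_neg h3, if_neg (fun h4 => h3 (h2.2 h4))]
  rw [sum_congr rfl h1, sum_LS_prod]
  have h2 : ∀ r ∈ P₀, (1 : ℝ) + ∑ j : Fin K, ((if j ∈ J r then (-1 : ℝ) else 0) *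
      (if r ∣ a j * z + b j then 1 else 0)) = if ∀ j, ¬ r ∣ a j * z + b j then 1 else 0 := by
    intro r hr
    exact A2_one (J r) (fun j => r ∣ a j * z + b j) (h r hr)
  rw [prod_congr rfl h2, prod_boole]
  rfl

theorem eJ_le {K : ℕ} (J : ℕ → Finset (Fin K)) (E : Finset (ℕ × Fin K)) : |eJ J E| ≤ 1 := by
  unfold eJ
  rw [abs_prod]
  apply prod_le_one
  · intro c _
    exact abs_nonneg _
  · intro c _
    split_ifs <;> simp

theorem eJ_ne {K : ℕ} (J : ℕ → Finset (Fin K)) (E : Finset (ℕ × Fin K)) (h : eJ J E ≠ 0) :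
    ∀ c ∈ E, c.2 ∈ J c.1 := by
  intro c hc
  by_contra hne
  apply h
  unfold eJ
  exact prod_eq_zero hc (if_neg hne)

theorem sum_eJ {K : ℕ} (J : ℕ → Finset (Fin K)) (P₀ : Finset ℕ) (γ : ℕ → ℝ) :
    ∑ E ∈ LS K P₀, eJ J E * ga γ E = ∏ r ∈ P₀, (1 - #(J r) * γ r) := by
  have h1 : ∀ E ∈ LS K P₀, eJ J E * ga γ E =
      ∏ c ∈ E, ((if c.2 ∈ J c.1 then (-1 : ℝ) else 0) * γ c.1) := by
    intro E _
    rw [prod_mul_distrib]
    rfl
  rw [sum_congr rfl h1, sum_LS_prod]
  apply prod_congr rfl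
  intro r _
  have h2 : ∑ j : Fin K, ((if j ∈ J r then (-1 : ℝ) else 0) * γ r) = - (#(J r) * γ r) := by
    rw [← sum_mul, sum_ite_mem, univ_inter, sum_const, nsmul_eq_mul]
    ring
  rw [h2]
  ring

theorem leg {K : ℕ} (P₀ : Finset ℕ) (a b : Fin K → ℕ) (hP : ∀ r ∈ P₀, r.Prime ∧ ∀ j, ¬ r ∣ a j)
    (z : ℕ) : (if cop P₀ a b z then (1 : ℝ) else 0) =
      ∑ E ∈ LS K P₀, eJ (Jr a b) E * (if E ⊆ om P₀ a b z then 1 else 0) :=
  A2_leg (Jr a b) P₀ a b z (fun r hr hne => A2_Jr a b r z (hP r hr).1 (hP r hr).2 hne)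

theorem leg_i {K : ℕ} (P₀ : Finset ℕ) (a b : Fin K → ℕ) (hP : ∀ r ∈ P₀, r.Prime ∧ ∀ j, ¬ r ∣ a j)
    (i : Fin K) (z : ℕ) (hi : ∀ r ∈ P₀, ¬ r ∣ a i * z + b i) :
    (if cop P₀ a b z then (1 : ℝ) else 0) =
      ∑ E ∈ LS K P₀, eJ (Ji a b i) E * (if E ⊆ om P₀ a b z then 1 else 0) := by
  apply A2_leg (Ji a b i) P₀ a b z
  intro r hr hne
  have h1 := A2_Jr a b r z (hP r hr).1 (hP r hr).2 hne
  have h2 : univ.filter (fun j => j ∈ Ji a b i r ∧ r ∣ a j * z + b j) =
      univ.filter (fun j => j ∈ Jr a b r ∧ r ∣ a j * z + b j) := by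
    apply filter_congr
    intro j _
    unfold Ji
    rw [mem_filter]
    constructor
    · rintro ⟨⟨h3, -⟩, h4⟩
      exact ⟨h3, h4⟩
    · rintro ⟨h3, h4⟩
      refine ⟨⟨h3, fun h5 => ?_⟩, h4⟩
      exact hi r hr (A2_cl a b r z (hP r hr).1 (hP r hr).2 j i h4 h5.symm)
  rw [h2, h1]

theorem card_Ji {K : ℕ} (a b : Fin K → ℕ) (i : Fin K) (r : ℕ) (hr : r.Prime) (ha : ∀ j, ¬ r ∣ a j) :
    #(Ji a b i r) + 1 = #(Jr a b r) := by
  have h1 : #((Jr a b r).filter (fun j => a i * b j ≡ a j * b i [MOD r])) = 1 := by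
    set S : Finset (Fin K) := univ.filter (fun j => a i * b j ≡ a j * b i [MOD r]) with hS
    have hSne : S.Nonempty := ⟨i, by rw [hS, mem_filter]; exact ⟨mem_univ _, Nat.ModEq.refl _⟩⟩
    have hm := S.min'_mem hSne
    set m := S.min' hSne with hmdef
    have hm2 : a i * b m ≡ a m * b i [MOD r] := (mem_filter.1 hm).2
    rw [card_eq_one]
    refine ⟨m, ?_⟩
    ext j
    rw [mem_filter, mem_singleton]
    constructor
    · rintro ⟨hj1, hj2⟩
      by_contra hne'
      have hle : m ≤ j := S.min'_le j (by rw [hS, mem_filter]; exact ⟨mem_univ _, hj2⟩)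
      have hlt : m < j := lt_of_le_of_ne hle (Ne.symm hne')
      exact (mem_filter.1 hj1).2 m hlt (A2_tr a b r hr ha j i m hj2.symm hm2)
    · rintro rfl
      refine ⟨?_, hm2⟩
      unfold Jr
      rw [mem_filter]
      refine ⟨mem_univ _, fun l hl h => ?_⟩
      have h3 := A2_tr a b r hr ha i m l hm2 h
      have h4 : m ≤ l := S.min'_le l (by rw [hS, mem_filter]; exact ⟨mem_univ _, h3⟩)
      exact absurd hl (not_lt.2 h4)
  have h2 := card_filter_add_card_filter_not (s := Jr a b r)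
    (fun j => a i * b j ≡ a j * b i [MOD r])
  unfold Ji
  omega

theorem card_Jr {K : ℕ} (a b : Fin K → ℕ) (r : ℕ) : #(Jr a b r) ≤ K := by
  have h := card_le_univ (Jr a b r)
  rwa [Fintype.card_fin] at h

end Pool.Agent.Work.MP_70e905_nt.MT
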