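import Mathlib
import Pool.Agent.Work.MP_70e905_nt.MT.A1

set_option autoImplicit false

/-!
MODULE A3 (counting integers in one class), size S-M.
For B ∈ LS K P the conditions z ≡ v mod W and p ∣ a i z + b i for (p, i) ∈ B are one residue class modulo
W * pr B by the Chinese remainder theorem: the primes of B are different (Lab B), none divides W, and p does
not divide a i, so p ∣ a i z + b i is one class modulo p (induction on B, or
Nat.chineseRemainderOfFinset / Ideal version). The number of elements of one class modulo m in (x, 2x] is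
x / m + O(1) with absolute value at most 1 (Nat.Ioc_filter_modEq_card or Int.Ioc_filter_modEq_card, or
Nat.count_modEq_card).
-/

namespace Pool.Agent.Work.MP_70e905_nt.MT

open Finset Pool.Agent.Work.MP_73869e_nt.TH

theorem A3_crt {ι : Type*} [DecidableEq ι] (M v : ℕ) (n t : ι → ℕ) (s : Finset ι)
    (hM : ∀ i ∈ s, Nat.Coprime M (n i))
    (hp : ∀ i ∈ s, ∀ j ∈ s, i ≠ j → Nat.Coprime (n i) (n j)) :
    ∃ r : ℕ, ∀ z : ℕ, (z ≡ v [MOD M] ∧ ∀ i ∈ s, z ≡ t i [MOD n i]) ↔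
      z ≡ r [MOD M * ∏ i ∈ s, n i] := by
  induction s using Finset.induction_on with
  | empty =>
    refine ⟨v, fun z => ?_⟩
    simp
  | insert j s hj ih =>
    obtain ⟨r, hr⟩ := ih (fun i hi => hM i (mem_insert_of_mem hi))
      (fun i hi k hk => hp i (mem_insert_of_mem hi) k (mem_insert_of_mem hk))
    have hco : Nat.Coprime (M * ∏ i ∈ s, n i) (n j) := by
      apply Nat.Coprime.mul_left (hM j (mem_insert_self _ _))
      apply Nat.Coprime.prod_left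
      intro i hi
      exact hp i (mem_insert_of_mem hi) j (mem_insert_self _ _) (fun h => hj (h ▸ hi))
    obtain ⟨w, hw1, hw2⟩ := Nat.chineseRemainder hco r (t j)
    refine ⟨w, fun z => ?_⟩
    rw [prod_insert hj]
    have e1 : M * (n j * ∏ i ∈ s, n i) = (M * ∏ i ∈ s, n i) * n j := by ring
    rw [e1, ← Nat.modEq_and_modEq_iff_modEq_mul hco]
    constructor
    · rintro ⟨h1, h2⟩
      refine ⟨((hr z).1 ⟨h1, fun i hi => h2 i (mem_insert_of_mem hi)⟩).trans hw1.symm,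
        (h2 j (mem_insert_self _ _)).trans hw2.symm⟩
    · rintro ⟨h1, h2⟩
      have h3 := (hr z).2 (h1.trans hw1)
      refine ⟨h3.1, fun i hi => ?_⟩
      rcases mem_insert.1 hi with rfl | hi
      · exact h2.trans hw2
      · exact h3.2 i hi

theorem A3_lin (p a b : ℕ) (hp : p.Prime) (ha : ¬ p ∣ a) :
    ∃ t : ℕ, ∀ z : ℕ, p ∣ a * z + b ↔ z ≡ t [MOD p] := by
  have := Fact.mk hp
  have ha' : (a : ZMod p) ≠ 0 := by
    rw [Ne, ZMod.natCast_eq_zero_iff]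
    exact ha
  refine ⟨(-(b : ZMod p) / a).val, fun z => ?_⟩
  rw [← ZMod.natCast_eq_zero_iff, ← ZMod.natCast_eq_natCast_iff, ZMod.natCast_val, ZMod.cast_id',
    id_eq, eq_div_iff ha']
  push_cast
  constructor
  · intro h
    linear_combination h
  · intro h
    linear_combination h

theorem A3_class {K : ℕ} (W v : ℕ) (P : Finset ℕ) (a b : Fin K → ℕ)
    (hP : ∀ p ∈ P, p.Prime ∧ ¬ p ∣ W ∧ ∀ i, ¬ p ∣ a i) (B : Finset (ℕ × Fin K))
    (hB : B ∈ LS K P) :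
    ∃ r : ℕ, ∀ z : ℕ, (z % W = v % W ∧ B ⊆ om P a b z) ↔ z ≡ r [MOD W * pr B] := by
  obtain ⟨hB1, hB2⟩ := mem_LS.1 hB
  have ht : ∀ c : ℕ × Fin K, ∃ t : ℕ, c ∈ B → ∀ z : ℕ, c.1 ∣ a c.2 * z + b c.2 ↔ z ≡ t [MOD c.1] := by
    intro c
    by_cases hc : c ∈ B
    · obtain ⟨t, ht⟩ := A3_lin c.1 (a c.2) (b c.2) (hP c.1 (hB1 c hc)).1
        ((hP c.1 (hB1 c hc)).2.2 c.2)
      exact ⟨t, fun _ => ht⟩
    · exact ⟨0, fun h => absurd h hc⟩
  choose t ht using ht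
  obtain ⟨r, hr⟩ := A3_crt W v (fun c : ℕ × Fin K => c.1) t B
    (fun c hc => Nat.Coprime.symm ((Nat.Prime.coprime_iff_not_dvd (hP c.1 (hB1 c hc)).1).2
      (hP c.1 (hB1 c hc)).2.1))
    (fun c hc d hd hcd => (Nat.coprime_primes (hP c.1 (hB1 c hc)).1 (hP d.1 (hB1 d hd)).1).2
      (fun h => hcd (hB2 c hc d hd h)))
  refine ⟨r, fun z => ?_⟩
  unfold pr
  rw [← hr z, sub_om P a b z B hB1]
  constructor
  · rintro ⟨h1, h2⟩
    exact ⟨h1, fun c hc => (ht c hc z).1 (h2 c hc)⟩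
  · rintro ⟨h1, h2⟩
    exact ⟨h1, fun c hc => (ht c hc z).2 (h2 c hc)⟩

theorem count_class {K : ℕ} (x W v : ℕ) (hW : 0 < W) (P : Finset ℕ) (a b : Fin K → ℕ)
    (hP : ∀ p ∈ P, p.Prime ∧ ¬ p ∣ W ∧ ∀ i, ¬ p ∣ a i) (B : Finset (ℕ × Fin K))
    (hB : B ∈ LS K P) :
    |(#((Ioc x (2 * x)).filter (fun z => z % W = v % W ∧ B ⊆ om P a b z)) : ℝ) -
      x / (W * pr B)| ≤ 1 := by
  obtain ⟨r, hr⟩ := A3_class W v P a b hP B hB
  have hpr : 0 < pr B := by
    unfold pr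
    exact prod_pos (fun c hc => (hP c.1 ((mem_LS.1 hB).1 c hc)).1.pos)
  have hm : 0 < W * pr B := Nat.mul_pos hW hpr
  have e1 : (Ioc x (2 * x)).filter (fun z => z % W = v % W ∧ B ⊆ om P a b z) =
      (Ioc x (2 * x)).filter (fun z => z ≡ r [MOD W * pr B]) := by
    apply filter_congr
    intro z _
    exact hr z
  rw [e1]
  have h1 := Nat.Ioc_filter_modEq_card x (2 * x) hm r
  set m := W * pr B with hmdef
  set y₂ : ℚ := ((2 * x : ℕ) - r : ℚ) / m with hy₂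
  set y₁ : ℚ := ((x : ℕ) - r : ℚ) / m with hy₁
  have hmQ : (0 : ℚ) < m := by exact_mod_cast hm
  have h12 : y₁ ≤ y₂ := by
    rw [hy₁, hy₂]
    apply div_le_div_of_nonneg_right _ hmQ.le
    push_cast
    have : (0 : ℚ) ≤ x := Nat.cast_nonneg x
    linarith
  have h3 : max (⌊y₂⌋ - ⌊y₁⌋) 0 = ⌊y₂⌋ - ⌊y₁⌋ := by
    apply max_eq_left
    have := Int.floor_le_floor h12
    omega
  rw [h3] at h1
  have h4 : y₂ - y₁ = (x : ℚ) / m := by
    rw [hy₁, hy₂, ← sub_div]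
    push_cast
    ring_nf
  have h5 : |(((⌊y₂⌋ - ⌊y₁⌋ : ℤ)) : ℚ) - (x : ℚ) / m| ≤ 1 := by
    rw [← h4, abs_le]
    push_cast
    have a1 := Int.floor_le y₂
    have a2 := Int.lt_floor_add_one y₂
    have a3 := Int.floor_le y₁
    have a4 := Int.lt_floor_add_one y₁
    constructor <;> linarith
  rw [← h1] at h5
  have h6 : |((#((Ioc x (2 * x)).filter (fun z => z ≡ r [MOD m])) : ℚ) : ℝ) - ((x : ℚ) : ℝ) / ((m : ℚ) : ℝ)| ≤ 1 := by
    have h7 : |((#((Ioc x (2 * x)).filter (fun z => z ≡ r [MOD m])) : ℚ)) - ((x : ℚ)) / ((m : ℚ))| ≤ 1 := by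
      push_cast at h5 ⊢
      exact h5
    exact_mod_cast h7
  rw [hmdef] at h6 ⊢
  push_cast at h6 ⊢
  exact h6

end Pool.Agent.Work.MP_70e905_nt.MT
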