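import Mathlib
import Pool.Agent.Work.MP_70e905_nt.MT.A3
import Pool.Agent.Work.MP_73869e_nt.TH.T03

set_option autoImplicit false

/-!
MODULE A4 (the first sum, with exact Legendre coefficients), size M.
Let lam = la go P Y. ff_exp (TH/T03): ff go P Y ω = sum over B ∈ LS K P of lam B 1[B ⊆ ω]. So the sum over z is
sum over E, B, B' of e E * lam B * lam B' * #{z : z ≡ v, E ⊆ om P₀ z, B ∪ B' ⊆ om P z}. If Lab (B ∪ B') fails
the set is empty, because om P a b z is in LS K P (om_LS). If it holds, E ∪ (B ∪ B') ∈ LS K (P ∪ P₀) (P and P₀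
are disjoint), E ∪ (B ∪ B') ⊆ om (P ∪ P₀) z is the same condition, and count_class gives
x / (W * pr E * pr (B ∪ B')) + O(1), where 1 / pr E = ga go E, 1 / pr (B ∪ B') = ga go (B ∪ B').
The main terms give (x / W) (sum_E e E ga go E) * Ex go P (ff go P Y)^2 by Ex_sq (TH/T03); the errors are at
most #(LS K P₀) * (sum |lam B|)^2.
-/

namespace Pool.Agent.Work.MP_70e905_nt.MT

open Finset Pool.Agent.Work.MP_73869e_nt.TH

private theorem A4_ga {K : ℕ} (A : Finset (ℕ × Fin K)) : ga go A = 1 / (pr A : ℝ) := by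
  unfold ga go pr
  rw [prod_div_distrib, prod_const_one]
  push_cast
  rfl

private theorem A4_term {K : ℕ} (x W v : ℕ) (hW : 0 < W) (P P₀ : Finset ℕ) (hdis : Disjoint P P₀)
    (a b : Fin K → ℕ) (hP : ∀ p ∈ P ∪ P₀, p.Prime ∧ ¬ p ∣ W ∧ ∀ i, ¬ p ∣ a i)
    (hbd : ∀ p ∈ P, ¬ bd a b p) (E B B' : Finset (ℕ × Fin K)) (hE : E ∈ LS K P₀)
    (hB : B ∈ LS K P) (hB' : B' ∈ LS K P) :
    |(∑ z ∈ (Ioc x (2 * x)).filter (fun z => z % W = v % W),
        (if E ⊆ om P₀ a b z then (1 : ℝ) else 0) * (if B ∪ B' ⊆ om P a b z then 1 else 0)) -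
      x / W * (ga go E * (if Lab (B ∪ B') then ga go (B ∪ B') else 0))| ≤ 1 := by
  have hE' := mem_LS.1 hE
  have hB1 := mem_LS.1 hB
  have hB1' := mem_LS.1 hB'
  by_cases hL : Lab (B ∪ B')
  · rw [if_pos hL]
    have hU : ∀ c ∈ B ∪ B', c.1 ∈ P := by
      intro c hc
      rcases mem_union.1 hc with h | h
      · exact hB1.1 c h
      · exact hB1'.1 c h
    have hdisj : Disjoint E (B ∪ B') := by
      rw [disjoint_left]
      intro c hc hc'
      exact disjoint_left.1 hdis (hU c hc') (hE'.1 c hc)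
    have hLS : E ∪ (B ∪ B') ∈ LS K (P ∪ P₀) := by
      rw [mem_LS]
      refine ⟨fun c hc => ?_, fun c hc d hd hcd => ?_⟩
      · rcases mem_union.1 hc with h | h
        · exact mem_union_right _ (hE'.1 c h)
        · exact mem_union_left _ (hU c h)
      · rcases mem_union.1 hc with h | h <;> rcases mem_union.1 hd with h' | h'
        · exact hE'.2 c h d h' hcd
        · exact absurd (hcd ▸ hE'.1 c h) (disjoint_left.1 hdis (hU d h'))
        · exact absurd (hcd ▸ hU c h) (fun h2 => disjoint_left.1 hdis h2 (hE'.1 d h'))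
        · exact hL c h d h' hcd
    have h1 := count_class x W v hW (P ∪ P₀) a b hP (E ∪ (B ∪ B')) hLS
    have h2 : (∑ z ∈ (Ioc x (2 * x)).filter (fun z => z % W = v % W),
        (if E ⊆ om P₀ a b z then (1 : ℝ) else 0) * (if B ∪ B' ⊆ om P a b z then 1 else 0)) =
        (#((Ioc x (2 * x)).filter (fun z => z % W = v % W ∧ E ∪ (B ∪ B') ⊆ om (P ∪ P₀) a b z)) : ℝ) := by
      rw [← filter_filter, card_filter]
      push_cast
      apply sum_congr rfl
      intro z _
      have h3 : (E ∪ (B ∪ B') ⊆ om (P ∪ P₀) a b z) ↔ (E ⊆ om P₀ a b z ∧ B ∪ B' ⊆ om P a b z) := by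
        rw [sub_om (P ∪ P₀) a b z _ (mem_LS.1 hLS).1, sub_om P₀ a b z E hE'.1,
          sub_om P a b z (B ∪ B') hU]
        constructor
        · intro h
          exact ⟨fun c hc => h c (mem_union_left _ hc), fun c hc => h c (mem_union_right _ hc)⟩
        · rintro ⟨h4, h5⟩ c hc
          rcases mem_union.1 hc with h | h
          · exact h4 c h
          · exact h5 c h
      by_cases h4 : E ⊆ om P₀ a b z <;> by_cases h5 : B ∪ B' ⊆ om P a b z <;> simp [h3, h4, h5]
    have h3 : (x : ℝ) / (W * pr (E ∪ (B ∪ B'))) = x / W * (ga go E * ga go (B ∪ B')) := by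
      rw [A4_ga, A4_ga]
      have h4 : pr (E ∪ (B ∪ B')) = pr E * pr (B ∪ B') := by
        unfold pr
        exact prod_union hdisj
      rw [h4]
      push_cast
      rw [div_mul_div_comm, div_mul_div_comm]
      ring_nf
    rw [h2, ← h3]
    exact h1
  · rw [if_neg hL, mul_zero, mul_zero, sub_zero]
    rw [sum_eq_zero]
    · simp
    · intro z _
      rw [if_neg (c := B ∪ B' ⊆ om P a b z), mul_zero]
      intro h
      apply hL
      intro c hc d hd
      exact (mem_LS.1 (om_LS P a b hbd z)).2 c (h hc) d (h hd)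

theorem sq_leg {K : ℕ} (x W v : ℕ) (hW : 0 < W) (P P₀ : Finset ℕ) (hdis : Disjoint P P₀)
    (a b : Fin K → ℕ) (hP : ∀ p ∈ P ∪ P₀, p.Prime ∧ ¬ p ∣ W ∧ ∀ i, ¬ p ∣ a i)
    (hbd : ∀ p ∈ P, ¬ bd a b p) (e Y : Finset (ℕ × Fin K) → ℝ) (he : ∀ E, |e E| ≤ 1) :
    |∑ z ∈ (Ioc x (2 * x)).filter (fun z => z % W = v % W),
        (∑ E ∈ LS K P₀, e E * (if E ⊆ om P₀ a b z then 1 else 0)) *
          (ff go P Y (om P a b z)) ^ 2 -
      x / W * (∑ E ∈ LS K P₀, e E * ga go E) * Ex go P (fun ω => (ff go P Y ω) ^ 2)| ≤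
      #(LS K P₀) * (∑ B ∈ LS K P, |la go P Y B|) ^ 2 := by
  have hsq : ∀ z, (ff go P Y (om P a b z)) ^ 2 = ∑ B ∈ LS K P, ∑ B' ∈ LS K P,
      la go P Y B * la go P Y B' * (if B ∪ B' ⊆ om P a b z then (1 : ℝ) else 0) := by
    intro z
    rw [ff_exp, sq, sum_mul_sum]
    refine sum_congr rfl fun B _ => ?_
    refine sum_congr rfl fun B' _ => ?_
    by_cases hb : B ⊆ om P a b z
    · by_cases hb' : B' ⊆ om P a b z
      · rw [if_pos hb, if_pos hb', if_pos (union_subset hb hb')]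
        ring
      · rw [if_neg hb', if_neg (fun h => hb' (union_subset_right h))]
        ring
    · rw [if_neg hb, if_neg (fun h => hb (union_subset_left h))]
      ring
  have h1 : ∑ z ∈ (Ioc x (2 * x)).filter (fun z => z % W = v % W),
        (∑ E ∈ LS K P₀, e E * (if E ⊆ om P₀ a b z then 1 else 0)) *
          (ff go P Y (om P a b z)) ^ 2 = ∑ E ∈ LS K P₀, ∑ B ∈ LS K P, ∑ B' ∈ LS K P,
      e E * (la go P Y B * la go P Y B') *
        ∑ z ∈ (Ioc x (2 * x)).filter (fun z => z % W = v % W),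
        (if E ⊆ om P₀ a b z then (1 : ℝ) else 0) * (if B ∪ B' ⊆ om P a b z then 1 else 0) := by
    have h2 : ∀ z ∈ (Ioc x (2 * x)).filter (fun z => z % W = v % W),
        (∑ E ∈ LS K P₀, e E * (if E ⊆ om P₀ a b z then 1 else 0)) *
          (ff go P Y (om P a b z)) ^ 2 = ∑ E ∈ LS K P₀, ∑ B ∈ LS K P, ∑ B' ∈ LS K P,
        e E * (la go P Y B * la go P Y B') * ((if E ⊆ om P₀ a b z then (1 : ℝ) else 0) *
          (if B ∪ B' ⊆ om P a b z then 1 else 0)) := by
      intro z _
      rw [hsq z, sum_mul]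
      refine sum_congr rfl fun E _ => ?_
      rw [mul_sum]
      refine sum_congr rfl fun B _ => ?_
      rw [mul_sum]
      refine sum_congr rfl fun B' _ => ?_
      ring
    rw [sum_congr rfl h2, sum_comm]
    refine sum_congr rfl fun E _ => ?_
    rw [sum_comm]
    refine sum_congr rfl fun B _ => ?_
    rw [sum_comm]
    refine sum_congr rfl fun B' _ => ?_
    rw [mul_sum]
  have h3 : x / W * (∑ E ∈ LS K P₀, e E * ga go E) * Ex go P (fun ω => (ff go P Y ω) ^ 2) =
      ∑ E ∈ LS K P₀, ∑ B ∈ LS K P, ∑ B' ∈ LS K P, e E * (la go P Y B * la go P Y B') *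
        (x / W * (ga go E * (if Lab (B ∪ B') then ga go (B ∪ B') else 0))) := by
    rw [Ex_sq, mul_assoc, sum_mul, mul_sum]
    refine sum_congr rfl fun E _ => ?_
    rw [mul_sum, mul_sum]
    refine sum_congr rfl fun B _ => ?_
    rw [mul_sum, mul_sum]
    refine sum_congr rfl fun B' _ => ?_
    ring
  rw [h1, h3]
  simp only [← sum_sub_distrib, ← mul_sub]
  refine (abs_sum_le_sum_abs _ _).trans ?_
  have h4 : ∀ E ∈ LS K P₀, |∑ B ∈ LS K P, ∑ B' ∈ LS K P, e E * (la go P Y B * la go P Y B') *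
      ((∑ z ∈ (Ioc x (2 * x)).filter (fun z => z % W = v % W),
        (if E ⊆ om P₀ a b z then (1 : ℝ) else 0) * (if B ∪ B' ⊆ om P a b z then 1 else 0)) -
        x / W * (ga go E * (if Lab (B ∪ B') then ga go (B ∪ B') else 0)))| ≤
      (∑ B ∈ LS K P, |la go P Y B|) ^ 2 := by
    intro E hE
    refine (abs_sum_le_sum_abs _ _).trans ?_
    rw [sq, sum_mul_sum]
    refine sum_le_sum fun B hB => ?_
    refine (abs_sum_le_sum_abs _ _).trans ?_
    refine sum_le_sum fun B' hB' => ?_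
    rw [abs_mul, abs_mul, abs_mul]
    have h5 := A4_term x W v hW P P₀ hdis a b hP hbd E B B' hE hB hB'
    have h6 := he E
    calc |e E| * (|la go P Y B| * |la go P Y B'|) * _ ≤
        |e E| * (|la go P Y B| * |la go P Y B'|) * 1 :=
          mul_le_mul_of_nonneg_left h5 (by positivity)
      _ ≤ 1 * (|la go P Y B| * |la go P Y B'|) * 1 := by
          apply mul_le_mul_of_nonneg_right _ zero_le_one
          exact mul_le_mul_of_nonneg_right h6 (by positivity)
      _ = |la go P Y B| * |la go P Y B'| := by ring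
  refine (sum_le_sum h4).trans ?_
  rw [sum_const, nsmul_eq_mul]

end Pool.Agent.Work.MP_70e905_nt.MT
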