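import Mathlib
import Pool.Agent.Work.MP_70e905_nt.MT.Defs
import Pool.Agent.Work.MP_73869e_nt.TH.T01

set_option autoImplicit false

/-!
MODULE A5 (change of the model), size M.
ff_cv: xx gg C ω = prod over c ∈ C of ((gg - go) + (go - 1[c ∈ ω])) = sum over A ⊆ C of
(prod over C \ A of (gg - go)) * xx go A ω (Finset.prod_add); exchange the sums (A ⊆ C ∈ LS K P implies
A ∈ LS K P).
cv_bd: all terms are ≥ 0 since gg p - go p = 1 / (p (p - 1)) ≥ 0 for p ≥ 2 (p - 1 ≥ 1); Y C ≤ Y A; C \ A is an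
element of LS K P and C ↦ C \ A is injective, so the sum is at most
Y A * sum over D ∈ LS K P of prod over D of (gg - go) = Y A * prod over p (1 + K (gg p - go p)) (sum_LS_prod of
TH/T01) ≤ Y A * exp (K τ).
sum_dif: gg p - go p = 1 / (p (p - 1)) = 1 / (p - 1) - 1 / p; P ⊆ Ioc D₀ (max), telescoping sum ≤ 1 / D₀.
sum_gg2: gg p ^ 2 = 1 / (p - 1)^2 ≤ 1 / (p - 2) - 1 / (p - 1) for p ≥ 3; with p > D₀ the sum over p ≥ D₀ + 1
of 1 / (p - 1)^2 is at most 1 / D₀^2 + 1 / D₀ ≤ 2 / D₀.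
-/

namespace Pool.Agent.Work.MP_70e905_nt.MT

open Finset Pool.Agent.Work.MP_73869e_nt.TH

private theorem a5_gd {p : ℕ} (hp : 2 ≤ p) : 0 ≤ gg p - go p := by
  unfold gg go
  have h2 : (2 : ℝ) ≤ p := by exact_mod_cast hp
  have h1 : 1 / (p : ℝ) ≤ 1 / ((p : ℝ) - 1) :=
    one_div_le_one_div_of_le (by linarith) (by linarith)
  linarith

theorem ff_cv {K : ℕ} (P : Finset ℕ) (Y : Finset (ℕ × Fin K) → ℝ) (ω : Finset (ℕ × Fin K)) :
    ff gg P Y ω = ff go P (cv P Y) ω := by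
  unfold ff
  have h1 : ∑ C ∈ LS K P, Y C * xx gg C ω = ∑ C ∈ LS K P, ∑ A ∈ C.powerset,
      Y C * (∏ c ∈ C \ A, (gg c.1 - go c.1)) * xx go A ω := by
    refine Finset.sum_congr rfl fun C _ => ?_
    have h2 : xx gg C ω = ∏ c ∈ C, ((go c.1 - (if c ∈ ω then 1 else 0)) + (gg c.1 - go c.1)) := by
      unfold xx
      refine Finset.prod_congr rfl fun c _ => ?_
      ring
    rw [h2, Finset.prod_add, Finset.mul_sum]
    refine Finset.sum_congr rfl fun A _ => ?_
    unfold xx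
    ring
  rw [h1, Finset.sum_comm' (t' := LS K P) (s' := fun A => (LS K P).filter (fun C => A ⊆ C))]
  · refine Finset.sum_congr rfl fun A _ => ?_
    unfold cv
    rw [Finset.sum_mul]
  · intro C A
    rw [mem_powerset, mem_filter]
    constructor
    · rintro ⟨h2, h3⟩
      refine ⟨⟨h2, h3⟩, ?_⟩
      have h4 := mem_LS.1 h2
      rw [mem_LS]
      exact ⟨fun a ha => h4.1 a (h3 ha), fun a ha b hb => h4.2 a (h3 ha) b (h3 hb)⟩
    · rintro ⟨⟨h2, h3⟩, _⟩
      exact ⟨h2, h3⟩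

theorem cv_bd {K : ℕ} (P : Finset ℕ) (hP : ∀ p ∈ P, p.Prime) (Y : Finset (ℕ × Fin K) → ℝ)
    (h0 : ∀ A, 0 ≤ Y A) (hm : ∀ A C, C ∈ LS K P → A ⊆ C → Y C ≤ Y A) (τ : ℝ)
    (hτ : ∑ p ∈ P, (gg p - go p) ≤ τ) (A : Finset (ℕ × Fin K)) :
    0 ≤ cv P Y A ∧ cv P Y A ≤ Y A * Real.exp (K * τ) := by
  have hnn : ∀ C ∈ LS K P, ∀ D ⊆ C, 0 ≤ ∏ c ∈ D, (gg c.1 - go c.1) := by
    intro C hC D hD
    refine Finset.prod_nonneg fun c hc => a5_gd ?_
    exact (hP _ ((mem_LS.1 hC).1 c (hD hc))).two_le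
  have hinj : Set.InjOn (fun C : Finset (ℕ × Fin K) => C \ A)
      ((LS K P).filter (fun C => A ⊆ C) : Set (Finset (ℕ × Fin K))) := by
    intro C hC C' hC' h
    have h1 := (mem_filter.1 (Finset.mem_coe.1 hC)).2
    have h2 := (mem_filter.1 (Finset.mem_coe.1 hC')).2
    simp only at h
    rw [← Finset.sdiff_union_of_subset h1, ← Finset.sdiff_union_of_subset h2, h]
  constructor
  · unfold cv
    refine Finset.sum_nonneg fun C hC => ?_
    rw [mem_filter] at hC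
    exact mul_nonneg (h0 C) (hnn C hC.1 _ Finset.sdiff_subset)
  · unfold cv
    calc ∑ C ∈ (LS K P).filter (fun C => A ⊆ C), Y C * ∏ c ∈ C \ A, (gg c.1 - go c.1)
        ≤ ∑ C ∈ (LS K P).filter (fun C => A ⊆ C), Y A * ∏ c ∈ C \ A, (gg c.1 - go c.1) := by
          refine Finset.sum_le_sum fun C hC => ?_
          rw [mem_filter] at hC
          exact mul_le_mul_of_nonneg_right (hm A C hC.1 hC.2) (hnn C hC.1 _ Finset.sdiff_subset)
      _ = Y A * ∑ D ∈ ((LS K P).filter (fun C => A ⊆ C)).image (fun C => C \ A),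
            ∏ c ∈ D, (gg c.1 - go c.1) := by
          rw [Finset.sum_image hinj, Finset.mul_sum]
      _ ≤ Y A * ∑ D ∈ LS K P, ∏ c ∈ D, (gg c.1 - go c.1) := by
          refine mul_le_mul_of_nonneg_left ?_ (h0 A)
          refine Finset.sum_le_sum_of_subset_of_nonneg ?_ ?_
          · intro D hD
            obtain ⟨C, hC, rfl⟩ := mem_image.1 hD
            have h4 := mem_LS.1 (mem_filter.1 hC).1
            rw [mem_LS]
            exact ⟨fun a ha => h4.1 a (mem_sdiff.1 ha).1,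
              fun a ha b hb => h4.2 a (mem_sdiff.1 ha).1 b (mem_sdiff.1 hb).1⟩
          · intro D hD _
            exact hnn D hD D (Finset.Subset.refl _)
      _ = Y A * ∏ p ∈ P, (1 + K * (gg p - go p)) := by
          rw [sum_LS_prod P (fun c : ℕ × Fin K => gg c.1 - go c.1)]
          congr 1
          refine Finset.prod_congr rfl fun p _ => ?_
          simp only [Finset.sum_const, Finset.card_univ, Fintype.card_fin, nsmul_eq_mul]
      _ ≤ Y A * ∏ p ∈ P, Real.exp (K * (gg p - go p)) := by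
          refine mul_le_mul_of_nonneg_left ?_ (h0 A)
          refine Finset.prod_le_prod (fun p hp => ?_) (fun p _ => ?_)
          · have := a5_gd (hP p hp).two_le
            positivity
          · have := Real.add_one_le_exp (K * (gg p - go p))
            linarith
      _ ≤ Y A * Real.exp (K * τ) := by
          refine mul_le_mul_of_nonneg_left ?_ (h0 A)
          rw [← Real.exp_sum, ← Finset.mul_sum]
          exact Real.exp_le_exp.2 (mul_le_mul_of_nonneg_left hτ (Nat.cast_nonneg K))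

theorem sum_dif (D₀ : ℕ) (hD : 1 ≤ D₀) (P : Finset ℕ) (hP : ∀ p ∈ P, D₀ < p) :
    ∑ p ∈ P, (gg p - go p) ≤ 1 / D₀ := by
  have hD' : (1 : ℝ) ≤ D₀ := by exact_mod_cast hD
  have key : ∀ N : ℕ, D₀ ≤ N →
      ∑ n ∈ Ioc D₀ N, (gg n - go n) = 1 / (D₀ : ℝ) - 1 / N := by
    intro N hN
    induction N, hN using Nat.le_induction with
    | base => simp
    | succ N hN ih =>
      rw [Finset.sum_Ioc_succ_top hN, ih]
      unfold gg go
      push_cast
      rw [add_sub_cancel_right]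
      ring
  set N := D₀ + P.sup id with hN
  have hsub : P ⊆ Ioc D₀ N := by
    intro p hp
    rw [mem_Ioc]
    have : p ≤ P.sup id := Finset.le_sup (f := id) hp
    exact ⟨hP p hp, by omega⟩
  calc ∑ p ∈ P, (gg p - go p) ≤ ∑ n ∈ Ioc D₀ N, (gg n - go n) := by
        refine Finset.sum_le_sum_of_subset_of_nonneg hsub fun n hn _ => ?_
        rw [mem_Ioc] at hn
        exact a5_gd (by omega)
    _ = 1 / (D₀ : ℝ) - 1 / N := key N (by omega)
    _ ≤ 1 / D₀ := by
        have : 0 ≤ 1 / (N : ℝ) := by positivity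
        linarith

theorem sum_gg2 (D₀ : ℕ) (hD : 1 ≤ D₀) (P : Finset ℕ) (hP : ∀ p ∈ P, D₀ < p) :
    ∑ p ∈ P, gg p ^ 2 ≤ 2 / D₀ := by
  have h1 : ∀ p ∈ P, gg p ^ 2 ≤ 2 * (gg p - go p) := by
    intro p hp
    have h2 := hP p hp
    have h3 : (2 : ℝ) ≤ p := by exact_mod_cast (by omega : 2 ≤ p)
    unfold gg go
    have h4 : 0 < (p : ℝ) - 1 := by linarith
    have h5 : 0 < (p : ℝ) := by linarith
    have e : 2 * (1 / ((p : ℝ) - 1) - 1 / p) - (1 / ((p : ℝ) - 1)) ^ 2 =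
        ((p : ℝ) - 2) / (((p : ℝ) - 1) ^ 2 * p) := by
      field_simp
      ring
    have h6 : 0 ≤ ((p : ℝ) - 2) / (((p : ℝ) - 1) ^ 2 * p) :=
      div_nonneg (by linarith) (by positivity)
    linarith
  calc ∑ p ∈ P, gg p ^ 2 ≤ ∑ p ∈ P, 2 * (gg p - go p) := Finset.sum_le_sum h1
    _ = 2 * ∑ p ∈ P, (gg p - go p) := by rw [Finset.mul_sum]
    _ ≤ 2 * (1 / D₀) := mul_le_mul_of_nonneg_left (sum_dif D₀ hD P hP) (by norm_num)
    _ = 2 / D₀ := by ring

end Pool.Agent.Work.MP_70e905_nt.MT
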