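import Mathlib
import Pool.Agent.Work.MP_70e905_nt.MT.A5
import Pool.Agent.Work.MP_73869e_nt.TH.T02
import Pool.Agent.Work.MP_73869e_nt.TH.T06

set_option autoImplicit false

/-!
MODULE A6 (the coefficients, first sum in the model), size M.
Recall yy x L t₀ s = sum over l < L of 2^(-l) 1[s ≤ x^(2^l t₀)], YY x L t₀ v A = prod over i of
yy (pd (lb i A)) if pr A ≤ x^v, and 0 otherwise (pd S is ∏ p ∈ S, p by definition).
yy_bd: geometric series. yy_anti: the indicators are decreasing in s. yy_one: the term l = 0.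
YY_anti: A ⊆ C, C ∈ LS K P with primes ≥ 1: pr A ≤ pr C, pd (lb i A) ≤ pd (lb i C).
YY_sum: YY ^ 2 * ga gg ≤ prod over i of (HH (lb i A) * yy (pd (lb i A)) ^ 2) (ga gg A = prod over i of
HH (lb i A), as in ga_lb of TH/T06), sum over all A ⊆ P × Fin K by prod_labels (TH/T06).
Ex_one: ff_cv (A5), Ex_upper (TH/T02) for go (K * go p ≤ 1 since p > D₀ ≥ K), cv_bd with τ = 1 / D₀
(sum_dif), ga go ≤ ga gg, YY_sum.
-/

namespace Pool.Agent.Work.MP_70e905_nt.MT

open Finset Pool.Agent.Work.MP_73869e_nt.TH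

theorem yy_bd (x L : ℕ) (t₀ : ℝ) (s : ℕ) : 0 ≤ yy x L t₀ s ∧ yy x L t₀ s ≤ 2 := by
  unfold yy
  constructor
  · refine Finset.sum_nonneg fun l _ => ?_
    split_ifs <;> positivity
  · calc ∑ l ∈ range L, (1 / 2 : ℝ) ^ l * (if (s : ℝ) ≤ (x : ℝ) ^ ((2 : ℝ) ^ l * t₀) then 1 else 0)
        ≤ ∑ l ∈ range L, (1 / 2 : ℝ) ^ l := by
          refine Finset.sum_le_sum fun l _ => ?_
          split_ifs
          · rw [mul_one]
          · rw [mul_zero]
            positivity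
      _ ≤ 2 := by
          have h := geom_sum_eq (show (1 / 2 : ℝ) ≠ 1 by norm_num) L
          rw [h]
          have h2 : 0 ≤ (1 / 2 : ℝ) ^ L := by positivity
          have e : ((1 / 2 : ℝ) ^ L - 1) / (1 / 2 - 1) = 2 * (1 - (1 / 2 : ℝ) ^ L) := by ring
          rw [e]
          linarith

theorem yy_anti (x L : ℕ) (t₀ : ℝ) (s s' : ℕ) (h : s ≤ s') : yy x L t₀ s' ≤ yy x L t₀ s := by
  unfold yy
  refine Finset.sum_le_sum fun l _ => ?_
  refine mul_le_mul_of_nonneg_left ?_ (by positivity)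
  have h' : (s : ℝ) ≤ s' := by exact_mod_cast h
  by_cases h1 : (s' : ℝ) ≤ (x : ℝ) ^ ((2 : ℝ) ^ l * t₀)
  · rw [if_pos h1, if_pos (h'.trans h1)]
  · rw [if_neg h1]
    split_ifs
    · exact zero_le_one
    · exact le_rfl

theorem yy_one (x L : ℕ) (t₀ : ℝ) (hx : 1 ≤ x) (hL : 1 ≤ L) (ht₀ : 0 ≤ t₀) : 1 ≤ yy x L t₀ 1 := by
  unfold yy
  have hx' : (1 : ℝ) ≤ x := by exact_mod_cast hx
  have h1 : (1 / 2 : ℝ) ^ 0 * (if ((1 : ℕ) : ℝ) ≤ (x : ℝ) ^ ((2 : ℝ) ^ 0 * t₀) then (1 : ℝ) else 0)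
      = 1 := by
    have h2 : ((1 : ℕ) : ℝ) ≤ (x : ℝ) ^ ((2 : ℝ) ^ 0 * t₀) := by
      rw [Nat.cast_one]
      exact Real.one_le_rpow hx' (by positivity)
    rw [if_pos h2]
    norm_num
  have h3 : 0 ∈ range L := Finset.mem_range.2 (by omega)
  have h4 := Finset.single_le_sum (f := fun l => (1 / 2 : ℝ) ^ l *
    (if ((1 : ℕ) : ℝ) ≤ (x : ℝ) ^ ((2 : ℝ) ^ l * t₀) then (1 : ℝ) else 0))
    (fun l _ => by split_ifs <;> positivity) h3
  exact h1.symm.le.trans h4

private theorem a6_HH (P : Finset ℕ) (hP : ∀ p ∈ P, p.Prime) (S : Finset ℕ) (hS : S ⊆ P) :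
    0 ≤ HH S := by
  unfold HH
  refine Finset.prod_nonneg fun p hp => ?_
  unfold gg
  have h1 : (2 : ℝ) ≤ p := by exact_mod_cast (hP p (hS hp)).two_le
  exact div_nonneg zero_le_one (by linarith)

theorem U_ge_one (P : Finset ℕ) (hP : ∀ p ∈ P, p.Prime) (x L : ℕ) (t₀ : ℝ) (hx : 1 ≤ x) (hL : 1 ≤ L)
    (ht₀ : 0 ≤ t₀) : 1 ≤ U1 P x L t₀ ∧ 1 ≤ U2 P x L t₀ := by
  have h1 := yy_one x L t₀ hx hL ht₀
  have hpd : pd ∅ = 1 := by unfold pd; exact Finset.prod_empty
  have hHH : HH ∅ = 1 := by unfold HH; exact Finset.prod_empty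
  constructor
  · unfold U1
    calc 1 ≤ HH ∅ * yy x L t₀ (pd ∅) := by rw [hpd, hHH, one_mul]; exact h1
      _ ≤ _ := Finset.single_le_sum (f := fun S => HH S * yy x L t₀ (pd S))
        (fun S hS => mul_nonneg (a6_HH P hP S (mem_powerset.1 hS)) (yy_bd x L t₀ _).1)
        (mem_powerset.2 (Finset.empty_subset P))
  · unfold U2
    calc 1 ≤ HH ∅ * yy x L t₀ (pd ∅) ^ 2 := by
          rw [hpd, hHH, one_mul]
          exact one_le_pow₀ h1
      _ ≤ _ := Finset.single_le_sum (f := fun S => HH S * yy x L t₀ (pd S) ^ 2)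
        (fun S hS => mul_nonneg (a6_HH P hP S (mem_powerset.1 hS)) (sq_nonneg _))
        (mem_powerset.2 (Finset.empty_subset P))

private theorem a6_prod_lb {K : ℕ} {M : Type*} [CommMonoid M] (A : Finset (ℕ × Fin K))
    (f : ℕ → M) : ∏ a ∈ A, f a.1 = ∏ i, ∏ p ∈ lb i A, f p := by
  rw [← Finset.prod_fiberwise (s := A) (g := fun a : ℕ × Fin K => a.2) (f := fun a => f a.1)]
  refine Finset.prod_congr rfl fun i _ => ?_
  unfold lb
  rw [Finset.prod_image]
  rintro ⟨p, k⟩ ha ⟨q, l⟩ hb hab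
  have ha' := (mem_filter.1 ha).2
  have hb' := (mem_filter.1 hb).2
  simp only at ha' hb' hab
  rw [ha', hb', hab]

theorem ga_HH {K : ℕ} (A : Finset (ℕ × Fin K)) : ga gg A = ∏ i, HH (lb i A) := by
  unfold ga HH
  exact a6_prod_lb A gg

theorem YY_bd {K : ℕ} (x L : ℕ) (t₀ v : ℝ) (A : Finset (ℕ × Fin K)) :
    0 ≤ YY x L t₀ v A ∧ YY x L t₀ v A ≤ 2 ^ K ∧ (YY x L t₀ v A ≠ 0 → (pr A : ℝ) ≤ (x : ℝ) ^ v) := by
  unfold YY
  by_cases h : (pr A : ℝ) ≤ (x : ℝ) ^ v
  · rw [if_pos h]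
    refine ⟨Finset.prod_nonneg fun i _ => (yy_bd x L t₀ _).1, ?_, fun _ => h⟩
    calc ∏ i : Fin K, yy x L t₀ (∏ p ∈ lb i A, p) ≤ ∏ _i : Fin K, (2 : ℝ) :=
          Finset.prod_le_prod (fun i _ => (yy_bd x L t₀ _).1) (fun i _ => (yy_bd x L t₀ _).2)
      _ = 2 ^ K := by rw [Finset.prod_const, Finset.card_univ, Fintype.card_fin]
  · rw [if_neg h]
    exact ⟨le_rfl, by positivity, fun h1 => absurd rfl h1⟩

theorem YY_anti {K : ℕ} (P : Finset ℕ) (hP : ∀ p ∈ P, 1 ≤ p) (x L : ℕ) (t₀ v : ℝ)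
    (A C : Finset (ℕ × Fin K)) (hC : C ∈ LS K P) (hAC : A ⊆ C) :
    YY x L t₀ v C ≤ YY x L t₀ v A := by
  have hC1 : ∀ c ∈ C, 1 ≤ c.1 := fun c hc => hP _ ((mem_LS.1 hC).1 c hc)
  have h1 : pr A ≤ pr C := by
    unfold pr
    exact Finset.prod_le_prod_of_subset_of_one_le' hAC fun c hc _ => hC1 c hc
  have h1' : (pr A : ℝ) ≤ pr C := by exact_mod_cast h1
  have h2 : ∀ i : Fin K, ∏ p ∈ lb i A, p ≤ ∏ p ∈ lb i C, p := by
    intro i
    refine Finset.prod_le_prod_of_subset_of_one_le' ?_ ?_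
    · intro p hp
      rw [mem_lb] at hp ⊢
      exact hAC hp
    · intro p hp _
      rw [mem_lb] at hp
      exact hC1 _ hp
  by_cases h : (pr C : ℝ) ≤ (x : ℝ) ^ v
  · unfold YY
    rw [if_pos h, if_pos (h1'.trans h)]
    exact Finset.prod_le_prod (fun i _ => (yy_bd x L t₀ _).1)
      (fun i _ => yy_anti x L t₀ _ _ (h2 i))
  · have h3 : YY x L t₀ v C = 0 := by
      unfold YY
      rw [if_neg h]
    rw [h3]
    exact (YY_bd x L t₀ v A).1

theorem YY_sum {K : ℕ} (P : Finset ℕ) (hP : ∀ p ∈ P, p.Prime) (x L : ℕ) (t₀ v : ℝ) :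
    ∑ A ∈ LS K P, (YY x L t₀ v A) ^ 2 * ga gg A ≤ U2 P x L t₀ ^ K := by
  have hnn : ∀ A ∈ (P ×ˢ (univ : Finset (Fin K))).powerset, ∀ i : Fin K,
      0 ≤ HH (lb i A) * yy x L t₀ (pd (lb i A)) ^ 2 := by
    intro A hA i
    refine mul_nonneg (a6_HH P hP _ ?_) (sq_nonneg _)
    intro p hp
    rw [mem_lb] at hp
    exact (mem_product.1 (mem_powerset.1 hA hp)).1
  calc ∑ A ∈ LS K P, (YY x L t₀ v A) ^ 2 * ga gg A
      ≤ ∑ A ∈ LS K P, ∏ i, (HH (lb i A) * yy x L t₀ (pd (lb i A)) ^ 2) := by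
        refine Finset.sum_le_sum fun A hA => ?_
        have hA' : A ∈ (P ×ˢ (univ : Finset (Fin K))).powerset := by
          unfold LS at hA
          exact (mem_filter.1 hA).1
        unfold YY
        split_ifs
        · rw [ga_HH, ← Finset.prod_pow, ← Finset.prod_mul_distrib]
          refine le_of_eq (Finset.prod_congr rfl fun i _ => ?_)
          unfold pd
          ring
        · rw [zero_pow two_ne_zero, zero_mul]
          exact Finset.prod_nonneg fun i _ => hnn A hA' i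
    _ ≤ ∑ A ∈ (P ×ˢ (univ : Finset (Fin K))).powerset,
          ∏ i, (HH (lb i A) * yy x L t₀ (pd (lb i A)) ^ 2) := by
        refine Finset.sum_le_sum_of_subset_of_nonneg ?_ ?_
        · unfold LS
          exact Finset.filter_subset _ _
        · intro A hA _
          exact Finset.prod_nonneg fun i _ => hnn A hA i
    _ = ∏ _i : Fin K, ∑ S ∈ P.powerset, HH S * yy x L t₀ (pd S) ^ 2 :=
        prod_labels P (fun _ S => HH S * yy x L t₀ (pd S) ^ 2)
    _ = U2 P x L t₀ ^ K := by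
        rw [Finset.prod_const, Finset.card_univ, Fintype.card_fin]
        rfl

theorem Ex_one {K : ℕ} (D₀ : ℕ) (hD : K < D₀) (P : Finset ℕ) (hP : ∀ p ∈ P, p.Prime ∧ D₀ < p)
    (x L : ℕ) (t₀ v : ℝ) :
    Ex go P (fun ω => (ff gg P (YY (K := K) x L t₀ v) ω) ^ 2) ≤
      Real.exp (2 * K / D₀) * U2 P x L t₀ ^ K := by
  have hP1 : ∀ p ∈ P, p.Prime := fun p hp => (hP p hp).1
  have h1 : (fun ω => (ff gg P (YY (K := K) x L t₀ v) ω) ^ 2) =
      fun ω => (ff go P (cv P (YY (K := K) x L t₀ v)) ω) ^ 2 := by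
    funext ω
    rw [ff_cv]
  rw [h1]
  have hD1 : 1 ≤ D₀ := by omega
  refine (Ex_upper go P (fun p hp => ?_) _).trans ?_
  · have h2 := hP p hp
    have h3 : (K : ℝ) ≤ p := by exact_mod_cast (by omega : K ≤ p)
    have h4 : (0 : ℝ) < p := by exact_mod_cast h2.1.pos
    unfold go
    refine ⟨by positivity, ?_⟩
    rw [mul_one_div, div_le_one h4]
    exact h3
  · have hcv : ∀ A, 0 ≤ cv P (YY (K := K) x L t₀ v) A ∧
        cv P (YY (K := K) x L t₀ v) A ≤ YY x L t₀ v A * Real.exp (K * (1 / D₀)) := fun A =>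
      cv_bd P hP1 _ (fun A => (YY_bd x L t₀ v A).1)
        (fun A C hC hAC => YY_anti P (fun p hp => (hP1 p hp).one_le) x L t₀ v A C hC hAC) _
        (sum_dif D₀ hD1 P fun p hp => (hP p hp).2) A
    calc ∑ A ∈ LS K P, cv P (YY (K := K) x L t₀ v) A ^ 2 * ga go A
        ≤ ∑ A ∈ LS K P, Real.exp (2 * K / D₀) * ((YY x L t₀ v A) ^ 2 * ga gg A) := by
          refine Finset.sum_le_sum fun A hA => ?_
          have h2 := hcv A
          have h3 : cv P (YY (K := K) x L t₀ v) A ^ 2 ≤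
              (YY x L t₀ v A * Real.exp (K * (1 / D₀))) ^ 2 := pow_le_pow_left₀ h2.1 h2.2 2
          have h4 : (YY x L t₀ v A * Real.exp (K * (1 / D₀))) ^ 2 =
              Real.exp (2 * K / D₀) * (YY x L t₀ v A) ^ 2 := by
            rw [mul_pow, ← Real.exp_nat_mul, mul_comm]
            congr 2
            push_cast
            ring
          have h5 : 0 ≤ ga go A := Finset.prod_nonneg fun a _ => by
            unfold go
            positivity
          have h6 : ga go A ≤ ga gg A := by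
            unfold ga
            refine Finset.prod_le_prod (fun a _ => by unfold go; positivity) (fun a ha => ?_)
            have h7 := (hP1 _ ((mem_LS.1 hA).1 a ha)).two_le
            have h8 : (2 : ℝ) ≤ (a.1 : ℝ) := by exact_mod_cast h7
            unfold go gg
            exact one_div_le_one_div_of_le (by linarith) (by linarith)
          rw [h4] at h3
          calc cv P (YY (K := K) x L t₀ v) A ^ 2 * ga go A
              ≤ (Real.exp (2 * K / D₀) * (YY x L t₀ v A) ^ 2) * ga gg A :=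
                mul_le_mul h3 h6 h5 (by positivity)
            _ = _ := by ring
      _ = Real.exp (2 * K / D₀) * ∑ A ∈ LS K P, (YY x L t₀ v A) ^ 2 * ga gg A := by
          rw [Finset.mul_sum]
      _ ≤ _ := mul_le_mul_of_nonneg_left (YY_sum P hP1 x L t₀ v) (Real.exp_pos _).le

end Pool.Agent.Work.MP_70e905_nt.MT
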