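import Mathlib
import Pool.Agent.Work.MP_70e905_nt.MT.Defs
import Pool.Agent.Work.MP_73869e_nt.N

set_option autoImplicit false

/-!
MODULE M0 (Mertens), size S-M.
mert_inv: mertens_third (MP_73869e_nt/N.lean): mert y * log y tends to exp(-γ) > 0, where mert y is the product
of 1 - 1/p over the primes ≤ y (Defs.lean of MP_73869e_nt); so it is at least exp(-γ) / 2 for y ≥ y₀, and for
2 ≤ y ≤ y₀ mert y ≥ mert y₀ > 0 and log y ≥ log 2; take the inverse.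
sum_gg: for a prime p: gg p = 1 / (p - 1) ≤ -log (1 - 1/p) + gg p ^ 2 (log (1 + t) ≥ t - t^2 for t = 1/(p-1),
0 ≤ t ≤ 1, and -log(1 - 1/p) = log(1 + t)); the sum of gg p ^ 2 over any finite set of primes is at most
1 + 1 + 1/4 + 1/9 + ... ≤ 3; sum of -log (1 - 1/p) over the primes ≤ x = -log (mert x) ≤ log (C₀ log x).
-/

namespace Pool.Agent.Work.MP_70e905_nt.MT

open Finset Pool.Agent.Work.MP_73869e_nt.TH

private theorem m0_fac {p : ℕ} (hp : p.Prime) : 0 < 1 - 1 / (p : ℝ) ∧ 1 - 1 / (p : ℝ) ≤ 1 := by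
  have h2 : (2 : ℝ) ≤ p := by exact_mod_cast hp.two_le
  have h3 : 1 / (p : ℝ) ≤ 1 / 2 := by
    apply one_div_le_one_div_of_le (by norm_num) h2
  have h4 : 0 ≤ 1 / (p : ℝ) := by positivity
  constructor <;> linarith

private theorem m0_pos (P : Finset ℕ) (hP : ∀ p ∈ P, p.Prime) : 0 < rt P :=
  Finset.prod_pos fun p hp => (m0_fac (hP p hp)).1

private theorem m0_anti {P Q : Finset ℕ} (hPQ : P ⊆ Q) (hQ : ∀ p ∈ Q, p.Prime) : rt Q ≤ rt P := by
  unfold rt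
  rw [← Finset.prod_sdiff hPQ]
  refine mul_le_of_le_one_left (m0_pos P fun p hp => hQ p (hPQ hp)).le ?_
  exact Finset.prod_le_one (fun p hp => (m0_fac (hQ p (Finset.mem_sdiff.1 hp).1)).1.le)
    fun p hp => (m0_fac (hQ p (Finset.mem_sdiff.1 hp).1)).2

theorem mert_inv : ∃ C₀ : ℝ, 1 ≤ C₀ ∧ ∀ z : ℝ, 2 ≤ z →
    (rt ((Icc 1 ⌊z⌋₊).filter Nat.Prime))⁻¹ ≤ C₀ * Real.log z := by
  have hprime : ∀ z : ℝ, ∀ p ∈ (Icc 1 ⌊z⌋₊).filter Nat.Prime, p.Prime := fun z p hp =>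
    (Finset.mem_filter.1 hp).2
  have h := Pool.Agent.Work.MP_73869e_nt.mertens_third
  set c : ℝ := Real.exp (-Real.eulerMascheroniConstant) with hc
  have hc0 : 0 < c := Real.exp_pos _
  have h1 : ∀ᶠ y : ℝ in Filter.atTop, c / 2 < Pool.Agent.Work.MP_73869e_nt.mert y * Real.log y :=
    h.eventually (lt_mem_nhds (by linarith))
  obtain ⟨y₀, hy₀⟩ := Filter.eventually_atTop.1 h1
  set y₁ : ℝ := max y₀ 2 with hy₁
  set R : ℝ := (rt ((Icc 1 ⌊y₁⌋₊).filter Nat.Prime))⁻¹ with hR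
  have hR0 : 0 < R := inv_pos.2 (m0_pos _ (hprime y₁))
  have hl2 : 0 < Real.log 2 := Real.log_pos (by norm_num)
  refine ⟨max 1 (max (2 / c) (R / Real.log 2)), le_max_left _ _, fun z hz => ?_⟩
  have hlz : Real.log 2 ≤ Real.log z := Real.log_le_log (by norm_num) hz
  have hlz0 : 0 < Real.log z := hl2.trans_le hlz
  have hz0 := m0_pos _ (hprime z)
  rcases le_total y₁ z with h2 | h2
  · have h3 := hy₀ z ((le_max_left _ _).trans h2)
    have h4 : Pool.Agent.Work.MP_73869e_nt.mert z = rt ((Icc 1 ⌊z⌋₊).filter Nat.Prime) := rfl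
    rw [h4] at h3
    calc (rt ((Icc 1 ⌊z⌋₊).filter Nat.Prime))⁻¹ ≤ 2 / c * Real.log z := by
          rw [inv_le_iff_one_le_mul₀ hz0, div_mul_eq_mul_div, div_mul_eq_mul_div,
            le_div_iff₀ hc0]
          nlinarith
      _ ≤ _ := mul_le_mul_of_nonneg_right ((le_max_left _ _).trans (le_max_right _ _)) hlz0.le
  · have h3 : rt ((Icc 1 ⌊y₁⌋₊).filter Nat.Prime) ≤ rt ((Icc 1 ⌊z⌋₊).filter Nat.Prime) := by
      refine m0_anti ?_ (hprime y₁)
      refine Finset.filter_subset_filter _ (Finset.Icc_subset_Icc_right (Nat.floor_le_floor h2))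
    calc (rt ((Icc 1 ⌊z⌋₊).filter Nat.Prime))⁻¹ ≤ R := by
          rw [hR]
          exact inv_anti₀ (m0_pos _ (hprime y₁)) h3
      _ ≤ R / Real.log 2 * Real.log z := by
          rw [div_mul_eq_mul_div, le_div_iff₀ hl2]
          exact mul_le_mul_of_nonneg_left hlz hR0.le
      _ ≤ _ := mul_le_mul_of_nonneg_right ((le_max_right _ _).trans (le_max_right _ _)) hlz0.le

private theorem m0_gg {p : ℕ} (hp : p.Prime) : 0 < gg p ∧ gg p ≤ 1 ∧
    (1 + gg p) * (1 - 1 / (p : ℝ)) = 1 ∧ gg p ^ 2 ≤ 2 * (1 / ((p : ℝ) - 1) - 1 / p) := by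
  have h2 : (2 : ℝ) ≤ p := by exact_mod_cast hp.two_le
  have h3 : (0 : ℝ) < (p : ℝ) - 1 := by linarith
  have h4 : (0 : ℝ) < p := by linarith
  unfold gg
  refine ⟨by positivity, ?_, ?_, ?_⟩
  · rw [div_le_one h3]
    linarith
  · field_simp
    ring
  · rw [div_sub_div _ _ h3.ne' h4.ne', div_pow, mul_div_assoc', div_le_div_iff₀ (by positivity)
      (by positivity)]
    nlinarith

private theorem m0_tel (x : ℕ) (hx : 2 ≤ x) :
    ∑ m ∈ Icc 2 x, 2 * (1 / ((m : ℝ) - 1) - 1 / m) ≤ 2 := by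
  have h : ∑ m ∈ Icc 2 x, 2 * (1 / ((m : ℝ) - 1) - 1 / m) = 2 * (1 - 1 / (x : ℝ)) := by
    induction x, hx using Nat.le_induction with
    | base => norm_num
    | succ n hn ih =>
      rw [Finset.sum_Icc_succ_top (by omega), ih]
      push_cast
      ring
  rw [h]
  have : (0 : ℝ) ≤ 1 / (x : ℝ) := by positivity
  linarith

theorem sum_gg : ∃ C₁ : ℝ, 1 ≤ C₁ ∧ ∀ x : ℕ, 2 ≤ x → ∀ P : Finset ℕ, (∀ p ∈ P, p.Prime ∧ p ≤ x) →
    Real.exp (∑ p ∈ P, gg p) ≤ C₁ * Real.log x := by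
  obtain ⟨C₀, hC₀, hinv⟩ := mert_inv
  have he1 : (1 : ℝ) ≤ Real.exp 2 := Real.one_le_exp (by norm_num)
  refine ⟨Real.exp 2 * C₀, by nlinarith, fun x hx P hP => ?_⟩
  have h1 : ∑ p ∈ P, gg p ≤ ∑ p ∈ P, Real.log (1 + gg p) + 2 := by
    have h2 : ∀ p ∈ P, gg p ≤ Real.log (1 + gg p) + gg p ^ 2 := by
      intro p hp
      obtain ⟨a1, a2, -, -⟩ := m0_gg (hP p hp).1
      have h3 := Real.one_sub_inv_le_log_of_pos (show 0 < 1 + gg p by linarith)
      have h4 : gg p - gg p ^ 2 ≤ 1 - (1 + gg p)⁻¹ := by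
        have h5 : 1 - (1 + gg p)⁻¹ = gg p / (1 + gg p) := by
          field_simp
          ring
        rw [h5, le_div_iff₀ (by linarith)]
        nlinarith [mul_pos (mul_pos a1 a1) a1]
      linarith
    have h3 : ∑ p ∈ P, gg p ^ 2 ≤ 2 := by
      calc ∑ p ∈ P, gg p ^ 2 ≤ ∑ p ∈ P, 2 * (1 / ((p : ℝ) - 1) - 1 / p) :=
            Finset.sum_le_sum fun p hp => (m0_gg (hP p hp).1).2.2.2
        _ ≤ ∑ m ∈ Icc 2 x, 2 * (1 / ((m : ℝ) - 1) - 1 / m) := by
            refine Finset.sum_le_sum_of_subset_of_nonneg ?_ ?_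
            · intro p hp
              exact Finset.mem_Icc.2 ⟨(hP p hp).1.two_le, (hP p hp).2⟩
            · intro m hm _
              have h2 : (2 : ℝ) ≤ m := by exact_mod_cast (Finset.mem_Icc.1 hm).1
              have h5 : 1 / (m : ℝ) ≤ 1 / ((m : ℝ) - 1) :=
                one_div_le_one_div_of_le (by linarith) (by linarith)
              linarith
        _ ≤ 2 := m0_tel x hx
    calc ∑ p ∈ P, gg p ≤ ∑ p ∈ P, (Real.log (1 + gg p) + gg p ^ 2) := Finset.sum_le_sum h2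
      _ = ∑ p ∈ P, Real.log (1 + gg p) + ∑ p ∈ P, gg p ^ 2 := Finset.sum_add_distrib
      _ ≤ _ := by linarith
  have h2 : Real.exp (∑ p ∈ P, Real.log (1 + gg p)) = (rt P)⁻¹ := by
    rw [Real.exp_sum]
    unfold rt
    rw [← Finset.prod_inv_distrib]
    refine Finset.prod_congr rfl fun p hp => ?_
    obtain ⟨a1, -, a3, -⟩ := m0_gg (hP p hp).1
    rw [Real.exp_log (by linarith)]
    exact eq_inv_of_mul_eq_one_left a3
  have h3 : (rt P)⁻¹ ≤ (rt ((Icc 1 ⌊(x : ℝ)⌋₊).filter Nat.Prime))⁻¹ := by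
    refine inv_anti₀ (m0_pos _ fun p hp => (Finset.mem_filter.1 hp).2) (m0_anti ?_
      fun p hp => (Finset.mem_filter.1 hp).2)
    intro p hp
    rw [Finset.mem_filter, Finset.mem_Icc, Nat.floor_natCast]
    exact ⟨⟨(hP p hp).1.one_le, (hP p hp).2⟩, (hP p hp).1⟩
  have h4 := hinv x (by exact_mod_cast hx)
  calc Real.exp (∑ p ∈ P, gg p) ≤ Real.exp (∑ p ∈ P, Real.log (1 + gg p) + 2) :=
        Real.exp_le_exp.2 h1
    _ = (rt P)⁻¹ * Real.exp 2 := by rw [Real.exp_add, h2]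
    _ ≤ (C₀ * Real.log x) * Real.exp 2 :=
        mul_le_mul_of_nonneg_right (h3.trans h4) (Real.exp_pos _).le
    _ = _ := by ring

end Pool.Agent.Work.MP_70e905_nt.MT
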