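import Mathlib
import Pool.Agent.Work.MP_70e905_nt.MT.A2
import Pool.Agent.Work.MP_70e905_nt.MT.A4
import Pool.Agent.Work.MP_70e905_nt.MT.A6
import Pool.Agent.Work.MP_70e905_nt.MT.M0
import Pool.Agent.Work.MP_73869e_nt.TH.T04

set_option autoImplicit false

/-!
MODULE A7 (upper bound of the first sum), size M-L.
Write P = c.P W δ, P₀ = c.P₀ W s; their primes do not divide W, so they are > D₀ > K (a prime p ≤ D₀ divides
primorial D₀) and divide no a i (haW). c.w z = 1[cop] * (ff gg P YY (om P z))^2, ff gg P YY = ff go P (cv P YY)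
(ff_cv), 1[cop] = sum over E of eJ (Jr) E 1[E ⊆ om P₀ z] (leg, A2). By sq_leg (A4) with e = eJ (Jr a b),
Y = cv P YY and sum_eJ (A2): the sum is at most (x / W) * c.q1 * Ex go P (ff gg P YY)^2 + error, and Ex_one (A6)
bounds Ex (c.q1 ≥ 0).
Error: #(LS K P₀) = (K + 1)^#P₀ (sum_LS_prod of TH/T01 with f = 1) ≤ (K + 1)^(s log x) ≤ x^(1/10) by hsK;
la_sum (TH/T04) with |cv P YY| ≤ 2^K exp(K / D₀) (cv_bd with sum_dif; YY_bd), cv P YY A ≠ 0 → pr A ≤ x^δ (some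
C ⊇ A has YY C ≠ 0), γ = go ≤ gg and exp (sum over P of gg p) ≤ C₁ log x (sum_gg, M0):
sum |la| ≤ sum |la| * pr ≤ 2^K e^K (C₁ log x)^(2 K) x^(2 δ). Hence the error is at most
x^(1/10 + 4 δ + 1/100) ≤ x^(1/2).
Lower bound of the main term: c.q1 ≥ prod over primes K < r ≤ s log x of (1 - K / r) ≥
prod over integers K < m ≤ M of (m - K) / m ≥ M^(-K) with M = ⌊s log x⌋ (telescoping (M - K)! K! / M!), so
q1 ≥ (s log x + 1)^(-K); U2 ≥ 1 (U_ge_one). So ε (x / W) q1 U2^K ≥ x^(1/2) ≥ error for large x.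
-/

namespace Pool.Agent.Work.MP_70e905_nt.MT

open Finset Pool.Agent.Work.MP_73869e_nt.TH

private theorem a7_prod (K M : ℕ) (hM : 1 ≤ M) :
    1 / (M : ℝ) ^ K ≤ ∏ m ∈ Ioc K M, (1 - (K : ℝ) / m) := by
  have hM' : (1 : ℝ) ≤ M := by exact_mod_cast hM
  rcases Nat.lt_or_ge M K with h | h
  · rw [Finset.Ioc_eq_empty (by omega), Finset.prod_empty, div_le_one (by positivity)]
    exact one_le_pow₀ hM'
  · have key : ∀ N : ℕ, K ≤ N →
        ((N.choose K : ℕ) : ℝ) * ∏ m ∈ Ioc K N, (1 - (K : ℝ) / m) = 1 := by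
      intro N hN
      induction N, hN using Nat.le_induction with
      | base => simp
      | succ N hN ih =>
        rw [Finset.prod_Ioc_succ_top hN]
        have h1 := Nat.choose_mul_succ_eq N K
        have h2 : ((N.choose K : ℕ) : ℝ) * (N + 1) =
            (((N + 1).choose K : ℕ) : ℝ) * ((N + 1 : ℝ) - K) := by
          have h3 : ((N + 1 - K : ℕ) : ℝ) = (N + 1 : ℝ) - K := by
            rw [Nat.cast_sub (by omega)]
            push_cast
            ring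
          rw [← h3]
          exact_mod_cast h1
        have h4 : (0 : ℝ) < (N : ℝ) + 1 := by positivity
        have h5 : (1 - (K : ℝ) / ((N + 1 : ℕ) : ℝ)) = ((N + 1 : ℝ) - K) / (N + 1) := by
          push_cast
          field_simp
        rw [h5]
        calc (((N + 1).choose K : ℕ) : ℝ) * ((∏ m ∈ Ioc K N, (1 - (K : ℝ) / m)) *
              (((N + 1 : ℝ) - K) / (N + 1)))
            = ((((N + 1).choose K : ℕ) : ℝ) * ((N + 1 : ℝ) - K)) / (N + 1) *
              ∏ m ∈ Ioc K N, (1 - (K : ℝ) / m) := by ring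
          _ = ((N.choose K : ℕ) : ℝ) * ∏ m ∈ Ioc K N, (1 - (K : ℝ) / m) := by
              rw [← h2]
              field_simp
          _ = 1 := ih
    have h1 := key M h
    have h2 : ((M.choose K : ℕ) : ℝ) ≤ (M : ℝ) ^ K := by exact_mod_cast Nat.choose_le_pow M K
    have h3 : 0 < ((M.choose K : ℕ) : ℝ) := by exact_mod_cast Nat.choose_pos h
    have h4 : ∏ m ∈ Ioc K M, (1 - (K : ℝ) / m) = 1 / ((M.choose K : ℕ) : ℝ) := by
      rw [eq_div_iff h3.ne', mul_comm]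
      exact h1
    rw [h4]
    exact one_div_le_one_div_of_le h3 h2

private theorem a7_D {D₀ W p : ℕ} (hDW : primorial D₀ ∣ W) (hp : p.Prime) (h : ¬ p ∣ W) :
    D₀ < p := by
  by_contra hcon
  push Not at hcon
  exact h ((hp.dvd_primorial_iff.2 hcon).trans hDW)

private theorem a7_mem0 {K : ℕ} {c : Cfg K} {W : ℕ} {s : ℝ} {r : ℕ} (h : r ∈ c.P₀ W s) :
    r.Prime ∧ ¬ r ∣ W ∧ bd c.a c.b r ∧ r ∈ Icc 1 ⌊s * Real.log c.x⌋₊ := by
  unfold Cfg.P₀ at h
  rw [mem_filter] at h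
  exact ⟨h.2.1, h.2.2.1, h.2.2.2, h.1⟩

private theorem a7_mem {K : ℕ} {c : Cfg K} {W : ℕ} {t : ℝ} {r : ℕ} (h : r ∈ c.P W t) :
    r.Prime ∧ ¬ r ∣ W ∧ ¬ bd c.a c.b r ∧ r ∈ Icc 1 ⌊(c.x : ℝ) ^ t⌋₊ := by
  unfold Cfg.P Cfg.PZ at h
  rw [mem_filter] at h
  exact ⟨h.2.1, h.2.2.1, h.2.2.2, h.1⟩

private theorem a7_q1 (K : ℕ) (s : ℝ) (c : Cfg K) (D₀ W A₀ C : ℕ) (hc : c.Ok D₀ W A₀ C)
    (hD : K < D₀) : ∀ r ∈ c.P₀ W s, (1 - (K : ℝ) / r) ≤ (1 - #(Jr c.a c.b r) * go r) ∧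
      0 < (1 - (K : ℝ) / r) ∧ K < r := by
  intro r hr
  obtain ⟨h1, h2, _, _⟩ := a7_mem0 hr
  have h3 : K < r := hD.trans (a7_D hc.hDW h1 h2)
  have h3' : (K : ℝ) < r := by exact_mod_cast h3
  have h4 : (0 : ℝ) < r := by exact_mod_cast h1.pos
  refine ⟨?_, ?_, h3⟩
  · unfold go
    have h5 : (#(Jr c.a c.b r) : ℝ) ≤ K := by exact_mod_cast card_Jr c.a c.b r
    rw [mul_one_div]
    have := div_le_div_of_nonneg_right h5 h4.le
    linarith
  · rw [sub_pos, div_lt_one h4]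
    exact h3'

theorem q1_ge (K : ℕ) (s : ℝ) (hs : 0 < s) : ∃ X₀ : ℕ, ∀ c : Cfg K, ∀ D₀ W A₀ C : ℕ,
    c.Ok D₀ W A₀ C → K < D₀ → X₀ ≤ c.x → 1 / (Real.log c.x) ^ (K + 1) ≤ c.q1 W s := by
  refine ⟨⌈Real.exp (max (s ^ K) 1)⌉₊, fun c D₀ W A₀ C hc hD hx => ?_⟩
  have hx' : Real.exp (max (s ^ K) 1) ≤ c.x := (Nat.le_ceil _).trans (by exact_mod_cast hx)
  have hx0 : (0 : ℝ) < c.x := (Real.exp_pos _).trans_le hx'
  have hlog : max (s ^ K) 1 ≤ Real.log c.x := (Real.le_log_iff_exp_le hx0).2 hx'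
  have hl1 : 1 ≤ Real.log c.x := (le_max_right _ _).trans hlog
  have hls : s ^ K ≤ Real.log c.x := (le_max_left _ _).trans hlog
  have hl0 : 0 < Real.log c.x := by linarith
  set M := ⌊s * Real.log c.x⌋₊ with hM
  have hq := a7_q1 K s c D₀ W A₀ C hc hD
  have hlow : ∏ r ∈ c.P₀ W s, (1 - (K : ℝ) / r) ≤ c.q1 W s := by
    unfold Cfg.q1
    exact Finset.prod_le_prod (fun r hr => (hq r hr).2.1.le) (fun r hr => (hq r hr).1)
  refine le_trans ?_ hlow
  rcases Nat.eq_zero_or_pos M with h0 | h0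
  · have hemp : c.P₀ W s = ∅ := by
      rw [Finset.eq_empty_iff_forall_notMem]
      intro r hr
      have h1 := (a7_mem0 hr).2.2.2
      rw [← hM, h0] at h1
      simp at h1
    rw [hemp, Finset.prod_empty, div_le_one (by positivity)]
    exact one_le_pow₀ hl1
  · have hsub : c.P₀ W s ⊆ Ioc K M := by
      intro r hr
      have h1 := (a7_mem0 hr).2.2.2
      rw [mem_Icc] at h1
      rw [mem_Ioc]
      exact ⟨(hq r hr).2.2, h1.2⟩
    have h1 : ∏ m ∈ Ioc K M, (1 - (K : ℝ) / m) ≤ ∏ r ∈ c.P₀ W s, (1 - (K : ℝ) / r) := by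
      rw [← Finset.prod_sdiff hsub]
      have hb : ∀ m ∈ Ioc K M, 0 ≤ (1 - (K : ℝ) / m) ∧ (1 - (K : ℝ) / m) ≤ 1 := by
        intro m hm
        rw [mem_Ioc] at hm
        have h2 : (K : ℝ) ≤ m := by exact_mod_cast hm.1.le
        have h3 : (0 : ℝ) < m := by exact_mod_cast (by omega : 0 < m)
        constructor
        · rw [sub_nonneg, div_le_one h3]
          exact h2
        · have : 0 ≤ (K : ℝ) / m := by positivity
          linarith
      refine mul_le_of_le_one_left (Finset.prod_nonneg fun r hr => (hq r hr).2.1.le) ?_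
      exact Finset.prod_le_one (fun m hm => (hb m (mem_sdiff.1 hm).1).1)
        (fun m hm => (hb m (mem_sdiff.1 hm).1).2)
    refine le_trans ?_ ((a7_prod K M h0).trans h1)
    have h2 : (M : ℝ) ≤ s * Real.log c.x := Nat.floor_le (by positivity)
    have hM0 : (0 : ℝ) < M := by exact_mod_cast h0
    refine one_div_le_one_div_of_le (by positivity) ?_
    calc (M : ℝ) ^ K ≤ (s * Real.log c.x) ^ K := pow_le_pow_left₀ hM0.le h2 K
      _ = s ^ K * Real.log c.x ^ K := mul_pow _ _ _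
      _ ≤ Real.log c.x * Real.log c.x ^ K := mul_le_mul_of_nonneg_right hls (by positivity)
      _ = Real.log c.x ^ (K + 1) := by ring

private theorem a7_asym (D : ℝ) (n : ℕ) : ∃ X₀ : ℕ, ∀ x : ℕ, X₀ ≤ x →
    D * Real.log x ^ n ≤ (x : ℝ) ^ (7 / 10 : ℝ) := by
  have h := isLittleO_log_rpow_rpow_atTop (n : ℝ) (show (0 : ℝ) < 7 / 10 by norm_num)
  have h2 := (h.comp_tendsto tendsto_natCast_atTop_atTop).def
    (show (0 : ℝ) < 1 / (|D| + 1) by positivity)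
  obtain ⟨X₀, hX₀⟩ := Filter.eventually_atTop.1 h2
  refine ⟨max X₀ 1, fun x hx => ?_⟩
  have hx1 : 1 ≤ x := (le_max_right _ _).trans hx
  have h3 := hX₀ x ((le_max_left _ _).trans hx)
  simp only [Function.comp_apply] at h3
  have hl0 : 0 ≤ Real.log x := Real.log_natCast_nonneg x
  rw [Real.rpow_natCast, Real.norm_of_nonneg (by positivity), Real.norm_of_nonneg (by positivity)]
    at h3
  have hD1 : 0 < |D| + 1 := by positivity
  have h4 : (|D| + 1) * Real.log x ^ n ≤ (x : ℝ) ^ (7 / 10 : ℝ) := by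
    have := mul_le_mul_of_nonneg_left h3 hD1.le
    rw [← mul_assoc, mul_one_div_cancel hD1.ne', one_mul] at this
    exact this
  refine le_trans ?_ h4
  refine mul_le_mul_of_nonneg_right ?_ (by positivity)
  have := le_abs_self D
  linarith

theorem E1_up (K L : ℕ) (hL : 1 ≤ L) (s δ t₀ ε : ℝ) (hs : 0 < s)
    (hsK : s * Real.log (K + 1) ≤ 1 / 10) (hδ : 0 < δ) (hδ' : δ ≤ 1 / 20) (ht₀ : 0 < t₀)
    (hε : 0 < ε) (D₀ W A₀ C : ℕ) (hD : K < D₀) :
    ∃ X₀ : ℕ, ∀ c : Cfg K, c.Ok D₀ W A₀ C → X₀ ≤ c.x →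
      ∑ z ∈ c.dom W, c.w W L s δ t₀ z ≤
        (Real.exp (2 * K / D₀) + ε) * (c.x / W) * c.q1 W s * U2 (c.P W δ) c.x L t₀ ^ K := by
  obtain ⟨X₁, hX₁⟩ := q1_ge K s hs
  obtain ⟨C₁, hC₁, hgg⟩ := sum_gg
  set D : ℝ := (2 ^ K * Real.exp 1) ^ 2 * C₁ ^ (4 * K) with hDdef
  have hD0 : 0 < D := by
    have : 0 < C₁ := by linarith
    positivity
  obtain ⟨X₂, hX₂⟩ := a7_asym (D * W / ε) (5 * K + 1)
  refine ⟨max (max X₁ X₂) 3, fun c hc hx => ?_⟩
  have hxX₁ : X₁ ≤ c.x := (le_max_left _ _).trans ((le_max_left _ _).trans hx)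
  have hxX₂ : X₂ ≤ c.x := (le_max_right _ _).trans ((le_max_left _ _).trans hx)
  have hx3 : 3 ≤ c.x := (le_max_right _ _).trans hx
  have hx3' : (3 : ℝ) ≤ c.x := by exact_mod_cast hx3
  have hx0 : (0 : ℝ) < c.x := by linarith
  have hl1 : 1 ≤ Real.log c.x := by
    rw [Real.le_log_iff_exp_le hx0]
    have := Real.exp_one_lt_d9
    linarith
  have hl0 : 0 < Real.log c.x := by linarith
  have hW0 : (0 : ℝ) < W := by exact_mod_cast hc.hW
  set P := c.P W δ with hP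
  set P₀ := c.P₀ W s with hP₀
  -- the primes
  have hPp : ∀ p ∈ P, p.Prime ∧ ¬ p ∣ W ∧ ¬ bd c.a c.b p ∧ p ∈ Icc 1 ⌊(c.x : ℝ) ^ δ⌋₊ :=
    fun p hp => a7_mem hp
  have hP₀p : ∀ p ∈ P₀, p.Prime ∧ ¬ p ∣ W ∧ bd c.a c.b p ∧ p ∈ Icc 1 ⌊s * Real.log c.x⌋₊ :=
    fun p hp => a7_mem0 hp
  have hdiva : ∀ p : ℕ, p.Prime → ¬ p ∣ W → ∀ i, ¬ p ∣ c.a i :=
    fun p hp h i hi => h (hc.haW i p hp hi)
  have hPD : ∀ p ∈ P, D₀ < p := fun p hp => a7_D hc.hDW (hPp p hp).1 (hPp p hp).2.1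
  have hPx : ∀ p ∈ P, p ≤ c.x := by
    intro p hp
    have h1 := (mem_Icc.1 (hPp p hp).2.2.2).2
    have h2 : (p : ℝ) ≤ (c.x : ℝ) ^ δ := (Nat.le_floor_iff (by positivity)).1 h1
    have h3 : (c.x : ℝ) ^ δ ≤ (c.x : ℝ) ^ (1 : ℝ) :=
      Real.rpow_le_rpow_of_exponent_le (by linarith) (by linarith)
    rw [Real.rpow_one] at h3
    exact_mod_cast h2.trans h3
  have hdis : Disjoint P P₀ := by
    rw [Finset.disjoint_left]
    intro p hp hp0
    exact (hPp p hp).2.2.1 (hP₀p p hp0).2.2.1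
  -- the weight
  set Y : Finset (ℕ × Fin K) → ℝ := cv P (YY c.x L t₀ δ) with hY
  have hw : ∀ z, c.w W L s δ t₀ z =
      (∑ E ∈ LS K P₀, eJ (Jr c.a c.b) E * (if E ⊆ om P₀ c.a c.b z then 1 else 0)) *
        (ff go P Y (om P c.a c.b z)) ^ 2 := by
    intro z
    rw [← leg P₀ c.a c.b (fun r hr => ⟨(hP₀p r hr).1, hdiva r (hP₀p r hr).1 (hP₀p r hr).2.1⟩) z]
    unfold Cfg.w Cfg.f
    rw [ff_cv]
    split_ifs
    · rw [one_mul]
    · rw [zero_mul]
  have hmain := sq_leg c.x W c.v hc.hW P P₀ hdis c.a c.b (by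
    intro p hp
    rcases mem_union.1 hp with h | h
    · exact ⟨(hPp p h).1, (hPp p h).2.1, hdiva p (hPp p h).1 (hPp p h).2.1⟩
    · exact ⟨(hP₀p p h).1, (hP₀p p h).2.1, hdiva p (hP₀p p h).1 (hP₀p p h).2.1⟩)
    (fun p hp => (hPp p hp).2.2.1) (eJ (Jr c.a c.b)) Y (fun E => eJ_le _ E)
  have hsum : ∑ z ∈ c.dom W, c.w W L s δ t₀ z =
      ∑ z ∈ (Ioc c.x (2 * c.x)).filter (fun z => z % W = c.v % W),
        (∑ E ∈ LS K P₀, eJ (Jr c.a c.b) E * (if E ⊆ om P₀ c.a c.b z then 1 else 0)) *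
          (ff go P Y (om P c.a c.b z)) ^ 2 := by
    unfold Cfg.dom
    exact Finset.sum_congr rfl fun z _ => hw z
  rw [hsum]
  rw [sum_eJ] at hmain
  have hq1 : ∏ r ∈ P₀, (1 - #(Jr c.a c.b r) * go r) = c.q1 W s := rfl
  rw [hq1] at hmain
  have hq1low : 1 / (Real.log c.x) ^ (K + 1) ≤ c.q1 W s := hX₁ c D₀ W A₀ C hc hD hxX₁
  have hq1pos : 0 < c.q1 W s := lt_of_lt_of_le (by positivity) hq1low
  have hEx : Ex go P (fun ω => (ff go P Y ω) ^ 2) ≤
      Real.exp (2 * K / D₀) * U2 P c.x L t₀ ^ K := by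
    have h1 := Ex_one D₀ hD P (fun p hp => ⟨(hPp p hp).1, hPD p hp⟩) c.x L t₀ δ
    have h2 : (fun ω => (ff gg P (YY (K := K) c.x L t₀ δ) ω) ^ 2) =
        fun ω => (ff go P Y ω) ^ 2 := by
      funext ω
      rw [ff_cv]
    rw [h2] at h1
    exact h1
  have hU2 : 1 ≤ U2 P c.x L t₀ :=
    (U_ge_one P (fun p hp => (hPp p hp).1) c.x L t₀ (by omega) hL ht₀.le).2
  -- the error
  set y : ℝ := (c.x : ℝ) ^ (1 / 10 : ℝ) with hy
  have hy0 : 0 < y := by positivity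
  have hy1 : 1 ≤ y := Real.one_le_rpow (by linarith) (by norm_num)
  have hy10 : y ^ 10 = c.x := by
    rw [hy, ← Real.rpow_natCast, ← Real.rpow_mul hx0.le]
    norm_num
  have hy7 : (c.x : ℝ) ^ (7 / 10 : ℝ) = y ^ 7 := by
    rw [hy, ← Real.rpow_natCast, ← Real.rpow_mul hx0.le]
    norm_num
  have hcard : (#(LS K P₀) : ℝ) ≤ y := by
    have h1 : (#(LS K P₀) : ℝ) = ((K : ℝ) + 1) ^ #P₀ := by
      have h2 := sum_LS_prod (K := K) P₀ (fun _ => (1 : ℝ))
      simp only [Finset.prod_const_one, Finset.sum_const, Finset.card_univ, Fintype.card_fin,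
        nsmul_eq_mul, mul_one, Finset.prod_const] at h2
      rw [h2, add_comm]
    have h3 : (#P₀ : ℝ) ≤ s * Real.log c.x := by
      have h4 : #P₀ ≤ ⌊s * Real.log c.x⌋₊ := by
        calc #P₀ ≤ #(Icc 1 ⌊s * Real.log c.x⌋₊) := by
              rw [hP₀]
              unfold Cfg.P₀
              exact Finset.card_filter_le _ _
          _ = ⌊s * Real.log c.x⌋₊ := by rw [Nat.card_Icc]; omega
      calc (#P₀ : ℝ) ≤ (⌊s * Real.log c.x⌋₊ : ℝ) := by exact_mod_cast h4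
        _ ≤ s * Real.log c.x := Nat.floor_le (by positivity)
    have hK1 : (1 : ℝ) ≤ (K : ℝ) + 1 := by
      have : (0 : ℝ) ≤ K := Nat.cast_nonneg K
      linarith
    have hlK : 0 ≤ Real.log ((K : ℝ) + 1) := Real.log_nonneg hK1
    rw [h1, ← Real.rpow_natCast, Real.rpow_def_of_pos (by linarith), hy,
      Real.rpow_def_of_pos hx0, Real.exp_le_exp]
    calc Real.log ((K : ℝ) + 1) * #P₀ ≤ Real.log ((K : ℝ) + 1) * (s * Real.log c.x) :=
          mul_le_mul_of_nonneg_left h3 hlK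
      _ = (s * Real.log ((K : ℝ) + 1)) * Real.log c.x := by ring
      _ ≤ (1 / 10) * Real.log c.x := mul_le_mul_of_nonneg_right hsK hl0.le
      _ = Real.log c.x * (1 / 10) := mul_comm _ _
  have hD1 : 1 ≤ D₀ := by omega
  have hcv : ∀ A, 0 ≤ Y A ∧ Y A ≤ YY c.x L t₀ δ A * Real.exp (K * (1 / D₀)) := fun A =>
    cv_bd P (fun p hp => (hPp p hp).1) _ (fun A => (YY_bd c.x L t₀ δ A).1)
      (fun A C' hC' hAC => YY_anti P (fun p hp => (hPp p hp).1.one_le) c.x L t₀ δ A C' hC' hAC) _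
      (sum_dif D₀ hD1 P hPD) A
  have hYle : ∀ A, |Y A| ≤ 2 ^ K * Real.exp 1 := by
    intro A
    rw [abs_of_nonneg (hcv A).1]
    refine (hcv A).2.trans ?_
    refine mul_le_mul (YY_bd c.x L t₀ δ A).2.1 ?_ (Real.exp_pos _).le (by positivity)
    rw [Real.exp_le_exp, mul_one_div]
    have h1 : (K : ℝ) ≤ D₀ := by exact_mod_cast hD.le
    have h2 : (0 : ℝ) < D₀ := by exact_mod_cast (by omega : 0 < D₀)
    rwa [div_le_one h2]
  have hYR : ∀ A, Y A ≠ 0 → (pr A : ℝ) ≤ (c.x : ℝ) ^ δ := by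
    intro A hA
    rw [hY] at hA
    unfold cv at hA
    obtain ⟨C', hC', hne⟩ := Finset.exists_ne_zero_of_sum_ne_zero hA
    rw [mem_filter] at hC'
    have h1 : YY c.x L t₀ δ C' ≠ 0 := fun h => hne (by rw [h, zero_mul])
    have h2 := (YY_bd c.x L t₀ δ C').2.2 h1
    have h3 : pr A ≤ pr C' := by
      unfold pr
      refine Finset.prod_le_prod_of_subset_of_one_le' hC'.2 fun a ha _ => ?_
      exact (hPp _ ((mem_LS.1 hC'.1).1 a ha)).1.one_le
    have h3' : (pr A : ℝ) ≤ pr C' := by exact_mod_cast h3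
    exact h3'.trans h2
  have hgo0 : ∀ p ∈ P, 0 ≤ go p := fun p _ => by unfold go; positivity
  have hgogg : ∑ p ∈ P, go p ≤ ∑ p ∈ P, gg p := by
    refine Finset.sum_le_sum fun p hp => ?_
    have h1 : (2 : ℝ) ≤ p := by exact_mod_cast (hPp p hp).1.two_le
    unfold go gg
    exact one_div_le_one_div_of_le (by linarith) (by linarith)
  have hla := la_sum go P (fun p hp => (hPp p hp).1.one_le) hgo0 (∑ p ∈ P, gg p)
    (∑ p ∈ P, gg p) ((c.x : ℝ) ^ δ) hgogg hgogg Y (2 ^ K * Real.exp 1) hYle hYR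
  have hexpS : Real.exp (∑ p ∈ P, gg p) ≤ C₁ * Real.log c.x :=
    hgg c.x (by omega) P fun p hp => ⟨(hPp p hp).1, hPx p hp⟩
  have hexpKS : Real.exp (K * ∑ p ∈ P, gg p) ≤ (C₁ * Real.log c.x) ^ K := by
    rw [Real.exp_nat_mul]
    exact pow_le_pow_left₀ (Real.exp_pos _).le hexpS K
  have hC₁0 : 0 < C₁ := by linarith
  have hR2 : ((c.x : ℝ) ^ δ) ^ 2 ≤ y := by
    rw [hy, ← Real.rpow_natCast, ← Real.rpow_mul hx0.le]
    refine Real.rpow_le_rpow_of_exponent_le (by linarith) ?_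
    push_cast
    linarith
  have hlasum : ∑ B ∈ LS K P, |la go P Y B| ≤
      2 ^ K * Real.exp 1 * (C₁ * Real.log c.x) ^ (2 * K) * y := by
    calc ∑ B ∈ LS K P, |la go P Y B| ≤ ∑ B ∈ LS K P, |la go P Y B| * pr B := by
          refine Finset.sum_le_sum fun B hB => ?_
          refine le_mul_of_one_le_right (abs_nonneg _) ?_
          have h1 : 1 ≤ pr B := by
            unfold pr
            refine Nat.succ_le_of_lt (Finset.prod_pos fun a ha => ?_)
            exact (hPp _ ((mem_LS.1 hB).1 a ha)).1.pos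
          exact_mod_cast h1
      _ ≤ _ := hla
      _ ≤ 2 ^ K * Real.exp 1 * (C₁ * Real.log c.x) ^ K *
            (y * (C₁ * Real.log c.x) ^ K) := by
          refine mul_le_mul (mul_le_mul_of_nonneg_left hexpKS (by positivity)) ?_
            (by positivity) (by positivity)
          exact mul_le_mul hR2 hexpKS (Real.exp_pos _).le hy0.le
      _ = _ := by ring
  have herr : (#(LS K P₀) : ℝ) * (∑ B ∈ LS K P, |la go P Y B|) ^ 2 ≤
      ε * (c.x / W) * c.q1 W s * U2 P c.x L t₀ ^ K := by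
    have h1 : 0 ≤ ∑ B ∈ LS K P, |la go P Y B| := Finset.sum_nonneg fun _ _ => abs_nonneg _
    have h2 : (#(LS K P₀) : ℝ) * (∑ B ∈ LS K P, |la go P Y B|) ^ 2 ≤
        D * Real.log c.x ^ (4 * K) * y ^ 3 := by
      calc (#(LS K P₀) : ℝ) * (∑ B ∈ LS K P, |la go P Y B|) ^ 2
          ≤ y * (2 ^ K * Real.exp 1 * (C₁ * Real.log c.x) ^ (2 * K) * y) ^ 2 :=
            mul_le_mul hcard (pow_le_pow_left₀ h1 hlasum 2) (by positivity) hy0.le
        _ = _ := by
            rw [hDdef]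
            ring
    have h3 : D * Real.log c.x ^ (4 * K) * y ^ 3 ≤
        ε * (c.x / W) * (1 / (Real.log c.x) ^ (K + 1)) := by
      have h4 := hX₂ c.x hxX₂
      rw [hy7] at h4
      have h5 : D * W * Real.log c.x ^ (5 * K + 1) ≤ ε * y ^ 7 := by
        have h6 := mul_le_mul_of_nonneg_left h4 hε.le
        have h7 : ε * (D * W / ε * Real.log c.x ^ (5 * K + 1)) =
            D * W * Real.log c.x ^ (5 * K + 1) := by
          field_simp
        rw [h7] at h6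
        exact h6
      have hxy : (c.x : ℝ) / W = y ^ 10 / W := by rw [hy10]
      rw [mul_one_div, le_div_iff₀ (by positivity), hxy]
      have h8 : D * Real.log c.x ^ (4 * K) * y ^ 3 * Real.log c.x ^ (K + 1) =
          (D * W * Real.log c.x ^ (5 * K + 1)) * y ^ 3 / W := by
        have h9 : Real.log c.x ^ (5 * K + 1) =
            Real.log c.x ^ (4 * K) * Real.log c.x ^ (K + 1) := by
          rw [← pow_add]
          congr 1
          ring
        rw [h9]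
        field_simp
      rw [h8, div_le_iff₀ hW0]
      calc (D * W * Real.log c.x ^ (5 * K + 1)) * y ^ 3 ≤ (ε * y ^ 7) * y ^ 3 :=
            mul_le_mul_of_nonneg_right h5 (by positivity)
        _ = ε * (y ^ 10 / W) * W := by
            field_simp
    refine h2.trans (h3.trans ?_)
    calc ε * (c.x / W) * (1 / (Real.log c.x) ^ (K + 1)) ≤ ε * (c.x / W) * c.q1 W s :=
          mul_le_mul_of_nonneg_left hq1low (by positivity)
      _ = ε * (c.x / W) * c.q1 W s * 1 := (mul_one _).symm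
      _ ≤ ε * (c.x / W) * c.q1 W s * U2 P c.x L t₀ ^ K :=
          mul_le_mul_of_nonneg_left (one_le_pow₀ hU2) (by positivity)
  have hup := (abs_le.1 hmain).2
  have hxx : (c.x : ℝ) / W * c.q1 W s * Ex go P (fun ω => (ff go P Y ω) ^ 2) ≤
      (c.x : ℝ) / W * c.q1 W s * (Real.exp (2 * K / D₀) * U2 P c.x L t₀ ^ K) :=
    mul_le_mul_of_nonneg_left hEx (by positivity)
  have hgoal : (Real.exp (2 * K / D₀) + ε) * (c.x / W) * c.q1 W s * U2 P c.x L t₀ ^ K =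
      (c.x : ℝ) / W * c.q1 W s * (Real.exp (2 * K / D₀) * U2 P c.x L t₀ ^ K) +
      ε * (c.x / W) * c.q1 W s * U2 P c.x L t₀ ^ K := by ring
  rw [hgoal]
  linarith

end Pool.Agent.Work.MP_70e905_nt.MT
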