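import Mathlib
import Pool.Agent.Work.MP_70e905_nt.MT.Defs

set_option autoImplicit false

/-!
MODULE B2 (the maximal error mx), size S-M.
mx y m is the maximum over the reduced classes c < m (as an NNReal supremum) of |pic y m c - π(y) / φ(m)|.
mx_ge: pic y m c only depends on c % m, and c % m is coprime to m; Finset.le_sup.
mx_triv: pic y m c ≤ y / m + 1 (the numbers ≤ y in one class) ≤ y / φ(m) + 1, π(y) / φ(m) ≤ y / φ(m); both terms
are ≥ 0, so the absolute value of the difference is at most the maximum.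
mx_sum: choose for every q ≥ 1 a class c q attaining the maximum (Finset.exists_mem_eq_sup; the set contains
1 % q, nonempty), c 0 = 1, and the constant function y in LD.
-/

namespace Pool.Agent.Work.MP_70e905_nt.MT

open Finset Pool.Agent.Work.MP_73869e_nt.TH

theorem mx_nn (y m : ℕ) : 0 ≤ mx y m := NNReal.coe_nonneg _

theorem mx_ge (y m c : ℕ) (hm : 0 < m) (hc : Nat.Coprime c m) :
    |(pic y m c : ℝ) - (Nat.primeCounting y : ℝ) / Nat.totient m| ≤ mx y m := by
  have h1 : c % m ∈ (range m).filter (fun c => Nat.Coprime c m) := by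
    rw [mem_filter, mem_range]
    refine ⟨Nat.mod_lt _ hm, ?_⟩
    rw [Nat.Coprime, ← Nat.gcd_rec, Nat.gcd_comm]
    exact hc
  have h2 : pic y m c = pic y m (c % m) := by
    unfold pic
    rw [Nat.mod_mod]
  have h3 := Finset.le_sup (f := fun c =>
    Real.toNNReal |(pic y m c : ℝ) - (Nat.primeCounting y : ℝ) / Nat.totient m|) h1
  have h4 : (Real.toNNReal |(pic y m (c % m) : ℝ) - (Nat.primeCounting y : ℝ) / Nat.totient m| : ℝ)
      ≤ mx y m := by
    unfold mx
    exact_mod_cast h3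
  rw [Real.coe_toNNReal _ (abs_nonneg _)] at h4
  rw [h2]
  exact h4

private theorem mx_le (y m : ℕ) (B : ℝ) (hB : 0 ≤ B) (h : ∀ c : ℕ, Nat.Coprime c m →
    |(pic y m c : ℝ) - (Nat.primeCounting y : ℝ) / Nat.totient m| ≤ B) : mx y m ≤ B := by
  unfold mx
  have h1 : ((range m).filter (fun c => Nat.Coprime c m)).sup (fun c =>
    Real.toNNReal |(pic y m c : ℝ) - (Nat.primeCounting y : ℝ) / Nat.totient m|) ≤
      Real.toNNReal B := by
    refine Finset.sup_le fun c hc => ?_
    exact Real.toNNReal_le_toNNReal (h c (mem_filter.1 hc).2)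
  have h2 : ((((range m).filter (fun c => Nat.Coprime c m)).sup (fun c =>
    Real.toNNReal |(pic y m c : ℝ) - (Nat.primeCounting y : ℝ) / Nat.totient m|) : NNReal) : ℝ) ≤
      (Real.toNNReal B : ℝ) := by
    exact_mod_cast h1
  rwa [Real.coe_toNNReal _ hB] at h2

private theorem pic_le (y m c : ℕ) : pic y m c ≤ y / m + 1 := by
  unfold pic
  have h1 : ((Icc 1 y).filter (fun p => p.Prime ∧ p % m = c % m)).card ≤
      (range (y / m + 1)).card := by
    refine Finset.card_le_card_of_injOn (fun p => p / m) ?_ ?_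
    · intro p hp
      have h2 := (mem_filter.1 (Finset.mem_coe.1 hp)).1
      rw [mem_Icc] at h2
      rw [Finset.mem_coe, mem_range]
      exact Nat.lt_succ_of_le (Nat.div_le_div_right h2.2)
    · intro p hp p' hp' h
      have h2 := (mem_filter.1 (Finset.mem_coe.1 hp)).2.2
      have h3 := (mem_filter.1 (Finset.mem_coe.1 hp')).2.2
      have h4 : p / m = p' / m := h
      rw [← Nat.div_add_mod p m, ← Nat.div_add_mod p' m, h2, h3, h4]
  rwa [card_range] at h1

private theorem pi_le (y : ℕ) : Nat.primeCounting y ≤ y := by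
  unfold Nat.primeCounting Nat.primeCounting'
  rw [Nat.count_eq_card_filter_range]
  have h1 : (range (y + 1)).filter Nat.Prime ⊆ Icc 1 y := by
    intro p hp
    rw [mem_filter, mem_range] at hp
    rw [mem_Icc]
    exact ⟨hp.2.pos, by omega⟩
  have h2 := Finset.card_le_card h1
  rwa [Nat.card_Icc, Nat.add_sub_cancel] at h2

theorem mx_triv (y m : ℕ) (hm : 0 < m) : mx y m ≤ y / Nat.totient m + 1 := by
  have hφ : (0 : ℝ) < Nat.totient m := by exact_mod_cast Nat.totient_pos.2 hm
  have hφm : (Nat.totient m : ℝ) ≤ m := by exact_mod_cast Nat.totient_le m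
  have hy : (0 : ℝ) ≤ y := Nat.cast_nonneg _
  have hB : 0 ≤ (y : ℝ) / Nat.totient m + 1 := by positivity
  refine mx_le y m _ hB fun c _ => ?_
  have h1 : (pic y m c : ℝ) ≤ y / Nat.totient m + 1 := by
    have h2 : (pic y m c : ℝ) ≤ ((y / m : ℕ) : ℝ) + 1 := by exact_mod_cast pic_le y m c
    have h3 : ((y / m : ℕ) : ℝ) ≤ (y : ℝ) / m := Nat.cast_div_le
    have h4 : (y : ℝ) / m ≤ (y : ℝ) / Nat.totient m :=
      div_le_div_of_nonneg_left hy hφ hφm
    linarith
  have h5 : (Nat.primeCounting y : ℝ) / Nat.totient m ≤ y / Nat.totient m + 1 := by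
    have h6 : (Nat.primeCounting y : ℝ) ≤ y := by exact_mod_cast pi_le y
    have h7 : (Nat.primeCounting y : ℝ) / Nat.totient m ≤ y / Nat.totient m :=
      div_le_div_of_nonneg_right h6 hφ.le
    linarith
  have h8 : (0 : ℝ) ≤ pic y m c := Nat.cast_nonneg _
  have h9 : (0 : ℝ) ≤ (Nat.primeCounting y : ℝ) / Nat.totient m := by positivity
  rw [abs_le]
  constructor <;> linarith

theorem mx_sum (θ : ℝ) (h : LD θ) (A : ℕ) : ∃ C : ℝ, 0 < C ∧ ∀ Y : ℕ, 2 ≤ Y → ∀ y : ℕ, y ≤ Y →
    ∑ m ∈ Icc 1 ⌊(Y : ℝ) ^ θ⌋₊, mx y m ≤ C * Y / (Real.log Y) ^ A := by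
  obtain ⟨C, hC, hL⟩ := h A
  refine ⟨C, hC, fun Y hY y hy => ?_⟩
  have hex : ∀ q : ℕ, ∃ c : ℕ, Nat.Coprime c q ∧ (1 ≤ q → mx y q =
      |(pic y q c : ℝ) - (Nat.primeCounting y : ℝ) / Nat.totient q|) := by
    intro q
    rcases Nat.eq_zero_or_pos q with hq | hq
    · exact ⟨1, Nat.coprime_one_left q, fun h => by omega⟩
    · have hne : ((range q).filter (fun c => Nat.Coprime c q)).Nonempty := by
        refine ⟨1 % q, ?_⟩
        rw [mem_filter, mem_range]
        refine ⟨Nat.mod_lt _ hq, ?_⟩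
        rw [Nat.Coprime, ← Nat.gcd_rec, Nat.gcd_comm]
        exact Nat.coprime_one_left q
      obtain ⟨c, hc, hce⟩ := Finset.exists_mem_eq_sup _ hne (fun c =>
        Real.toNNReal |(pic y q c : ℝ) - (Nat.primeCounting y : ℝ) / Nat.totient q|)
      refine ⟨c, (mem_filter.1 hc).2, fun _ => ?_⟩
      unfold mx
      rw [hce, Real.coe_toNNReal _ (abs_nonneg _)]
  choose c hc1 hc2 using hex
  refine le_trans (le_of_eq ?_) (hL Y hY (fun _ => y) c (fun _ => hy) hc1)
  refine Finset.sum_congr rfl fun q hq => ?_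
  exact hc2 q (mem_Icc.1 hq).1

end Pool.Agent.Work.MP_70e905_nt.MT
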