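import Mathlib
import Pool.Agent.Work.MP_70e905_nt.MT.B2
import Pool.Agent.Work.MP_70e905_nt.MT.M0

set_option autoImplicit false

/-!
MODULE B3 (errors with divisor-type multiplicities), size M.
Let F be the family of T ⊆ P with m₀ pd T ≤ Y^θ (θ ≤ 1). T ↦ m₀ * pd T is injective on sets of primes (the prime
factors of pd T are T), so sum over F of mx y (m₀ pd T) ≤ sum over m ≤ Y^θ of mx y m ≤ C' Y / (log Y)^A' by mx_sum,
with A' = 2 A + 2 H^2 (a natural number). By mx_triv and φ(m₀ pd T) ≤ m₀ pd T ≤ Y, φ(m₀ pd T) ≥ φ(pd T)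
(Nat.totient_dvd_of_dvd) = prod over T of (p - 1):
sum over F of H^(2 #T) mx ≤ 2 Y * sum over T ⊆ P of prod over T of H^2 gg p = 2 Y prod over P (1 + H^2 gg p) ≤
2 Y exp (H^2 sum gg) ≤ 2 Y (C₁ log Y)^(H^2) (sum_gg of M0).
Cauchy-Schwarz: (sum H^#T mx)^2 ≤ (sum H^(2 #T) mx) (sum mx) ≤ 2 Y (C₁ log Y)^(2 H^2) * C' Y / (log Y)^A'
(with C₁ log Y ≥ 1, or enlarge the constants).
-/

namespace Pool.Agent.Work.MP_70e905_nt.MT

open Finset Pool.Agent.Work.MP_73869e_nt.TH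

private theorem b3_pd_pos (T : Finset ℕ) (hT : ∀ p ∈ T, p.Prime) : 0 < pd T :=
  Finset.prod_pos fun p hp => (hT p hp).pos

private theorem b3_totient (T : Finset ℕ) (hT : ∀ p ∈ T, p.Prime) :
    ((Nat.totient (pd T) : ℕ) : ℝ)⁻¹ = ∏ p ∈ T, gg p := by
  classical
  induction T using Finset.induction_on with
  | empty =>
    unfold pd
    simp
  | insert p T hp ih =>
    have h1 := ih fun q hq => hT q (mem_insert_of_mem hq)
    have hpp := hT p (mem_insert_self _ _)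
    have h2 : pd (insert p T) = p * pd T := by
      unfold pd
      rw [prod_insert hp]
    have h3 : Nat.Coprime p (pd T) := by
      unfold pd
      refine Nat.Coprime.prod_right fun q hq => ?_
      rw [Nat.coprime_primes hpp (hT q (mem_insert_of_mem hq))]
      rintro rfl
      exact hp hq
    rw [h2, Nat.totient_mul h3, prod_insert hp, ← h1, Nat.totient_prime hpp]
    unfold gg
    push_cast [Nat.cast_sub hpp.one_lt.le]
    rw [mul_inv, one_div]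

private theorem b3_gg_nn (p : ℕ) (hp : p.Prime) : 0 ≤ gg p := by
  unfold gg
  have h1 : (1 : ℝ) < p := by exact_mod_cast hp.one_lt
  have h2 : (0 : ℝ) < (p : ℝ) - 1 := by linarith
  positivity

private theorem b3_sum (θ : ℝ) (h : LD θ) (A : ℕ) : ∃ C : ℝ, 0 < C ∧
    ∀ Y : ℕ, 2 ≤ Y → ∀ y : ℕ, y ≤ Y → ∀ m₀ : ℕ, 1 ≤ m₀ → ∀ P : Finset ℕ,
      (∀ p ∈ P, p.Prime ∧ p ≤ Y) →
      ∑ T ∈ P.powerset.filter (fun T => ((m₀ * pd T : ℕ) : ℝ) ≤ (Y : ℝ) ^ θ),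
        mx y (m₀ * pd T) ≤ C * Y / (Real.log Y) ^ A := by
  classical
  obtain ⟨C, hC, hC2⟩ := mx_sum θ h A
  refine ⟨C, hC, fun Y hY y hy m₀ hm₀ P hP => ?_⟩
  refine le_trans ?_ (hC2 Y hY y hy)
  have hinj : Set.InjOn (fun T => m₀ * pd T)
      (P.powerset.filter (fun T => ((m₀ * pd T : ℕ) : ℝ) ≤ (Y : ℝ) ^ θ) : Set (Finset ℕ)) := by
    intro T hT T' hT' hTT
    have h1 := mem_powerset.1 (mem_filter.1 (Finset.mem_coe.1 hT)).1
    have h2 := mem_powerset.1 (mem_filter.1 (Finset.mem_coe.1 hT')).1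
    have h3 : pd T = pd T' := Nat.eq_of_mul_eq_mul_left hm₀ hTT
    have h4 : (pd T).primeFactors = T := Nat.primeFactors_prod fun p hp => (hP p (h1 hp)).1
    have h5 : (pd T').primeFactors = T' := Nat.primeFactors_prod fun p hp => (hP p (h2 hp)).1
    rw [← h4, ← h5, h3]
  rw [← Finset.sum_image (f := fun m => mx y m) hinj]
  refine Finset.sum_le_sum_of_subset_of_nonneg ?_ fun _ _ _ => mx_nn _ _
  intro m hm
  obtain ⟨T, hT, rfl⟩ := mem_image.1 hm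
  have h1 := mem_powerset.1 (mem_filter.1 hT).1
  rw [mem_Icc]
  refine ⟨Nat.mul_pos hm₀ (b3_pd_pos T fun p hp => (hP p (h1 hp)).1), ?_⟩
  exact Nat.le_floor (mem_filter.1 hT).2

private theorem b3_sum2 (θ : ℝ) (hθ : θ ≤ 1) (H : ℕ) : ∃ C : ℝ, 0 < C ∧
    ∀ Y : ℕ, 2 ≤ Y → ∀ y : ℕ, y ≤ Y → ∀ m₀ : ℕ, 1 ≤ m₀ → ∀ P : Finset ℕ,
      (∀ p ∈ P, p.Prime ∧ p ≤ Y) →
      ∑ T ∈ P.powerset.filter (fun T => ((m₀ * pd T : ℕ) : ℝ) ≤ (Y : ℝ) ^ θ),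
        ((H : ℝ) ^ #T) ^ 2 * mx y (m₀ * pd T) ≤ C * Y * (Real.log Y) ^ (H ^ 2) := by
  classical
  obtain ⟨C₁, hC₁, hC₁2⟩ := sum_gg
  refine ⟨2 * C₁ ^ (H ^ 2), by positivity, fun Y hY y hy m₀ hm₀ P hP => ?_⟩
  have hYr : (2 : ℝ) ≤ Y := by exact_mod_cast hY
  have h1 : ∀ T ∈ P.powerset.filter (fun T => ((m₀ * pd T : ℕ) : ℝ) ≤ (Y : ℝ) ^ θ),
      ((H : ℝ) ^ #T) ^ 2 * mx y (m₀ * pd T) ≤ 2 * Y * ∏ p ∈ T, ((H : ℝ) ^ 2 * gg p) := by
    intro T hT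
    have hTP := mem_powerset.1 (mem_filter.1 hT).1
    have hTp : ∀ p ∈ T, p.Prime := fun p hp => (hP p (hTP hp)).1
    have hpos := b3_pd_pos T hTp
    have hm : 0 < m₀ * pd T := Nat.mul_pos hm₀ hpos
    have hmY : ((m₀ * pd T : ℕ) : ℝ) ≤ Y := by
      refine (mem_filter.1 hT).2.trans ?_
      calc (Y : ℝ) ^ θ ≤ (Y : ℝ) ^ (1 : ℝ) :=
            Real.rpow_le_rpow_of_exponent_le (by linarith) hθ
        _ = Y := Real.rpow_one _
    have hφ0 : (0 : ℝ) < Nat.totient (m₀ * pd T) := by exact_mod_cast Nat.totient_pos.2 hm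
    have hφ1 : (Nat.totient (m₀ * pd T) : ℝ) ≤ Y := by
      refine le_trans ?_ hmY
      exact_mod_cast Nat.totient_le _
    have hφ2 : (0 : ℝ) < Nat.totient (pd T) := by exact_mod_cast Nat.totient_pos.2 hpos
    have hφ3 : (Nat.totient (pd T) : ℝ) ≤ Nat.totient (m₀ * pd T) := by
      have h2 : Nat.totient (pd T) ∣ Nat.totient (m₀ * pd T) :=
        Nat.totient_dvd_of_dvd (Dvd.intro_left _ rfl)
      exact_mod_cast Nat.le_of_dvd (Nat.totient_pos.2 hm) h2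
    have h3 : mx y (m₀ * pd T) ≤ 2 * Y * (Nat.totient (pd T) : ℝ)⁻¹ := by
      have h4 := mx_triv y (m₀ * pd T) hm
      have h5 : (y : ℝ) / Nat.totient (m₀ * pd T) ≤ Y / Nat.totient (m₀ * pd T) :=
        div_le_div_of_nonneg_right (by exact_mod_cast hy) hφ0.le
      have h6 : (1 : ℝ) ≤ Y / Nat.totient (m₀ * pd T) := by
        rw [le_div_iff₀ hφ0]
        linarith
      have h7 : (Y : ℝ) / Nat.totient (m₀ * pd T) ≤ Y / Nat.totient (pd T) :=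
        div_le_div_of_nonneg_left (by linarith) hφ2 hφ3
      have h7' : (Y : ℝ) / Nat.totient (pd T) = Y * (Nat.totient (pd T) : ℝ)⁻¹ := div_eq_mul_inv _ _
      linarith
    have h8 : ∏ p ∈ T, ((H : ℝ) ^ 2 * gg p) = ((H : ℝ) ^ #T) ^ 2 * ∏ p ∈ T, gg p := by
      rw [prod_mul_distrib, prod_const, ← pow_mul, ← pow_mul, mul_comm 2]
    rw [h8, ← b3_totient T hTp]
    calc ((H : ℝ) ^ #T) ^ 2 * mx y (m₀ * pd T)
        ≤ ((H : ℝ) ^ #T) ^ 2 * (2 * Y * (Nat.totient (pd T) : ℝ)⁻¹) :=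
          mul_le_mul_of_nonneg_left h3 (by positivity)
      _ = _ := by ring
  refine (sum_le_sum h1).trans ?_
  have h9 : ∀ T ∈ P.powerset, 0 ≤ 2 * (Y : ℝ) * ∏ p ∈ T, ((H : ℝ) ^ 2 * gg p) := by
    intro T hT
    refine mul_nonneg (by positivity) (prod_nonneg fun p hp => ?_)
    exact mul_nonneg (by positivity) (b3_gg_nn p (hP p (mem_powerset.1 hT hp)).1)
  refine (sum_le_sum_of_subset_of_nonneg (filter_subset _ _) fun T hT _ => h9 T hT).trans ?_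
  rw [← mul_sum]
  have h10 : ∑ T ∈ P.powerset, ∏ p ∈ T, ((H : ℝ) ^ 2 * gg p) = ∏ p ∈ P, (1 + (H : ℝ) ^ 2 * gg p) :=
    (prod_one_add (s := P) (f := fun p => (H : ℝ) ^ 2 * gg p)).symm
  have h11 : ∏ p ∈ P, (1 + (H : ℝ) ^ 2 * gg p) ≤ (Real.exp (∑ p ∈ P, gg p)) ^ (H ^ 2) := by
    rw [← Real.exp_nat_mul, mul_sum, Real.exp_sum]
    refine prod_le_prod (fun p hp => ?_) fun p hp => ?_
    · have := b3_gg_nn p (hP p hp).1
      positivity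
    · have h12 := Real.add_one_le_exp ((H : ℝ) ^ 2 * gg p)
      push_cast
      linarith
  have h13 : (Real.exp (∑ p ∈ P, gg p)) ^ (H ^ 2) ≤ (C₁ * Real.log Y) ^ (H ^ 2) :=
    pow_le_pow_left₀ (Real.exp_pos _).le (hC₁2 Y hY P hP) _
  rw [h10]
  calc 2 * (Y : ℝ) * ∏ p ∈ P, (1 + (H : ℝ) ^ 2 * gg p)
      ≤ 2 * (Y : ℝ) * (C₁ * Real.log Y) ^ (H ^ 2) :=
        mul_le_mul_of_nonneg_left (h11.trans h13) (by positivity)
    _ = 2 * C₁ ^ (H ^ 2) * Y * (Real.log Y) ^ (H ^ 2) := by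
        rw [mul_pow]
        ring

theorem wt (θ : ℝ) (hθ : θ ≤ 1) (h : LD θ) (H A : ℕ) : ∃ C : ℝ, 0 < C ∧
    ∀ Y : ℕ, 2 ≤ Y → ∀ y : ℕ, y ≤ Y → ∀ m₀ : ℕ, 1 ≤ m₀ → ∀ P : Finset ℕ,
      (∀ p ∈ P, p.Prime ∧ p ≤ Y) →
      ∑ T ∈ P.powerset.filter (fun T => ((m₀ * pd T : ℕ) : ℝ) ≤ (Y : ℝ) ^ θ),
        (H : ℝ) ^ #T * mx y (m₀ * pd T) ≤ C * Y / (Real.log Y) ^ A := by
  obtain ⟨C', hC', h1⟩ := b3_sum θ h (2 * A + H ^ 2)
  obtain ⟨C₂, hC₂, h2⟩ := b3_sum2 θ hθ H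
  refine ⟨C₂ * C' + 1, by positivity, fun Y hY y hy m₀ hm₀ P hP => ?_⟩
  have h3 := h1 Y hY y hy m₀ hm₀ P hP
  have h4 := h2 Y hY y hy m₀ hm₀ P hP
  have hYr : (2 : ℝ) ≤ Y := by exact_mod_cast hY
  have hlog : 0 < Real.log Y := Real.log_pos (by linarith)
  set 𝓕 := P.powerset.filter (fun T => ((m₀ * pd T : ℕ) : ℝ) ≤ (Y : ℝ) ^ θ) with h𝓕
  have hcs := Finset.sum_sq_le_sum_mul_sum_of_sq_le_mul 𝓕
    (r := fun T => (H : ℝ) ^ #T * mx y (m₀ * pd T))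
    (f := fun T => ((H : ℝ) ^ #T) ^ 2 * mx y (m₀ * pd T)) (g := fun T => mx y (m₀ * pd T))
    (fun T _ => mul_nonneg (by positivity) (mx_nn _ _)) (fun T _ => mx_nn _ _)
    (fun T _ => le_of_eq (by ring))
  have hS0 : 0 ≤ ∑ T ∈ 𝓕, mx y (m₀ * pd T) := sum_nonneg fun T _ => mx_nn _ _
  have h5 : (∑ T ∈ 𝓕, (H : ℝ) ^ #T * mx y (m₀ * pd T)) ^ 2 ≤
      ((C₂ * C' + 1) * Y / (Real.log Y) ^ A) ^ 2 := by
    refine hcs.trans ((mul_le_mul h4 h3 hS0 (by positivity)).trans ?_)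
    have h6 : C₂ * Y * (Real.log Y) ^ (H ^ 2) * (C' * Y / (Real.log Y) ^ (2 * A + H ^ 2)) =
        (C₂ * C') * ((Y : ℝ) / (Real.log Y) ^ A) ^ 2 := by
      rw [pow_add]
      field_simp
      ring
    have h7 : ((C₂ * C' + 1) * Y / (Real.log Y) ^ A) ^ 2 =
        (C₂ * C' + 1) ^ 2 * ((Y : ℝ) / (Real.log Y) ^ A) ^ 2 := by ring
    rw [h6, h7]
    refine mul_le_mul_of_nonneg_right ?_ (by positivity)
    have h8 : 0 < C₂ * C' := by positivity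
    nlinarith
  exact le_of_sq_le_sq h5 (by positivity)

end Pool.Agent.Work.MP_70e905_nt.MT
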