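import Mathlib
import Pool.Agent.Work.MP_70e905_nt.MT.A3

set_option autoImplicit false

/-!
MODULE B1 (primes among the values of the form i, with divisibility conditions), size M.
The map z ↦ q = a i * z + b i is injective and maps (x, 2x] into (a i x + b i, 2 a i x + b i]. For these q:
z ≡ v mod W iff q ≡ a i v + b i mod a i W. For (p, j) ∈ B (p divides neither W nor any a l, by haW): p ∣ a j z + b j
iff p ∣ a i (a j z + b j) iff a j q ≡ a j b i - a i b j mod p, one class modulo p, which is not 0 by hBi. By the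
Chinese remainder theorem (a i W and the different primes of B are pairwise coprime) all conditions together
are q ≡ c mod m, m = a i W pr B, and gcd(c, m) = 1: gcd(a i v + b i, W) = 1 and every prime factor of a i divides
W, so gcd(c, a i W) = 1. Conversely a prime q ≡ c mod m in the interval has a i ∣ q - b i (q ≥ b i), so
q = a i z + b i with z ∈ (x, 2x] satisfying the conditions. Count: the primes in (y', y] in a class are
pic y m c - pic y' m c.
-/

namespace Pool.Agent.Work.MP_70e905_nt.MT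

open Finset Pool.Agent.Work.MP_73869e_nt.TH

private theorem B1_pic (y₁ y₂ m c : ℕ) (h : y₁ ≤ y₂) :
    (pic y₂ m c : ℝ) - pic y₁ m c = #((Ioc y₁ y₂).filter (fun p => p.Prime ∧ p % m = c % m)) := by
  unfold pic
  have h1 : Icc 1 y₂ = Icc 1 y₁ ∪ Ioc y₁ y₂ := by
    ext p
    simp only [mem_union, mem_Icc, mem_Ioc]
    omega
  have h2 : Disjoint ((Icc 1 y₁).filter (fun p => p.Prime ∧ p % m = c % m))
      ((Ioc y₁ y₂).filter (fun p => p.Prime ∧ p % m = c % m)) := by
    rw [disjoint_left]
    intro p hp hp'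
    have h3 := (mem_Icc.1 (mem_filter.1 hp).1).2
    have h4 := (mem_Ioc.1 (mem_filter.1 hp').1).1
    omega
  rw [h1, filter_union, card_union_of_disjoint h2]
  push_cast
  ring

theorem prime_class {K : ℕ} (x W v : ℕ) (hW : 0 < W) (P : Finset ℕ) (a b : Fin K → ℕ) (i : Fin K)
    (ha : 1 ≤ a i) (haW : ∀ j, ∀ p : ℕ, p.Prime → p ∣ a j → p ∣ W)
    (hcop : Nat.Coprime (a i * v + b i) W) (hP : ∀ p ∈ P, p.Prime ∧ ¬ p ∣ W)
    (B : Finset (ℕ × Fin K)) (hB : B ∈ LS K P)
    (hBi : ∀ c ∈ B, ¬ a i * b c.2 ≡ a c.2 * b i [MOD c.1]) :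
    ∃ c : ℕ, Nat.Coprime c (a i * W * pr B) ∧
      (#((Ioc x (2 * x)).filter (fun z => (z % W = v % W ∧ (a i * z + b i).Prime) ∧
        B ⊆ om P a b z)) : ℝ) =
      (pic (a i * (2 * x) + b i) (a i * W * pr B) c : ℝ) - pic (a i * x + b i) (a i * W * pr B) c := by
  obtain ⟨r, hr⟩ := A3_class W v P a b
    (fun p hp => ⟨(hP p hp).1, (hP p hp).2, fun j hj => (hP p hp).2 (haW j p (hP p hp).1 hj)⟩) B hB
  have hrr := (hr r).2 (Nat.ModEq.refl r)
  have hB1 := mem_LS.1 hB
  refine ⟨a i * r + b i, ?_, ?_⟩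
  · apply Nat.Coprime.symm
    apply Nat.Coprime.symm
    rw [Nat.coprime_iff_gcd_eq_one]
    by_contra hne
    obtain ⟨p, hp, hpd⟩ := Nat.exists_prime_and_dvd hne
    have hp1 : p ∣ a i * r + b i := hpd.trans (Nat.gcd_dvd_left _ _)
    have hp2 : p ∣ a i * W * pr B := hpd.trans (Nat.gcd_dvd_right _ _)
    have hpW : p ∣ W → False := by
      intro hpW
      have h1 : a i * r + b i ≡ a i * v + b i [MOD W] :=
        Nat.ModEq.add_right _ (Nat.ModEq.mul_left _ hrr.1)
      have h2 : a i * r + b i ≡ a i * v + b i [MOD p] := Nat.ModEq.of_dvd hpW h1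
      have h3 : p ∣ a i * v + b i := (Nat.modEq_zero_iff_dvd.1 (h2.symm.trans
        (Nat.modEq_zero_iff_dvd.2 hp1)))
      have h4 := Nat.dvd_gcd h3 hpW
      rw [Nat.Coprime] at hcop
      rw [hcop] at h4
      exact hp.one_lt.ne' (Nat.dvd_one.1 h4)
    rcases (Nat.Prime.dvd_mul hp).1 hp2 with h1 | h1
    · rcases (Nat.Prime.dvd_mul hp).1 h1 with h2 | h2
      · exact hpW (haW i p hp h2)
      · exact hpW h2
    · unfold pr at h1
      obtain ⟨c, hc, hcp⟩ := (Prime.dvd_finsetProd_iff hp.prime _).1 h1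
      have hcp' : p = c.1 := (Nat.prime_dvd_prime_iff_eq hp (hP c.1 (hB1.1 c hc)).1).1 hcp
      have h3 : c.1 ∣ a c.2 * r + b c.2 := (sub_om P a b r B hB1.1).1 hrr.2 c hc
      rw [hcp'] at hp1
      apply hBi c hc
      have e1 : c.1 ∣ a c.2 * (a i * r + b i) := Dvd.dvd.mul_left hp1 _
      have e2 : c.1 ∣ a i * (a c.2 * r + b c.2) := Dvd.dvd.mul_left h3 _
      have e3 : a i * (a c.2 * r + b c.2) ≡ a c.2 * (a i * r + b i) [MOD c.1] :=
        ((Nat.modEq_zero_iff_dvd.2 e2).trans (Nat.modEq_zero_iff_dvd.2 e1).symm)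
      have e5 : a i * (a c.2 * r + b c.2) = a i * a c.2 * r + a i * b c.2 := by ring
      have e6 : a c.2 * (a i * r + b i) = a i * a c.2 * r + a c.2 * b i := by ring
      rw [e5, e6] at e3
      exact Nat.ModEq.add_left_cancel' _ e3
  · have hle : a i * x + b i ≤ a i * (2 * x) + b i := by
      apply Nat.add_le_add_right
      exact Nat.mul_le_mul_left _ (by omega)
    rw [B1_pic _ _ _ _ hle]
    have hmod : ∀ z : ℕ, (z ≡ r [MOD W * pr B]) ↔
        a i * z + b i ≡ a i * r + b i [MOD a i * W * pr B] := by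
      intro z
      have e1 : a i * W * pr B = a i * (W * pr B) := by ring
      rw [e1]
      constructor
      · intro h
        exact Nat.ModEq.add_right _ (Nat.ModEq.mul_left' _ h)
      · intro h
        exact Nat.ModEq.mul_left_cancel' (by omega) (Nat.ModEq.add_right_cancel' _ h)
    have himg : ((Ioc (a i * x + b i) (a i * (2 * x) + b i)).filter
        (fun p => p.Prime ∧ p % (a i * W * pr B) = (a i * r + b i) % (a i * W * pr B))) =
        ((Ioc x (2 * x)).filter (fun z => (z % W = v % W ∧ (a i * z + b i).Prime) ∧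
        B ⊆ om P a b z)).image (fun z => a i * z + b i) := by
      ext p
      rw [mem_image]
      constructor
      · intro hp
        obtain ⟨hp1, hp2, hp3⟩ := mem_filter.1 hp
        have hp4 := mem_Ioc.1 hp1
        have hb : b i ≤ p := by omega
        have hd : a i ∣ p - b i := by
          have h1 : p ≡ a i * r + b i [MOD a i * W * pr B] := hp3
          have h2 : p ≡ a i * r + b i [MOD a i] :=
            Nat.ModEq.of_dvd ⟨W * pr B, by ring⟩ h1
          have h3 : p ≡ b i [MOD a i] := by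
            refine h2.trans ?_
            have : a i * r ≡ 0 [MOD a i] := Nat.modEq_zero_iff_dvd.2 ⟨r, rfl⟩
            have h4 := Nat.ModEq.add_right (b i) this
            rwa [zero_add] at h4
          exact (Nat.modEq_iff_dvd' hb).1 h3.symm
        obtain ⟨z, hz⟩ := hd
        have hpz : p = a i * z + b i := by omega
        refine ⟨z, ?_, hpz.symm⟩
        rw [mem_filter, mem_Ioc]
        have hz1 : (z % W = v % W ∧ B ⊆ om P a b z) := by
          rw [hr z, hmod z, ← hpz]
          exact hp3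
        refine ⟨⟨?_, ?_⟩, ⟨hz1.1, hpz ▸ hp2⟩, hz1.2⟩
        · have h1 : a i * x < a i * z := by omega
          exact Nat.lt_of_mul_lt_mul_left h1
        · have h1 : a i * z ≤ a i * (2 * x) := by omega
          exact Nat.le_of_mul_le_mul_left h1 (by omega)
      · rintro ⟨z, hz, rfl⟩
        obtain ⟨hz1, ⟨hz2, hz3⟩, hz4⟩ := mem_filter.1 hz
        rw [mem_filter, mem_Ioc]
        have hz5 := mem_Ioc.1 hz1
        refine ⟨⟨?_, ?_⟩, hz3, (hmod z).1 ((hr z).1 ⟨hz2, hz4⟩)⟩
        · have h1 : a i * x < a i * z := Nat.mul_lt_mul_of_pos_left hz5.1 (by omega)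
          omega
        · have h1 : a i * z ≤ a i * (2 * x) := Nat.mul_le_mul_left _ hz5.2
          omega
    rw [himg, card_image_of_injective]
    intro z w hzw
    have h1 : a i * z = a i * w := by
      simpa using hzw
    exact Nat.eq_of_mul_eq_mul_left (by omega) h1

end Pool.Agent.Work.MP_70e905_nt.MT
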