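import Mathlib
import Pool.Agent.Work.MP_70e905_nt.MT.Defs
import Pool.Agent.Work.MP_73869e_nt.TH.T01

set_option autoImplicit false

/-!
MODULE B4 (multiplicities), size M.
pairs_le: induction on P with sum_LS_insert (TH/T01), for all F ≥ 0: for p not in P the pairs (B, B') of
LS K (insert p P) with Lab (B ∪ B') come from the pairs of LS K P in the following ways: p in neither (1 way),
p only in B (K labels), only in B' (K labels), in both with the same label (K labels; two different labels
contradict Lab). In the last 3 K cases the set of primes is insert p T. Use the induction hypothesis for F and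
for F (insert p .). (It is an equality.)
triple_le: for fixed E ∈ LS K P₀ the primes of E ∪ (B ∪ B') are the union of those of E and of B ∪ B'; apply
pairs_le with F' T = F (T₀ ∪ T), and sum over E: the E ∈ LS K P₀ with set of primes T₀ ⊆ P₀ are K^#T₀ many
(the case B' = ∅, or induction again); K^#T₀ ≤ (3 K)^#T₀, and (T₀, T) ↦ T₀ ∪ T is a bijection from
P₀.powerset × P.powerset to (P ∪ P₀).powerset with #(T₀ ∪ T) = #T₀ + #T since P, P₀ are disjoint.
-/

namespace Pool.Agent.Work.MP_70e905_nt.MT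

open Finset Pool.Agent.Work.MP_73869e_nt.TH

private theorem b4_lab_insert {K : ℕ} {P : Finset ℕ} {p : ℕ} (hp : p ∉ P)
    (A : Finset (ℕ × Fin K)) (hA : ∀ a ∈ A, a.1 ∈ P) (i : Fin K) :
    Lab (insert (p, i) A) ↔ Lab A := by
  constructor
  · intro h a ha b hb hab
    exact h a (mem_insert_of_mem ha) b (mem_insert_of_mem hb) hab
  · intro h a ha b hb hab
    rcases mem_insert.1 ha with rfl | ha'
    · rcases mem_insert.1 hb with rfl | hb'
      · rfl
      · have h1 : p = b.1 := hab
        exact absurd (h1 ▸ hA b hb') hp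
    · rcases mem_insert.1 hb with rfl | hb'
      · have h1 : a.1 = p := hab
        exact absurd (h1 ▸ hA a ha') hp
      · exact h a ha' b hb' hab

private theorem b4_empty {K : ℕ} : LS K (∅ : Finset ℕ) = {∅} := by
  ext A
  rw [mem_LS, mem_singleton]
  constructor
  · rintro ⟨h1, -⟩
    rw [Finset.eq_empty_iff_forall_notMem]
    intro a ha
    exact absurd (h1 a ha) (Finset.notMem_empty _)
  · rintro rfl
    exact ⟨fun a ha => absurd ha (Finset.notMem_empty _), fun a ha => absurd ha
      (Finset.notMem_empty _)⟩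

/-- the summand of `pairs_le` -/
private noncomputable def b4_G {K : ℕ} (F : Finset ℕ → ℝ) (B B' : Finset (ℕ × Fin K)) : ℝ :=
  if Lab (B ∪ B') then F ((B ∪ B').image Prod.fst) else 0

private theorem b4_step {K : ℕ} {P : Finset ℕ} {p : ℕ} (hp : p ∉ P) (F : Finset ℕ → ℝ)
    (A : Finset (ℕ × Fin K)) (hA : ∀ a ∈ A, a.1 ∈ P) (i : Fin K) :
    (if Lab (insert (p, i) A) then F ((insert (p, i) A).image Prod.fst) else 0) =
      (if Lab A then F (insert p (A.image Prod.fst)) else 0) := by
  rw [image_insert]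
  by_cases h : Lab A
  · rw [if_pos h, if_pos ((b4_lab_insert hp A hA i).2 h)]
  · rw [if_neg h, if_neg (fun h' => h ((b4_lab_insert hp A hA i).1 h'))]

theorem pairs_le {K : ℕ} (P : Finset ℕ) (F : Finset ℕ → ℝ) (hF : ∀ S, 0 ≤ F S) :
    ∑ B ∈ LS K P, ∑ B' ∈ LS K P, (if Lab (B ∪ B') then F ((B ∪ B').image Prod.fst) else 0) ≤
      ∑ T ∈ P.powerset, (3 * K : ℝ) ^ #T * F T := by
  classical
  show ∑ B ∈ LS K P, ∑ B' ∈ LS K P, b4_G F B B' ≤ _
  induction P using Finset.induction_on generalizing F with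
  | empty =>
    rw [b4_empty]
    unfold b4_G
    rw [sum_singleton, sum_singleton]
    have h1 : Lab ((∅ : Finset (ℕ × Fin K)) ∪ ∅) := by
      intro a ha
      simp at ha
    rw [if_pos h1]
    simp
  | insert p P hp ih =>
    have h1 := ih F hF
    have h2 := ih (fun S => F (insert p S)) (fun S => hF _)
    have hBi : ∀ B ∈ LS K P, ∀ B' ∈ LS K P, ∀ a ∈ B ∪ B', a.1 ∈ P := by
      intro B hB B' hB' a ha
      rcases mem_union.1 ha with h | h
      · exact (mem_LS.1 hB).1 a h
      · exact (mem_LS.1 hB').1 a h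
    have e1 : ∀ B ∈ LS K P, ∀ B' ∈ LS K P, ∀ i : Fin K,
        b4_G F B (insert (p, i) B') = b4_G (fun S => F (insert p S)) B B' := by
      intro B hB B' hB' i
      unfold b4_G
      rw [union_insert]
      exact b4_step hp F (B ∪ B') (hBi B hB B' hB') i
    have e2 : ∀ B ∈ LS K P, ∀ B' ∈ LS K P, ∀ i : Fin K,
        b4_G F (insert (p, i) B) B' = b4_G (fun S => F (insert p S)) B B' := by
      intro B hB B' hB' i
      unfold b4_G
      rw [insert_union]
      exact b4_step hp F (B ∪ B') (hBi B hB B' hB') i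
    have e3 : ∀ B ∈ LS K P, ∀ B' ∈ LS K P, ∀ i j : Fin K,
        b4_G F (insert (p, i) B) (insert (p, j) B') =
          if j = i then b4_G (fun S => F (insert p S)) B B' else 0 := by
      intro B hB B' hB' i j
      by_cases hij : j = i
      · rw [if_pos hij, hij]
        unfold b4_G
        rw [insert_union, union_insert, insert_idem]
        exact b4_step hp F (B ∪ B') (hBi B hB B' hB') i
      · rw [if_neg hij]
        unfold b4_G
        rw [if_neg]
        intro h
        have h3 := h (p, i) (mem_union_left _ (mem_insert_self _ _)) (p, j)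
          (mem_union_right _ (mem_insert_self _ _)) rfl
        exact hij (congrArg Prod.snd h3).symm
    have h3 : ∑ B ∈ LS K (insert p P), ∑ B' ∈ LS K (insert p P), b4_G F B B' =
        ∑ B ∈ LS K P, ∑ B' ∈ LS K P, b4_G F B B' +
          3 * K * ∑ B ∈ LS K P, ∑ B' ∈ LS K P, b4_G (fun S => F (insert p S)) B B' := by
      rw [sum_LS_insert P p hp, mul_sum, ← sum_add_distrib]
      refine sum_congr rfl fun B hB => ?_
      rw [sum_LS_insert P p hp]
      have h4 : ∀ i : Fin K, ∑ B' ∈ LS K (insert p P), b4_G F (insert (p, i) B) B' =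
          2 * ∑ B' ∈ LS K P, b4_G (fun S => F (insert p S)) B B' := by
        intro i
        rw [sum_LS_insert P p hp, mul_sum]
        refine sum_congr rfl fun B' hB' => ?_
        rw [e2 B hB B' hB' i]
        have h5 : ∑ j : Fin K, b4_G F (insert (p, i) B) (insert (p, j) B') =
            b4_G (fun S => F (insert p S)) B B' := by
          rw [sum_congr rfl fun j _ => e3 B hB B' hB' i j, sum_ite_eq' univ i,
            if_pos (mem_univ _)]
        rw [h5]
        ring
      rw [sum_congr rfl fun i _ => h4 i, sum_const, card_univ, Fintype.card_fin, nsmul_eq_mul,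
        sum_add_distrib]
      have h6 : ∑ B' ∈ LS K P, ∑ i : Fin K, b4_G F B (insert (p, i) B') =
          K * ∑ B' ∈ LS K P, b4_G (fun S => F (insert p S)) B B' := by
        rw [mul_sum]
        refine sum_congr rfl fun B' hB' => ?_
        rw [sum_congr rfl fun i _ => e1 B hB B' hB' i, sum_const, card_univ, Fintype.card_fin,
          nsmul_eq_mul]
      rw [h6]
      ring
    rw [h3, sum_powerset_insert hp]
    have h7 : ∑ T ∈ P.powerset, (3 * K : ℝ) ^ #(insert p T) * F (insert p T) =
        3 * K * ∑ T ∈ P.powerset, (3 * K : ℝ) ^ #T * F (insert p T) := by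
      rw [mul_sum]
      refine sum_congr rfl fun T hT => ?_
      have h8 : p ∉ T := fun h => hp (mem_powerset.1 hT h)
      rw [card_insert_of_notMem h8, pow_succ]
      ring
    rw [h7]
    exact add_le_add h1 (mul_le_mul_of_nonneg_left h2 (by positivity))

private theorem b4_single {K : ℕ} (P : Finset ℕ) (F : Finset ℕ → ℝ) (hF : ∀ S, 0 ≤ F S) :
    ∑ E ∈ LS K P, F (E.image Prod.fst) ≤ ∑ T ∈ P.powerset, (3 * K : ℝ) ^ #T * F T := by
  refine le_trans ?_ (pairs_le P F hF)
  refine sum_le_sum fun E hE => ?_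
  have h0 : (∅ : Finset (ℕ × Fin K)) ∈ LS K P := by
    rw [mem_LS]
    exact ⟨fun a ha => absurd ha (notMem_empty _), fun a ha => absurd ha (notMem_empty _)⟩
  have h1 := single_le_sum (f := fun B' : Finset (ℕ × Fin K) =>
    (if Lab (E ∪ B') then F ((E ∪ B').image Prod.fst) else 0))
    (fun B' _ => by
      show (0 : ℝ) ≤ if Lab (E ∪ B') then F ((E ∪ B').image Prod.fst) else 0
      split_ifs
      · exact hF _
      · exact le_rfl) h0
  refine le_trans (le_of_eq ?_) h1
  show F (E.image Prod.fst) = if Lab (E ∪ ∅) then F ((E ∪ ∅).image Prod.fst) else 0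
  rw [union_empty, if_pos (mem_LS.1 hE).2]

theorem triple_le {K : ℕ} (P P₀ : Finset ℕ) (hdis : Disjoint P P₀) (F : Finset ℕ → ℝ)
    (hF : ∀ S, 0 ≤ F S) :
    ∑ E ∈ LS K P₀, ∑ B ∈ LS K P, ∑ B' ∈ LS K P,
      (if Lab (B ∪ B') then F ((E ∪ (B ∪ B')).image Prod.fst) else 0) ≤
      ∑ T ∈ (P ∪ P₀).powerset, (3 * K : ℝ) ^ #T * F T := by
  classical
  have h1 : ∀ E ∈ LS K P₀, ∑ B ∈ LS K P, ∑ B' ∈ LS K P,
      (if Lab (B ∪ B') then F ((E ∪ (B ∪ B')).image Prod.fst) else 0) ≤
      ∑ T ∈ P.powerset, (3 * K : ℝ) ^ #T * F (E.image Prod.fst ∪ T) := by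
    intro E _
    refine le_trans (le_of_eq ?_) (pairs_le P (fun S => F (E.image Prod.fst ∪ S)) fun S => hF _)
    refine sum_congr rfl fun B _ => sum_congr rfl fun B' _ => ?_
    rw [image_union]
  have h2 := b4_single (K := K) P₀
    (fun T₀ => ∑ T ∈ P.powerset, (3 * K : ℝ) ^ #T * F (T₀ ∪ T))
    (fun T₀ => sum_nonneg fun T _ => mul_nonneg (by positivity) (hF _))
  refine (sum_le_sum h1).trans (h2.trans (le_of_eq ?_))
  have h3 : ∑ T₀ ∈ P₀.powerset, (3 * K : ℝ) ^ #T₀ *
      ∑ T ∈ P.powerset, (3 * K : ℝ) ^ #T * F (T₀ ∪ T) =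
      ∑ q ∈ P₀.powerset ×ˢ P.powerset, (3 * K : ℝ) ^ #q.1 * ((3 * K : ℝ) ^ #q.2 * F (q.1 ∪ q.2)) := by
    rw [sum_product]
    exact sum_congr rfl fun T₀ _ => mul_sum _ _ _
  rw [h3]
  refine sum_nbij' (fun q => q.1 ∪ q.2) (fun S => (S ∩ P₀, S ∩ P)) ?_ ?_ ?_ ?_ ?_
  · intro q hq
    rw [mem_product, mem_powerset, mem_powerset] at hq
    rw [mem_powerset]
    intro x hx
    rcases mem_union.1 hx with h | h
    · exact mem_union_right _ (hq.1 h)
    · exact mem_union_left _ (hq.2 h)
  · intro S _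
    rw [mem_product, mem_powerset, mem_powerset]
    exact ⟨inter_subset_right, inter_subset_right⟩
  · intro q hq
    rw [mem_product, mem_powerset, mem_powerset] at hq
    have h4 := Finset.disjoint_left.1 hdis
    refine Prod.ext ?_ ?_
    · ext x
      show x ∈ (q.1 ∪ q.2) ∩ P₀ ↔ x ∈ q.1
      rw [mem_inter, mem_union]
      constructor
      · rintro ⟨h | h, h'⟩
        · exact h
        · exact absurd h' (h4 (hq.2 h))
      · intro h
        exact ⟨Or.inl h, hq.1 h⟩
    · ext x
      show x ∈ (q.1 ∪ q.2) ∩ P ↔ x ∈ q.2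
      rw [mem_inter, mem_union]
      constructor
      · rintro ⟨h | h, h'⟩
        · exact absurd (hq.1 h) (h4 h')
        · exact h
      · intro h
        exact ⟨Or.inr h, hq.2 h⟩
  · intro S hS
    rw [mem_powerset] at hS
    ext x
    show x ∈ (S ∩ P₀) ∪ (S ∩ P) ↔ x ∈ S
    rw [mem_union, mem_inter, mem_inter]
    constructor
    · rintro (h | h)
      · exact h.1
      · exact h.1
    · intro h
      rcases mem_union.1 (hS h) with h' | h'
      · exact Or.inr ⟨h, h'⟩
      · exact Or.inl ⟨h, h'⟩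
  · intro q hq
    rw [mem_product, mem_powerset, mem_powerset] at hq
    have h5 : Disjoint q.1 q.2 := by
      rw [Finset.disjoint_left]
      intro x hx hx'
      exact Finset.disjoint_left.1 hdis (hq.2 hx') (hq.1 hx)
    show (3 * K : ℝ) ^ #q.1 * ((3 * K : ℝ) ^ #q.2 * F (q.1 ∪ q.2)) =
      (3 * K : ℝ) ^ #(q.1 ∪ q.2) * F (q.1 ∪ q.2)
    rw [card_union_of_disjoint h5, pow_add]
    ring

end Pool.Agent.Work.MP_70e905_nt.MT
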