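import Mathlib
import Pool.Agent.Work.MP_70e905_nt.MT.A6

set_option autoImplicit false

/-!
MODULE C1 (removing primes from U1), size S-M.
U1_sdiff: with E' = E ∩ P, every S ⊆ P is V ∪ U, V ⊆ E', U ⊆ P \ E, HH S = HH V HH U, yy (pd S) ≤ yy (pd U)
(yy_anti, pd U ≤ pd S), so U1 P ≤ (sum over V ⊆ E' of HH V) U1 (P \ E) = prod over E' of (1 + gg p) * U1 (P \ E),
1 + gg p = p / (p - 1) = (1 - 1/p)⁻¹; rt E ≤ rt E' since all factors are in [0, 1] (also for p = 0, 1).
Use Finset.prod_one_add / Finset.prod_add for the sum of HH V (MP_73869e_nt/TH/T12.lean has t12_sum_powerset).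
U_mono: subset sums.
-/

namespace Pool.Agent.Work.MP_70e905_nt.MT

open Finset Pool.Agent.Work.MP_73869e_nt.TH

private theorem c1_fac (p : ℕ) : 0 ≤ 1 - 1 / (p : ℝ) ∧ 1 - 1 / (p : ℝ) ≤ 1 := by
  rcases Nat.eq_zero_or_pos p with h | h
  · subst h
    simp
  · have h1 : (1 : ℝ) ≤ p := by exact_mod_cast h
    have h2 : 1 / (p : ℝ) ≤ 1 := by
      rw [div_le_one (by linarith)]
      exact h1
    have h3 : 0 ≤ 1 / (p : ℝ) := by positivity
    constructor <;> linarith

private theorem c1_gg {p : ℕ} (hp : p.Prime) : 0 ≤ gg p := by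
  unfold gg
  have : (2 : ℝ) ≤ p := by exact_mod_cast hp.two_le
  apply div_nonneg zero_le_one
  linarith

private theorem c1_HH {S : Finset ℕ} (h : ∀ p ∈ S, p.Prime) : 0 ≤ HH S :=
  Finset.prod_nonneg fun p hp => c1_gg (h p hp)

private theorem c1_U1_nn (P : Finset ℕ) (hP : ∀ p ∈ P, p.Prime) (x L : ℕ) (t₀ : ℝ) :
    0 ≤ U1 P x L t₀ := by
  unfold U1
  exact Finset.sum_nonneg fun S hS => mul_nonneg
    (c1_HH fun p hp => hP p (mem_powerset.1 hS hp)) (yy_bd x L t₀ _).1

private theorem c1_one (P : Finset ℕ) (e : ℕ) (hP : ∀ p ∈ P, p.Prime) (x L : ℕ) (t₀ : ℝ) :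
    (1 - 1 / (e : ℝ)) * U1 P x L t₀ ≤ U1 (P.erase e) x L t₀ := by
  by_cases he : e ∈ P
  · have hpr := hP e he
    have h2 : (2 : ℝ) ≤ e := by exact_mod_cast hpr.two_le
    have hne : e ∉ P.erase e := notMem_erase e P
    have h3 : U1 P x L t₀ ≤ (1 + gg e) * U1 (P.erase e) x L t₀ := by
      conv_lhs => rw [← insert_erase he]
      unfold U1
      rw [Finset.sum_powerset_insert hne, add_mul, one_mul, Finset.mul_sum]
      refine add_le_add le_rfl (Finset.sum_le_sum fun S hS => ?_)
      have heS : e ∉ S := fun h => hne (mem_powerset.1 hS h)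
      have h4 : HH (insert e S) = gg e * HH S := by
        unfold HH
        rw [Finset.prod_insert heS]
      have h5 : pd S ≤ pd (insert e S) := by
        unfold pd
        rw [Finset.prod_insert heS]
        exact Nat.le_mul_of_pos_left _ hpr.pos
      rw [h4, mul_assoc]
      refine mul_le_mul_of_nonneg_left ?_ (c1_gg hpr)
      refine mul_le_mul_of_nonneg_left (yy_anti x L t₀ _ _ h5) ?_
      exact c1_HH fun p hp => hP p (mem_of_mem_erase (mem_powerset.1 hS hp))
    calc (1 - 1 / (e : ℝ)) * U1 P x L t₀ ≤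
        (1 - 1 / (e : ℝ)) * ((1 + gg e) * U1 (P.erase e) x L t₀) :=
          mul_le_mul_of_nonneg_left h3 (c1_fac e).1
      _ = U1 (P.erase e) x L t₀ := by
          have h6 : (1 - 1 / (e : ℝ)) * (1 + gg e) = 1 := by
            unfold gg
            have h7 : (e : ℝ) - 1 ≠ 0 := by
              intro h
              linarith
            have h8 : (e : ℝ) ≠ 0 := by
              intro h
              linarith
            field_simp
            ring
          rw [← mul_assoc, h6, one_mul]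
  · rw [erase_eq_of_notMem he]
    have h1 := c1_U1_nn P hP x L t₀
    have h2 := (c1_fac e).2
    nlinarith

theorem U1_sdiff (P E : Finset ℕ) (hP : ∀ p ∈ P, p.Prime) (x L : ℕ) (t₀ : ℝ) :
    rt E * U1 P x L t₀ ≤ U1 (P \ E) x L t₀ := by
  induction E using Finset.induction_on with
  | empty =>
    unfold rt
    rw [Finset.prod_empty, one_mul, sdiff_empty]
  | insert e E he ih =>
    have h1 : rt (insert e E) = (1 - 1 / (e : ℝ)) * rt E := by
      unfold rt
      rw [Finset.prod_insert he]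
    have h2 : P \ insert e E = (P \ E).erase e := by
      ext y
      simp only [mem_sdiff, mem_insert, mem_erase]
      tauto
    rw [h1, h2, mul_assoc]
    refine (mul_le_mul_of_nonneg_left ih (c1_fac e).1).trans ?_
    exact c1_one (P \ E) e (fun p hp => hP p (mem_sdiff.1 hp).1) x L t₀

theorem U_mono (P P' : Finset ℕ) (h : P ⊆ P') (hP : ∀ p ∈ P', p.Prime) (x L : ℕ) (t₀ : ℝ) :
    U1 P x L t₀ ≤ U1 P' x L t₀ ∧ U2 P x L t₀ ≤ U2 P' x L t₀ := by
  unfold U1 U2
  constructor
  · refine Finset.sum_le_sum_of_subset_of_nonneg (powerset_mono.2 h) fun S hS _ => ?_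
    exact mul_nonneg (c1_HH fun p hp => hP p (mem_powerset.1 hS hp)) (yy_bd x L t₀ _).1
  · refine Finset.sum_le_sum_of_subset_of_nonneg (powerset_mono.2 h) fun S hS _ => ?_
    exact mul_nonneg (c1_HH fun p hp => hP p (mem_powerset.1 hS hp)) (by positivity)

theorem rt_01 (E : Finset ℕ) : 0 ≤ rt E ∧ rt E ≤ 1 := by
  unfold rt
  exact ⟨Finset.prod_nonneg fun p _ => (c1_fac p).1,
    Finset.prod_le_one (fun p _ => (c1_fac p).1) fun p _ => (c1_fac p).2⟩

theorem rt_anti (E E' : Finset ℕ) (h : E ⊆ E') : rt E' ≤ rt E := by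
  have h1 : rt E' = rt (E' \ E) * rt E := by
    unfold rt
    rw [Finset.prod_sdiff h]
  rw [h1]
  have h2 := rt_01 (E' \ E)
  have h3 := rt_01 E
  nlinarith

end Pool.Agent.Work.MP_70e905_nt.MT
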