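import Mathlib
import Pool.Agent.Work.MP_70e905_nt.MT.C1
import Pool.Agent.Work.MP_73869e_nt.TH.T06

set_option autoImplicit false

/-!
MODULE C2 (the coefficients with one or two labels summed), size M.
Zj gg P i Y A = sum over U ⊆ P \ A.image fst of (prod over U of gg) * Y (A ∪ U.image (·, i)) if A has no label i.
For A without label i and U disjoint from the primes of A: lb i (A ∪ U.image (·, i)) = U, lb l (...) = lb l A for
l ≠ i, pr (...) = pr A * pd U (mem_lb of TH/T06).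
Zj_geU: keep only U with pd U ≤ x^(δ/2): then pr A pd U ≤ x^δ and YY = yy (pd U) * prod over l ≠ i of
yy (pd (lb l A)). For pd U > x^(δ/2) ≥ x^(2^l t₀) (all l < L) yy (pd U) = 0 (x ≥ 2), so the sum of HH U yy (pd U)
over the kept U is U1 (P \ A.image fst) ≥ rt (A.image fst) * U1 P (U1_sdiff).
Zj_leU: YY ≤ yy (pd U) prod over l ≠ i; sum over all U ⊆ P \ A.image fst is ≤ U1 P (U_mono).
ZZ_leU: Zj gg P j (Zj gg P i YY) A = sum over V of HH V * Zj gg P i YY (A ∪ V.image (·, j)), apply Zj_leU (the set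
A ∪ V.image (·, j) has no label i) and split off l = j from the product over l ≠ i.
Zj_supp: if Zj gg P i YY A ≠ 0 then some YY (A ∪ ...) ≠ 0, and pr A ≤ pr (A ∪ ...) ≤ x^δ (YY_bd; A and the new
part are disjoint, primes ≥ 1); the same for ZZ.
-/

namespace Pool.Agent.Work.MP_70e905_nt.MT

open Finset Pool.Agent.Work.MP_73869e_nt.TH

private theorem c2_gg {p : ℕ} (hp : p.Prime) : 0 ≤ gg p := by
  unfold gg
  have : (2 : ℝ) ≤ p := by exact_mod_cast hp.two_le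
  apply div_nonneg zero_le_one
  linarith

private theorem c2_HH {S : Finset ℕ} (h : ∀ p ∈ S, p.Prime) : 0 ≤ HH S :=
  Finset.prod_nonneg fun p hp => c2_gg (h p hp)

private theorem c2_U1_nn (P : Finset ℕ) (hP : ∀ p ∈ P, p.Prime) (x L : ℕ) (t₀ : ℝ) :
    0 ≤ U1 P x L t₀ := by
  unfold U1
  exact Finset.sum_nonneg fun S hS => mul_nonneg
    (c2_HH fun p hp => hP p (mem_powerset.1 hS hp)) (yy_bd x L t₀ _).1

private theorem c2_lb_self {K : ℕ} (A : Finset (ℕ × Fin K)) (i : Fin K) (hi : ∀ c ∈ A, c.2 ≠ i)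
    (U : Finset ℕ) : lb i (A ∪ U.image (fun p => (p, i))) = U := by
  ext p
  rw [mem_lb, mem_union, mem_image]
  constructor
  · rintro (h | ⟨x, hx, hx2⟩)
    · exact absurd rfl (hi _ h)
    · rw [Prod.mk.injEq] at hx2
      rw [← hx2.1]
      exact hx
  · intro h
    right
    exact ⟨p, h, rfl⟩

private theorem c2_lb_ne {K : ℕ} (A : Finset (ℕ × Fin K)) (i l : Fin K) (hl : l ≠ i)
    (U : Finset ℕ) : lb l (A ∪ U.image (fun p => (p, i))) = lb l A := by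
  ext p
  rw [mem_lb, mem_lb, mem_union, mem_image]
  constructor
  · rintro (h | ⟨x, hx, hx2⟩)
    · exact h
    · rw [Prod.mk.injEq] at hx2
      exact absurd hx2.2.symm hl
  · intro h
    left
    exact h

private theorem c2_pr {K : ℕ} (A : Finset (ℕ × Fin K)) (i : Fin K) (hi : ∀ c ∈ A, c.2 ≠ i)
    (U : Finset ℕ) : pr (A ∪ U.image (fun p => (p, i))) = pr A * pd U := by
  unfold pr pd
  rw [Finset.prod_union]
  · congr 1
    rw [Finset.prod_image]
    intro x _ y _ h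
    beta_reduce at h
    rw [Prod.mk.injEq] at h
    exact h.1
  · rw [Finset.disjoint_left]
    intro a ha ha2
    rw [mem_image] at ha2
    obtain ⟨x, _, hx⟩ := ha2
    apply hi a ha
    rw [← hx]

private theorem c2_prod {K : ℕ} (x L : ℕ) (t₀ : ℝ) (A : Finset (ℕ × Fin K)) (i : Fin K)
    (hi : ∀ c ∈ A, c.2 ≠ i) (U : Finset ℕ) :
    ∏ l, yy x L t₀ (∏ p ∈ lb l (A ∪ U.image (fun p => (p, i))), p) =
      (∏ l ∈ univ.erase i, yy x L t₀ (pd (lb l A))) * yy x L t₀ (pd U) := by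
  rw [← Finset.prod_erase_mul univ _ (mem_univ i), c2_lb_self A i hi U]
  unfold pd
  congr 1
  refine Finset.prod_congr rfl fun l hl => ?_
  rw [c2_lb_ne A i l (ne_of_mem_erase hl) U]

private theorem c2_YY_le {K : ℕ} (x L : ℕ) (t₀ δ : ℝ) (A : Finset (ℕ × Fin K)) (i : Fin K)
    (hi : ∀ c ∈ A, c.2 ≠ i) (U : Finset ℕ) :
    YY x L t₀ δ (A ∪ U.image (fun p => (p, i))) ≤
      (∏ l ∈ univ.erase i, yy x L t₀ (pd (lb l A))) * yy x L t₀ (pd U) := by
  unfold YY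
  split_ifs with h
  · rw [c2_prod x L t₀ A i hi U]
  · exact mul_nonneg (Finset.prod_nonneg fun l _ => (yy_bd x L t₀ _).1) (yy_bd x L t₀ _).1

private theorem c2_YY_eq {K : ℕ} (x L : ℕ) (t₀ δ : ℝ) (i : Fin K) (hx : 2 ≤ x)
    (ht₀ : 0 < t₀) (hLδ : (2 : ℝ) ^ L * t₀ ≤ δ / 2)
    (A : Finset (ℕ × Fin K)) (hi : ∀ c ∈ A, c.2 ≠ i)
    (hA2 : (pr A : ℝ) ≤ (x : ℝ) ^ (δ / 2)) (U : Finset ℕ) :
    YY x L t₀ δ (A ∪ U.image (fun p => (p, i))) =
      (∏ l ∈ univ.erase i, yy x L t₀ (pd (lb l A))) * yy x L t₀ (pd U) := by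
  have hx1 : (1 : ℝ) ≤ x := by
    have : (2 : ℝ) ≤ x := by exact_mod_cast hx
    linarith
  have hx0 : (0 : ℝ) < x := by linarith
  unfold YY
  by_cases h : (pr (A ∪ U.image (fun p => (p, i))) : ℝ) ≤ (x : ℝ) ^ δ
  · rw [if_pos h, c2_prod x L t₀ A i hi U]
  · rw [if_neg h]
    have h0 : yy x L t₀ (pd U) = 0 := by
      unfold yy
      apply Finset.sum_eq_zero
      intro l hl
      rw [if_neg, mul_zero]
      intro h1
      apply h
      rw [c2_pr A i hi U]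
      push_cast
      have h2 : (x : ℝ) ^ ((2 : ℝ) ^ l * t₀) ≤ (x : ℝ) ^ (δ / 2) := by
        apply Real.rpow_le_rpow_of_exponent_le hx1
        refine le_trans ?_ hLδ
        apply mul_le_mul_of_nonneg_right _ ht₀.le
        exact pow_le_pow_right₀ (by norm_num) (mem_range.1 hl).le
      have h3 := h1.trans h2
      calc (pr A : ℝ) * (pd U : ℝ) ≤ (x : ℝ) ^ (δ / 2) * (x : ℝ) ^ (δ / 2) := by
            apply mul_le_mul hA2 h3
            · positivity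
            · positivity
        _ = (x : ℝ) ^ δ := by
            rw [← Real.rpow_add hx0]
            congr 1
            ring
    rw [h0, mul_zero]

private theorem c2_Zj {K : ℕ} (P : Finset ℕ) (i : Fin K) (Y : Finset (ℕ × Fin K) → ℝ)
    (A : Finset (ℕ × Fin K)) (hi : ∀ c ∈ A, c.2 ≠ i) :
    Zj gg P i Y A = ∑ U ∈ (P \ A.image Prod.fst).powerset, HH U *
      Y (A ∪ U.image (fun p => (p, i))) := by
  unfold Zj HH
  rw [if_neg (by push Not; exact hi)]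

theorem Zj_geU {K : ℕ} (x L : ℕ) (P : Finset ℕ) (t₀ δ : ℝ) (i : Fin K) (hx : 2 ≤ x)
    (hP : ∀ p ∈ P, p.Prime) (ht₀ : 0 < t₀) (hLδ : (2 : ℝ) ^ L * t₀ ≤ δ / 2)
    (A : Finset (ℕ × Fin K)) (hA : A ∈ LS K P) (hi : ∀ c ∈ A, c.2 ≠ i)
    (hA2 : (pr A : ℝ) ≤ (x : ℝ) ^ (δ / 2)) :
    (∏ l ∈ univ.erase i, yy x L t₀ (pd (lb l A))) * (rt (A.image Prod.fst) * U1 P x L t₀) ≤
      Zj gg P i (YY x L t₀ δ) A := by
  rw [c2_Zj P i _ A hi]
  have h1 : ∑ U ∈ (P \ A.image Prod.fst).powerset, HH U *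
      YY x L t₀ δ (A ∪ U.image (fun p => (p, i))) =
      (∏ l ∈ univ.erase i, yy x L t₀ (pd (lb l A))) * U1 (P \ A.image Prod.fst) x L t₀ := by
    unfold U1
    rw [Finset.mul_sum]
    refine Finset.sum_congr rfl fun U _ => ?_
    rw [c2_YY_eq x L t₀ δ i hx ht₀ hLδ A hi hA2 U]
    ring
  rw [h1]
  exact mul_le_mul_of_nonneg_left (U1_sdiff P _ hP x L t₀)
    (Finset.prod_nonneg fun l _ => (yy_bd x L t₀ _).1)

theorem Zj_leU {K : ℕ} (x L : ℕ) (P : Finset ℕ) (t₀ δ : ℝ) (i : Fin K)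
    (hP : ∀ p ∈ P, p.Prime) (A : Finset (ℕ × Fin K)) (hi : ∀ c ∈ A, c.2 ≠ i) :
    0 ≤ Zj gg P i (YY x L t₀ δ) A ∧ Zj gg P i (YY x L t₀ δ) A ≤
      (∏ l ∈ univ.erase i, yy x L t₀ (pd (lb l A))) * U1 P x L t₀ := by
  rw [c2_Zj P i _ A hi]
  have hH : ∀ U ∈ (P \ A.image Prod.fst).powerset, 0 ≤ HH U := fun U hU =>
    c2_HH fun p hp => hP p (mem_sdiff.1 (mem_powerset.1 hU hp)).1
  constructor
  · exact Finset.sum_nonneg fun U hU => mul_nonneg (hH U hU) (YY_bd x L t₀ δ _).1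
  · calc ∑ U ∈ (P \ A.image Prod.fst).powerset, HH U *
        YY x L t₀ δ (A ∪ U.image (fun p => (p, i))) ≤
        ∑ U ∈ (P \ A.image Prod.fst).powerset, (∏ l ∈ univ.erase i, yy x L t₀ (pd (lb l A))) *
          (HH U * yy x L t₀ (pd U)) := by
          refine Finset.sum_le_sum fun U hU => ?_
          have := mul_le_mul_of_nonneg_left (c2_YY_le x L t₀ δ A i hi U) (hH U hU)
          linarith
      _ = (∏ l ∈ univ.erase i, yy x L t₀ (pd (lb l A))) *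
          U1 (P \ A.image Prod.fst) x L t₀ := by
          unfold U1
          rw [Finset.mul_sum]
      _ ≤ _ := mul_le_mul_of_nonneg_left (U_mono _ P sdiff_subset hP x L t₀).1
          (Finset.prod_nonneg fun l _ => (yy_bd x L t₀ _).1)

theorem ZZ_leU {K : ℕ} (x L : ℕ) (P : Finset ℕ) (t₀ δ : ℝ) (i j : Fin K) (hij : i ≠ j)
    (hP : ∀ p ∈ P, p.Prime) (A : Finset (ℕ × Fin K)) (hi : ∀ c ∈ A, c.2 ≠ i ∧ c.2 ≠ j) :
    0 ≤ Zj gg P j (Zj gg P i (YY x L t₀ δ)) A ∧ Zj gg P j (Zj gg P i (YY x L t₀ δ)) A ≤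
      (∏ l ∈ (univ.erase i).erase j, yy x L t₀ (pd (lb l A))) * U1 P x L t₀ ^ 2 := by
  rw [c2_Zj P j _ A fun c hc => (hi c hc).2]
  have hH : ∀ U ∈ (P \ A.image Prod.fst).powerset, 0 ≤ HH U := fun U hU =>
    c2_HH fun p hp => hP p (mem_sdiff.1 (mem_powerset.1 hU hp)).1
  have hB : ∀ V : Finset ℕ, ∀ c ∈ A ∪ V.image (fun p => (p, j)), c.2 ≠ i := by
    intro V c hc
    rcases mem_union.1 hc with h | h
    · exact (hi c h).1
    · obtain ⟨p, _, hp⟩ := mem_image.1 h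
      rw [← hp]
      exact hij.symm
  have hprod : ∀ V : Finset ℕ,
      ∏ l ∈ univ.erase i, yy x L t₀ (pd (lb l (A ∪ V.image (fun p => (p, j))))) =
      (∏ l ∈ (univ.erase i).erase j, yy x L t₀ (pd (lb l A))) * yy x L t₀ (pd V) := by
    intro V
    have hj : j ∈ univ.erase i := mem_erase.2 ⟨hij.symm, mem_univ _⟩
    rw [← Finset.prod_erase_mul (univ.erase i) _ hj, c2_lb_self A j (fun c hc => (hi c hc).2) V]
    congr 1
    refine Finset.prod_congr rfl fun l hl => ?_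
    rw [c2_lb_ne A j l (ne_of_mem_erase hl) V]
  constructor
  · exact Finset.sum_nonneg fun U hU => mul_nonneg (hH U hU)
      (Zj_leU x L P t₀ δ i hP _ (hB U)).1
  · have hU1 := c2_U1_nn P hP x L t₀
    calc ∑ V ∈ (P \ A.image Prod.fst).powerset, HH V *
        Zj gg P i (YY x L t₀ δ) (A ∪ V.image (fun p => (p, j))) ≤
        ∑ V ∈ (P \ A.image Prod.fst).powerset,
          ((∏ l ∈ (univ.erase i).erase j, yy x L t₀ (pd (lb l A))) * U1 P x L t₀) *
          (HH V * yy x L t₀ (pd V)) := by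
          refine Finset.sum_le_sum fun V hV => ?_
          have h1 := (Zj_leU x L P t₀ δ i hP _ (hB V)).2
          rw [hprod V] at h1
          have := mul_le_mul_of_nonneg_left h1 (hH V hV)
          linarith
      _ = ((∏ l ∈ (univ.erase i).erase j, yy x L t₀ (pd (lb l A))) * U1 P x L t₀) *
          U1 (P \ A.image Prod.fst) x L t₀ := by
          conv_rhs => rw [show U1 (P \ A.image Prod.fst) x L t₀ =
            ∑ S ∈ (P \ A.image Prod.fst).powerset, HH S * yy x L t₀ (pd S) from rfl]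
          rw [Finset.mul_sum]
      _ ≤ ((∏ l ∈ (univ.erase i).erase j, yy x L t₀ (pd (lb l A))) * U1 P x L t₀) *
          U1 P x L t₀ := by
          refine mul_le_mul_of_nonneg_left (U_mono _ P sdiff_subset hP x L t₀).1 ?_
          exact mul_nonneg (Finset.prod_nonneg fun l _ => (yy_bd x L t₀ _).1) hU1
      _ = _ := by ring

theorem Zj_zero {K : ℕ} (P : Finset ℕ) (i : Fin K) (Y : Finset (ℕ × Fin K) → ℝ)
    (A : Finset (ℕ × Fin K)) (h : ∃ c ∈ A, c.2 = i) : Zj gg P i Y A = 0 := by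
  unfold Zj
  rw [if_pos h]

theorem ZZ_zero {K : ℕ} (P : Finset ℕ) (i j : Fin K) (Y : Finset (ℕ × Fin K) → ℝ)
    (A : Finset (ℕ × Fin K)) (h : ∃ c ∈ A, c.2 = i ∨ c.2 = j) :
    Zj gg P j (Zj gg P i Y) A = 0 := by
  by_cases hj : ∃ c ∈ A, c.2 = j
  · exact Zj_zero P j _ A hj
  · push Not at hj
    rw [c2_Zj P j _ A hj]
    obtain ⟨c, hc, hc2⟩ := h
    rcases hc2 with hc2 | hc2
    · refine Finset.sum_eq_zero fun V _ => ?_
      rw [Zj_zero P i Y _ ⟨c, mem_union_left _ hc, hc2⟩, mul_zero]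
    · exact absurd hc2 (hj c hc)

private theorem c2_pr_le {K : ℕ} (P : Finset ℕ) (hP : ∀ p ∈ P, p.Prime) (A : Finset (ℕ × Fin K))
    (i : Fin K) (hi : ∀ c ∈ A, c.2 ≠ i) (U : Finset ℕ) (hU : U ⊆ P) :
    (pr A : ℝ) ≤ (pr (A ∪ U.image (fun p => (p, i))) : ℝ) := by
  rw [c2_pr A i hi U]
  have h1 : 1 ≤ pd U := by
    unfold pd
    exact Finset.one_le_prod' fun p hp => (hP p (hU hp)).one_le
  exact_mod_cast Nat.le_mul_of_pos_right _ h1

theorem Zj_supp {K : ℕ} (x L : ℕ) (P : Finset ℕ) (t₀ δ : ℝ) (i : Fin K)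
    (hP : ∀ p ∈ P, p.Prime) (A : Finset (ℕ × Fin K)) (h : Zj gg P i (YY x L t₀ δ) A ≠ 0) :
    (pr A : ℝ) ≤ (x : ℝ) ^ δ := by
  by_cases hi : ∃ c ∈ A, c.2 = i
  · exact absurd (Zj_zero P i _ A hi) h
  · push Not at hi
    rw [c2_Zj P i _ A hi] at h
    obtain ⟨U, hU, hU2⟩ := Finset.exists_ne_zero_of_sum_ne_zero h
    have h1 := (YY_bd x L t₀ δ (A ∪ U.image (fun p => (p, i)))).2.2 (right_ne_zero_of_mul hU2)
    exact (c2_pr_le P hP A i hi U ((mem_powerset.1 hU).trans sdiff_subset)).trans h1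

theorem ZZ_supp {K : ℕ} (x L : ℕ) (P : Finset ℕ) (t₀ δ : ℝ) (i j : Fin K)
    (hP : ∀ p ∈ P, p.Prime) (A : Finset (ℕ × Fin K))
    (h : Zj gg P j (Zj gg P i (YY x L t₀ δ)) A ≠ 0) : (pr A : ℝ) ≤ (x : ℝ) ^ δ := by
  by_cases hj : ∃ c ∈ A, c.2 = j
  · exact absurd (Zj_zero P j _ A hj) h
  · push Not at hj
    rw [c2_Zj P j _ A hj] at h
    obtain ⟨V, hV, hV2⟩ := Finset.exists_ne_zero_of_sum_ne_zero h
    have h1 := Zj_supp x L P t₀ δ i hP _ (right_ne_zero_of_mul hV2)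
    exact (c2_pr_le P hP A j hj V ((mem_powerset.1 hV).trans sdiff_subset)).trans h1

end Pool.Agent.Work.MP_70e905_nt.MT
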