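import Mathlib
import Pool.Agent.Work.MP_70e905_nt.MT.C2
import Pool.Agent.Work.MP_70e905_nt.MT.C3
import Pool.Agent.Work.MP_73869e_nt.TH.T02

set_option autoImplicit false

/-!
MODULE C4 (the second sum in the model), size S-M.
Ex_lower (TH/T02) for gg and Z = Zj gg P i YY (K * gg p ≤ 1 since p - 1 ≥ D₀ ≥ K): Ex ≥ sum over A ∈ LS K P of
Z A ^ 2 ga gg A prod over c ∈ A of (1 - K gg c.1), all terms ≥ 0. Keep the A without label i and pr A ≤ x^(δ/2);
Z A ≥ (prod over l ≠ i of yy) * rt (A.image fst) * U1 P ≥ 0 (Zj_geU), rt (A.image fst) = prod over c ∈ A of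
(1 - 1 / c.1) (Lab A: Prod.fst is injective on A). Then tuple_geU (C3).
-/

namespace Pool.Agent.Work.MP_70e905_nt.MT

open Finset Pool.Agent.Work.MP_73869e_nt.TH

private theorem c4_rt {K : ℕ} (A : Finset (ℕ × Fin K)) (hA : Lab A) :
    rt (A.image Prod.fst) = ∏ c ∈ A, (1 - 1 / (c.1 : ℝ)) := by
  unfold rt
  rw [Finset.prod_image]
  intro a ha b hb hab
  exact hA a ha b hb hab

theorem Ex_two {K : ℕ} (x L D₀ : ℕ) (P : Finset ℕ) (t₀ δ ε : ℝ) (i : Fin K) (hx : 2 ≤ x)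
    (hP : ∀ p ∈ P, p.Prime ∧ D₀ < p) (hD : K < D₀) (ht₀ : 0 < t₀) (hδ : 0 < δ) (hε : 0 < ε)
    (hε1 : ε ≤ 1) (hLδ : (2 : ℝ) ^ L * t₀ ≤ δ / 2) (h2 : 8 * (K : ℝ) ^ 2 ≤ ε * D₀)
    (h3 : 2 * K * U2t P x L t₀ ≤ ε * δ * U2 P x L t₀) :
    (1 - 2 * ε) * U1 P x L t₀ ^ 2 * U2 P x L t₀ ^ (K - 1) ≤
      Ex gg P (fun ω => (ff gg P (Zj gg P i (YY x L t₀ δ)) ω) ^ 2) := by
  have hPp : ∀ p ∈ P, p.Prime := fun p hp => (hP p hp).1
  have hgg : ∀ p ∈ P, 0 ≤ gg p ∧ K * gg p ≤ 1 := by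
    intro p hp
    have h4 : ((D₀ : ℝ) + 1) ≤ p := by exact_mod_cast (hP p hp).2
    have h5 : ((K : ℝ) + 1) ≤ D₀ := by exact_mod_cast hD
    have hK0 : (0 : ℝ) ≤ K := Nat.cast_nonneg K
    unfold gg
    constructor
    · apply div_nonneg zero_le_one
      linarith
    · rw [mul_one_div, div_le_one (by linarith)]
      linarith
  have hU1 : 0 ≤ U1 P x L t₀ := by
    have := (Zj_leU (K := K) x L P t₀ δ i hPp ∅ (by simp)).1
    unfold U1
    refine Finset.sum_nonneg fun S hS => mul_nonneg ?_ (yy_bd x L t₀ _).1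
    exact Finset.prod_nonneg fun p hp => (hgg p (mem_powerset.1 hS hp)).1
  refine le_trans ?_ (Ex_lower gg P hgg (Zj gg P i (YY x L t₀ δ)))
  have hterm : ∀ A ∈ LS K P, 0 ≤ ga gg A * ∏ a ∈ A, (1 - K * gg a.1) := by
    intro A hA
    have h4 := (mem_LS.1 hA).1
    refine mul_nonneg (Finset.prod_nonneg fun a ha => (hgg a.1 (h4 a ha)).1)
      (Finset.prod_nonneg fun a ha => ?_)
    have := (hgg a.1 (h4 a ha)).2
    linarith
  have h4 := tuple_geU x L D₀ P t₀ δ ε i hx hP hδ hε hε1 h2 h3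
  have h5 := mul_le_mul_of_nonneg_left h4 (show 0 ≤ U1 P x L t₀ ^ 2 by positivity)
  calc (1 - 2 * ε) * U1 P x L t₀ ^ 2 * U2 P x L t₀ ^ (K - 1) =
      U1 P x L t₀ ^ 2 * ((1 - 2 * ε) * U2 P x L t₀ ^ (K - 1)) := by ring
    _ ≤ _ := h5
    _ ≤ ∑ A ∈ (LS K P).filter (fun A => (∀ c ∈ A, c.2 ≠ i) ∧ (pr A : ℝ) ≤ (x : ℝ) ^ (δ / 2)),
        Zj gg P i (YY x L t₀ δ) A ^ 2 * ga gg A * ∏ a ∈ A, (1 - K * gg a.1) := by
        rw [Finset.mul_sum]
        refine Finset.sum_le_sum fun A hA => ?_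
        rw [mem_filter] at hA
        obtain ⟨hA1, hA2, hA3⟩ := hA
        have h6 := Zj_geU x L P t₀ δ i hx hPp ht₀ hLδ A hA1 hA2 hA3
        rw [c4_rt A (mem_LS.1 hA1).2] at h6
        have h7 : 0 ≤ (∏ l ∈ univ.erase i, yy x L t₀ (pd (lb l A))) *
            ((∏ c ∈ A, (1 - 1 / (c.1 : ℝ))) * U1 P x L t₀) := by
          refine mul_nonneg (Finset.prod_nonneg fun l _ => (yy_bd x L t₀ _).1)
            (mul_nonneg (Finset.prod_nonneg fun c hc => ?_) hU1)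
          have h8 : (1 : ℝ) ≤ c.1 := by
            exact_mod_cast (hPp c.1 ((mem_LS.1 hA1).1 c hc)).one_le
          have h9 : 1 / (c.1 : ℝ) ≤ 1 := by
            rw [div_le_one (by linarith)]
            exact h8
          linarith
        have h8 := pow_le_pow_left₀ h7 h6 2
        have h9 := mul_le_mul_of_nonneg_right h8 (hterm A hA1)
        refine le_trans (le_of_eq ?_) (h9.trans (le_of_eq ?_))
        · rw [Finset.prod_mul_distrib, Finset.prod_pow]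
          ring
        · ring
    _ ≤ _ := by
        refine Finset.sum_le_sum_of_subset_of_nonneg (filter_subset _ _) fun A hA _ => ?_
        have := mul_nonneg (sq_nonneg (Zj gg P i (YY x L t₀ δ) A)) (hterm A hA)
        linarith

end Pool.Agent.Work.MP_70e905_nt.MT
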