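import Mathlib
import Pool.Agent.Work.MP_70e905_nt.MT.A2
import Pool.Agent.Work.MP_70e905_nt.MT.A6
import Pool.Agent.Work.MP_70e905_nt.MT.M0
import Pool.Agent.Work.MP_70e905_nt.MT.C1

set_option autoImplicit false

/-!
MODULE C6 (local factors, trivial bounds), size S-M.
U1_up: yy ≤ 2, U1 P ≤ 2 sum over S ⊆ P of HH S = 2 prod (1 + gg p) ≤ 2 exp (sum gg) (sum_gg of M0).
q1_eq: factor by factor: 1 - k / r = (1 - (k - 1) / (r - 1)) (1 - 1 / r) for r ≥ 2.
q2_bd: every r ∈ P₀ is a prime > D₀ > K (r does not divide W, primorial D₀ ∣ W), 1 ≤ #Jr ≤ K (card_Jr; Jr is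
not empty: label 0, or card_Ji), so 0 < factor ≤ 1 and q1 ≤ q2 (q1_eq and rt ≤ 1); factor ≥ (r - K) / r.
The product over the primes K < r ≤ M = ⌊s log x⌋ is at least the product over all integers K < m ≤ M of
(m - K) / m = (M - K)! K! / M! ≥ M^(-K) (if M > K; otherwise P₀ is empty), and (s log x)^(-K) ≥ (log x)^(-K-1) for large x.
-/

namespace Pool.Agent.Work.MP_70e905_nt.MT

open Finset Pool.Agent.Work.MP_73869e_nt.TH

private theorem c6_gg {p : ℕ} (hp : p.Prime) : 0 ≤ gg p := by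
  unfold gg
  have : (2 : ℝ) ≤ p := by exact_mod_cast hp.two_le
  apply div_nonneg zero_le_one
  linarith

private theorem c6_sum_powerset (P : Finset ℕ) (f : ℕ → ℝ) :
    ∑ S ∈ P.powerset, ∏ p ∈ S, f p = ∏ p ∈ P, (1 + f p) := by
  rw [Finset.prod_one_add]

theorem U1_up : ∃ C₁ : ℝ, 1 ≤ C₁ ∧ ∀ x : ℕ, 2 ≤ x → ∀ P : Finset ℕ, (∀ p ∈ P, p.Prime ∧ p ≤ x) →
    ∀ (L : ℕ) (t₀ : ℝ), U1 P x L t₀ ≤ C₁ * Real.log x := by
  obtain ⟨C₁, hC, H⟩ := sum_gg
  refine ⟨2 * C₁, by linarith, fun x hx P hP L t₀ => ?_⟩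
  have h1 := H x hx P hP
  calc U1 P x L t₀ ≤ ∑ S ∈ P.powerset, HH S * 2 := by
        unfold U1
        refine Finset.sum_le_sum fun S hS => ?_
        refine mul_le_mul_of_nonneg_left (yy_bd x L t₀ _).2 ?_
        exact Finset.prod_nonneg fun p hp => c6_gg (hP p (mem_powerset.1 hS hp)).1
    _ = 2 * ∏ p ∈ P, (1 + gg p) := by
        rw [← Finset.sum_mul, mul_comm]
        unfold HH
        rw [c6_sum_powerset]
    _ ≤ 2 * Real.exp (∑ p ∈ P, gg p) := by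
        refine mul_le_mul_of_nonneg_left ?_ (by norm_num)
        rw [Real.exp_sum]
        refine Finset.prod_le_prod (fun p hp => ?_) fun p _ => ?_
        · have := c6_gg (hP p hp).1
          linarith
        · have := Real.add_one_le_exp (gg p)
          linarith
    _ ≤ 2 * (C₁ * Real.log x) := mul_le_mul_of_nonneg_left h1 (by norm_num)
    _ = _ := by ring

private theorem c6_mem {K : ℕ} (c : Cfg K) (W : ℕ) (s : ℝ) (r : ℕ) (hr : r ∈ c.P₀ W s) :
    r.Prime ∧ ¬ r ∣ W ∧ r ≤ ⌊s * Real.log c.x⌋₊ := by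
  unfold Cfg.P₀ at hr
  rw [mem_filter, mem_Icc] at hr
  exact ⟨hr.2.1, hr.2.2.1, hr.1.2⟩

theorem q1_eq {K : ℕ} (c : Cfg K) (W : ℕ) (s : ℝ) : c.q1 W s = c.q2 W s * rt (c.P₀ W s) := by
  unfold Cfg.q1 Cfg.q2 rt
  rw [← Finset.prod_mul_distrib]
  refine Finset.prod_congr rfl fun r hr => ?_
  have h2 : (2 : ℝ) ≤ r := by exact_mod_cast (c6_mem c W s r hr).1.two_le
  unfold go gg
  have h3 : (r : ℝ) - 1 ≠ 0 := by
    intro h
    linarith
  have h4 : (r : ℝ) ≠ 0 := by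
    intro h
    linarith
  field_simp
  ring

private theorem c6_choose (K M : ℕ) (h : K ≤ M) :
    (∏ m ∈ Ioc K M, (1 - (K : ℝ) / m)) * (M.choose K : ℝ) = 1 := by
  induction M, h using Nat.le_induction with
  | base => simp
  | succ M hM ih =>
    have h1 : ∏ m ∈ Ioc K (M + 1), (1 - (K : ℝ) / m) =
        (∏ m ∈ Ioc K M, (1 - (K : ℝ) / m)) * (1 - (K : ℝ) / ((M + 1 : ℕ) : ℝ)) :=
      Finset.prod_Ioc_succ_top hM _
    have h2 : (M.choose K : ℝ) * ((M + 1 : ℕ) : ℝ) =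
        ((M + 1).choose K : ℝ) * (((M + 1 : ℕ) : ℝ) - K) := by
      have h3 := Nat.choose_mul_succ_eq M K
      have h4 : ((M + 1 - K : ℕ) : ℝ) = ((M + 1 : ℕ) : ℝ) - K := by
        rw [Nat.cast_sub (by omega)]
      rw [← h4]
      exact_mod_cast h3
    have h5 : ((M + 1 : ℕ) : ℝ) ≠ 0 := by positivity
    have h6 : (1 - (K : ℝ) / ((M + 1 : ℕ) : ℝ)) * ((M + 1).choose K : ℝ) = (M.choose K : ℝ) := by
      have h7 : (1 - (K : ℝ) / ((M + 1 : ℕ) : ℝ)) = (((M + 1 : ℕ) : ℝ) - K) /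
          ((M + 1 : ℕ) : ℝ) := by
        field_simp
      rw [h7, div_mul_eq_mul_div, div_eq_iff h5, h2]
      ring
    rw [h1, mul_assoc, h6]
    exact ih

theorem q_ge (K : ℕ) (s : ℝ) (hs : 0 < s) : ∃ X₀ : ℕ, ∀ c : Cfg K, ∀ D₀ W A₀ C : ℕ,
    c.Ok D₀ W A₀ C → K < D₀ → X₀ ≤ c.x →
      1 / (Real.log c.x) ^ (K + 1) ≤ c.q1 W s ∧ c.q1 W s ≤ c.q2 W s := by
  have hlog : Filter.Tendsto (fun n : ℕ => Real.log n) Filter.atTop Filter.atTop :=
    Real.tendsto_log_atTop.comp tendsto_natCast_atTop_atTop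
  obtain ⟨X₀, hX⟩ := Filter.eventually_atTop.1 (hlog.eventually_ge_atTop (max 1 (s ^ K)))
  refine ⟨X₀, fun c D₀ W A₀ C hok hK hx => ?_⟩
  have hl := hX c.x hx
  have hl1 : 1 ≤ Real.log c.x := (le_max_left _ _).trans hl
  have hl2 : s ^ K ≤ Real.log c.x := (le_max_right _ _).trans hl
  have hl0 : 0 < Real.log c.x := by linarith
  -- the primes of P₀
  have hmem : ∀ r ∈ c.P₀ W s, r.Prime ∧ K < r ∧ r ≤ ⌊s * Real.log c.x⌋₊ := by
    intro r hr
    obtain ⟨h1, h2, h3⟩ := c6_mem c W s r hr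
    refine ⟨h1, ?_, h3⟩
    by_contra hc
    push Not at hc
    apply h2
    refine dvd_trans ?_ hok.hDW
    unfold primorial
    refine Finset.dvd_prod_of_mem (fun p => p) ?_
    rw [mem_filter, mem_range]
    exact ⟨by omega, h1⟩
  have hJ : ∀ r, (#(Jr c.a c.b r) : ℝ) ≤ K := fun r => by exact_mod_cast card_Jr c.a c.b r
  have hJ0 : ∀ r, (0 : ℝ) ≤ #(Jr c.a c.b r) := fun r => Nat.cast_nonneg _
  have hq2 : 0 ≤ c.q2 W s := by
    unfold Cfg.q2
    refine Finset.prod_nonneg fun r hr => ?_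
    obtain ⟨h1, h2, _⟩ := hmem r hr
    have h3 : ((K : ℝ) + 1) ≤ r := by exact_mod_cast h2
    have h4 : (2 : ℝ) ≤ r := by exact_mod_cast h1.two_le
    unfold gg
    have h5 : ((#(Jr c.a c.b r) : ℝ) - 1) * (1 / ((r : ℝ) - 1)) ≤ 1 := by
      rw [mul_one_div, div_le_one (by linarith)]
      have := hJ r
      linarith
    linarith
  refine ⟨?_, ?_⟩
  swap
  · rw [q1_eq]
    have := (rt_01 (c.P₀ W s)).2
    nlinarith
  -- the lower bound
  set M := ⌊s * Real.log c.x⌋₊ with hM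
  have hsub : c.P₀ W s ⊆ Ioc K M := fun r hr => mem_Ioc.2 ⟨(hmem r hr).2.1, (hmem r hr).2.2⟩
  have hfac : ∀ m ∈ Ioc K M, 0 ≤ 1 - (K : ℝ) / m ∧ 1 - (K : ℝ) / m ≤ 1 := by
    intro m hm
    have h1 : K < m := (mem_Ioc.1 hm).1
    have h2 : (K : ℝ) ≤ m := by exact_mod_cast h1.le
    have h3 : (0 : ℝ) < m := by exact_mod_cast (by omega : 0 < m)
    have h4 : (K : ℝ) / m ≤ 1 := by
      rw [div_le_one h3]
      exact h2
    have h5 : 0 ≤ (K : ℝ) / m := by positivity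
    constructor <;> linarith
  have h1 : ∏ m ∈ Ioc K M, (1 - (K : ℝ) / m) ≤ c.q1 W s := by
    calc ∏ m ∈ Ioc K M, (1 - (K : ℝ) / m) ≤ ∏ r ∈ c.P₀ W s, (1 - (K : ℝ) / r) := by
          rw [← Finset.prod_sdiff hsub]
          have a1 : ∏ m ∈ Ioc K M \ c.P₀ W s, (1 - (K : ℝ) / m) ≤ 1 :=
            Finset.prod_le_one (fun m hm => (hfac m (mem_sdiff.1 hm).1).1)
              fun m hm => (hfac m (mem_sdiff.1 hm).1).2
          have a2 : 0 ≤ ∏ r ∈ c.P₀ W s, (1 - (K : ℝ) / r) :=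
            Finset.prod_nonneg fun m hm => (hfac m (hsub hm)).1
          nlinarith
      _ ≤ c.q1 W s := by
          unfold Cfg.q1
          refine Finset.prod_le_prod (fun m hm => (hfac m (hsub hm)).1) fun r hr => ?_
          have h3 : (0 : ℝ) < r := by exact_mod_cast (hmem r hr).1.pos
          unfold go
          rw [mul_one_div]
          have := div_le_div_of_nonneg_right (hJ r) h3.le
          linarith
  refine le_trans ?_ h1
  rcases le_or_gt M K with hMK | hMK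
  · rw [Finset.Ioc_eq_empty (by omega), Finset.prod_empty, div_le_one (by positivity)]
    exact one_le_pow₀ hl1
  · have h2 := c6_choose K M hMK.le
    have h3 : (0 : ℝ) < M.choose K := by exact_mod_cast Nat.choose_pos hMK.le
    have h4 : (M.choose K : ℝ) ≤ (M : ℝ) ^ K := by exact_mod_cast Nat.choose_le_pow M K
    have h5 : (M : ℝ) ≤ s * Real.log c.x := Nat.floor_le (by positivity)
    have h6 : (M : ℝ) ^ K ≤ Real.log c.x ^ (K + 1) := by
      calc (M : ℝ) ^ K ≤ (s * Real.log c.x) ^ K :=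
            pow_le_pow_left₀ (Nat.cast_nonneg _) h5 K
        _ = s ^ K * Real.log c.x ^ K := mul_pow _ _ _
        _ ≤ Real.log c.x * Real.log c.x ^ K := mul_le_mul_of_nonneg_right hl2 (by positivity)
        _ = _ := by ring
    rw [div_le_iff₀ (by positivity)]
    have h7 : 0 ≤ ∏ m ∈ Ioc K M, (1 - (K : ℝ) / m) :=
      Finset.prod_nonneg fun m hm => (hfac m hm).1
    calc (1 : ℝ) = (∏ m ∈ Ioc K M, (1 - (K : ℝ) / m)) * (M.choose K : ℝ) := h2.symm
      _ ≤ _ := mul_le_mul_of_nonneg_left (h4.trans h6) h7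

end Pool.Agent.Work.MP_70e905_nt.MT
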