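import Mathlib
import Pool.Agent.Work.MP_70e905_nt.MT.Defs

set_option autoImplicit false

/-!
MODULE F4 (consequences of the prime number theorem), size S-M.
φ(a W) = a φ(W) if all prime factors of a divide W (Nat.totient_eq_mul_prod_factors for both, the sets of prime
factors agree). By PNT, for every ε' > 0 and all large y: |π(y) - y / log y| ≤ ε' y / log y; for x ≤ y ≤ (2 A₀ + C) x:
|y / log y - y / log x| ≤ y log(2 A₀ + C) / (log x)^2; so π(y) = y / log x + O(ε'' x / log x), and with y = a (2x) + b and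
y = a x + b: c.N i = a x / log x + O(ε a x / log x) (a ≥ 1). Divide by φ(a W) = a φ(W).
-/

namespace Pool.Agent.Work.MP_70e905_nt.MT

open Finset Pool.Agent.Work.MP_73869e_nt.TH

theorem totient_aW (a W : ℕ) (ha : 0 < a) (hW : 0 < W) (h : ∀ p : ℕ, p.Prime → p ∣ a → p ∣ W) :
    Nat.totient (a * W) = a * Nat.totient W := by
  have h1 : (a * W).primeFactors = W.primeFactors := by
    rw [Nat.primeFactors_mul ha.ne' hW.ne']
    refine Finset.union_eq_right.2 fun p hp => ?_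
    rw [Nat.mem_primeFactors] at hp ⊢
    exact ⟨hp.1, h p hp.1 hp.2.1, hW.ne'⟩
  have h2 := Nat.totient_eq_mul_prod_factors (a * W)
  have h3 := Nat.totient_eq_mul_prod_factors W
  rw [h1] at h2
  have h4 : ((Nat.totient (a * W) : ℕ) : ℚ) = ((a * Nat.totient W : ℕ) : ℚ) := by
    rw [h2]
    push_cast
    rw [h3]
    ring
  exact_mod_cast h4

/-- the prime number theorem on a range -/
private theorem f4_pi (hPNT : PNT) (M : ℕ) (hM : 1 ≤ M) (η : ℝ) (hη : 0 < η) (hη1 : η ≤ 1 / 2) :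
    ∃ X₀ : ℕ, 2 ≤ X₀ ∧ ∀ x : ℕ, X₀ ≤ x → ∀ y : ℕ, x ≤ y → y ≤ M * x →
      (1 - 2 * η) * ((y : ℝ) / Real.log x) ≤ (Nat.primeCounting y : ℝ) ∧
      (Nat.primeCounting y : ℝ) ≤ (1 + η) * ((y : ℝ) / Real.log x) := by
  have h1 : ∀ᶠ n : ℕ in Filter.atTop,
      |(Nat.primeCounting n : ℝ) * Real.log n / n - 1| < η := by
    have h := hPNT.eventually (Metric.ball_mem_nhds 1 hη)
    filter_upwards [h] with n hn
    rw [Real.dist_eq] at hn
    exact hn
  have h2 : ∀ᶠ n : ℕ in Filter.atTop, Real.log M / η ≤ Real.log n :=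
    (Real.tendsto_log_atTop.comp tendsto_natCast_atTop_atTop).eventually_ge_atTop _
  obtain ⟨n₁, hn₁⟩ := Filter.eventually_atTop.1 h1
  obtain ⟨n₂, hn₂⟩ := Filter.eventually_atTop.1 h2
  refine ⟨max 2 (max n₁ n₂), le_max_left _ _, fun x hx y hxy hyM => ?_⟩
  have hx2 : 2 ≤ x := (le_max_left _ _).trans hx
  have hxn₁ : n₁ ≤ x := ((le_max_left _ _).trans (le_max_right _ _)).trans hx
  have hxn₂ : n₂ ≤ x := ((le_max_right _ _).trans (le_max_right _ _)).trans hx
  have hxr : (2 : ℝ) ≤ x := by exact_mod_cast hx2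
  have hyr : (x : ℝ) ≤ y := by exact_mod_cast hxy
  have hyMr : (y : ℝ) ≤ M * x := by exact_mod_cast hyM
  have hMr : (1 : ℝ) ≤ M := by exact_mod_cast hM
  have hy0 : (0 : ℝ) < y := by linarith
  have hlx : 0 < Real.log x := Real.log_pos (by linarith)
  have hly : 0 < Real.log y := Real.log_pos (by linarith)
  have hlxy : Real.log x ≤ Real.log y := Real.log_le_log (by linarith) hyr
  have hlyM : Real.log y ≤ Real.log M + Real.log x := by
    rw [← Real.log_mul (by linarith) (by linarith)]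
    exact Real.log_le_log hy0 hyMr
  have hlM : Real.log M ≤ η * Real.log x := by
    have := hn₂ x hxn₂
    rw [div_le_iff₀ hη] at this
    linarith
  have hp := abs_lt.1 (hn₁ y (hxn₁.trans hxy))
  set π : ℝ := (Nat.primeCounting y : ℝ) with hπ
  have e1 : (1 - η) * y ≤ π * Real.log y := by
    have h3 : 1 - η < π * Real.log y / y := by linarith [hp.1]
    rw [lt_div_iff₀ hy0] at h3
    exact h3.le
  have e2 : π * Real.log y ≤ (1 + η) * y := by
    have h3 : π * Real.log y / y < 1 + η := by linarith [hp.2]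
    rw [div_lt_iff₀ hy0] at h3
    exact h3.le
  have hπ0 : 0 ≤ π := Nat.cast_nonneg _
  constructor
  · rw [mul_div_assoc', div_le_iff₀ hlx]
    -- (1-2η) y ≤ π log x
    have e3 : (1 - η) * Real.log y ≤ Real.log x := by
      nlinarith
    have e4 : (1 - η) * ((1 - η) * y) ≤ (1 - η) * (π * Real.log y) :=
      mul_le_mul_of_nonneg_left e1 (by linarith)
    have e5 : π * ((1 - η) * Real.log y) ≤ π * Real.log x := mul_le_mul_of_nonneg_left e3 hπ0
    nlinarith
  · rw [mul_div_assoc', le_div_iff₀ hlx]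
    calc π * Real.log x ≤ π * Real.log y := mul_le_mul_of_nonneg_left hlxy hπ0
      _ ≤ _ := e2

theorem N_asy (K : ℕ) (hPNT : PNT) (ε : ℝ) (hε : 0 < ε) (D₀ W A₀ C : ℕ) : ∃ X₀ : ℕ,
    ∀ c : Cfg K, c.Ok D₀ W A₀ C → X₀ ≤ c.x → ∀ i,
      (1 - ε) * c.X W ≤ c.N i / Nat.totient (c.a i * W) ∧
      c.N i / Nat.totient (c.a i * W) ≤ (1 + ε) * c.X W := by
  obtain ⟨M, hM⟩ : ∃ M : ℕ, M = 2 * A₀ + C + 1 := ⟨_, rfl⟩
  have hM1 : 1 ≤ M := by omega
  have hMr : (1 : ℝ) ≤ M := by exact_mod_cast hM1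
  set η : ℝ := min (1 / 2) (ε / (3 * M)) with hη
  have hη0 : 0 < η := lt_min (by norm_num) (by positivity)
  have hη2 : η ≤ 1 / 2 := min_le_left _ _
  have hη3 : 3 * M * η ≤ ε := by
    have : η ≤ ε / (3 * M) := min_le_right _ _
    rw [le_div_iff₀ (by positivity)] at this
    linarith
  obtain ⟨X₀, hX₀2, hX₀⟩ := f4_pi hPNT M hM1 η hη0 hη2
  refine ⟨X₀, fun c hc hcx i => ?_⟩
  have hx2 : 2 ≤ c.x := hX₀2.trans hcx
  have hxr : (2 : ℝ) ≤ c.x := by exact_mod_cast hx2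
  have hlx : 0 < Real.log c.x := Real.log_pos (by linarith)
  have ha1 := hc.ha i
  have haA := hc.haA i
  have hb := hc.hb i
  have hφ0 : (0 : ℝ) < Nat.totient W := by
    exact_mod_cast Nat.totient_pos.2 hc.hW
  have har : (1 : ℝ) ≤ c.a i := by exact_mod_cast ha1
  have hlo1 : c.x ≤ c.a i * c.x + c.b i := by nlinarith
  have hlo2 : c.x ≤ c.a i * (2 * c.x) + c.b i := by nlinarith
  have hup1 : c.a i * c.x + c.b i ≤ M * c.x := by
    rw [hM]
    nlinarith
  have hup2 : c.a i * (2 * c.x) + c.b i ≤ M * c.x := by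
    rw [hM]
    nlinarith
  obtain ⟨p1, p2⟩ := hX₀ c.x hcx _ hlo1 hup1
  obtain ⟨q1, q2⟩ := hX₀ c.x hcx _ hlo2 hup2
  have hup1r : ((c.a i * c.x + c.b i : ℕ) : ℝ) ≤ M * c.x := by exact_mod_cast hup1
  have hup2r : ((c.a i * (2 * c.x) + c.b i : ℕ) : ℝ) ≤ M * c.x := by exact_mod_cast hup2
  have htot : (Nat.totient (c.a i * W) : ℝ) = c.a i * Nat.totient W := by
    rw [totient_aW _ _ (by omega) hc.hW (hc.haW i)]
    push_cast
    ring
  have hden : (0 : ℝ) < c.a i * Nat.totient W := by positivity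
  have hX : c.X W = c.x / (Nat.totient W * Real.log c.x) := rfl
  have hN : c.N i = (Nat.primeCounting (c.a i * (2 * c.x) + c.b i) : ℝ) -
      Nat.primeCounting (c.a i * c.x + c.b i) := rfl
  rw [htot, hX]
  have hd : ((c.a i * (2 * c.x) + c.b i : ℕ) : ℝ) / Real.log c.x -
      ((c.a i * c.x + c.b i : ℕ) : ℝ) / Real.log c.x = c.a i * c.x / Real.log c.x := by
    push_cast
    ring
  have hbd : ((c.a i * (2 * c.x) + c.b i : ℕ) : ℝ) / Real.log c.x ≤ M * c.x / Real.log c.x :=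
    div_le_div_of_nonneg_right hup2r hlx.le
  have hbd1 : ((c.a i * c.x + c.b i : ℕ) : ℝ) / Real.log c.x ≤ M * c.x / Real.log c.x :=
    div_le_div_of_nonneg_right hup1r hlx.le
  set Y2 : ℝ := ((c.a i * (2 * c.x) + c.b i : ℕ) : ℝ) / Real.log c.x with hY2
  set Y1 : ℝ := ((c.a i * c.x + c.b i : ℕ) : ℝ) / Real.log c.x with hY1
  set Z : ℝ := (c.x : ℝ) / Real.log c.x with hZ
  have hZ0 : 0 < Z := by positivity
  have e1 : c.a i * c.x / Real.log c.x = c.a i * Z := by rw [hZ]; ring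
  have e2 : (M : ℝ) * c.x / Real.log c.x = M * Z := by rw [hZ]; ring
  rw [e1] at hd
  rw [e2] at hbd hbd1
  have hηMZ : 3 * η * (M * Z) ≤ ε * (c.a i * Z) := by
    have h5 : 3 * M * η * Z ≤ ε * Z := mul_le_mul_of_nonneg_right hη3 hZ0.le
    have h6 : ε * Z ≤ ε * (c.a i * Z) :=
      mul_le_mul_of_nonneg_left (by nlinarith) hε.le
    linarith
  have hNlo : (1 - ε) * (c.a i * Z) ≤ c.N i := by
    rw [hN]
    nlinarith
  have hNup : c.N i ≤ (1 + ε) * (c.a i * Z) := by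
    rw [hN]
    nlinarith
  have hfin : ∀ t : ℝ, t * (c.x / (Nat.totient W * Real.log c.x)) =
      t * (c.a i * Z) / (c.a i * Nat.totient W) := by
    intro t
    rw [hZ]
    field_simp
  rw [hfin, hfin]
  exact ⟨div_le_div_of_nonneg_right hNlo hden.le, div_le_div_of_nonneg_right hNup hden.le⟩

end Pool.Agent.Work.MP_70e905_nt.MT
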