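import Mathlib
import Pool.Agent.Work.MP_70e905_nt.MT.B6
import Pool.Agent.Work.MP_70e905_nt.MT.C4
import Pool.Agent.Work.MP_70e905_nt.MT.C6
import Pool.Agent.Work.MP_70e905_nt.MT.F4
import Pool.Agent.Work.MP_73869e_nt.TH.T05

set_option autoImplicit false

/-!
MODULE D1 (lower bound of the second sum), size M.
Let P = c.P W δ (its primes p satisfy p ≤ x^δ ≤ x, ¬ p ∣ W, ¬ bd, hence p > D₀), Z = Zj gg P i YY. For z ∈ c.dom W with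
q = a i z + b i prime: q ≥ z > x ≥ p for p ∈ P, so om P z has no label i (om_no of A1) and c.f z = ff gg P YY (om) =
ff gg P Z (om) (ff_Zj of TH/T05); c.w z = 1[cop] * (ff gg P Z om)^2.
Apply prime_fin (B6) with this s, η = δ (2 s ≤ δ), Y = Z: Z A ≠ 0 → pr A ≤ x^δ ≤ x^(1/4 - δ) (Zj_supp of C2), Z A = 0 if A has the
label i (Zj_zero), |Z A| ≤ 2^K * U1 ≤ 2^K C₁ log x =: Y₀ (Zj_leU of C2, yy ≤ 2, U1_up of C6; Zj_zero if A has
label i), exponent A = K + 6. The sum is ≥ (c.N i / φ(a i W)) q2 Ex - Y₀^2 x / (log x)^(K+6), Ex ≥ (1 - 2 ε) U1^2 U2^(K-1)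
(Ex_two of C4), N i / φ(a i W) ≥ (1 - ε) X (N_asy of F4), q2 ≥ (log x)^(-K-1) (q_ge of C6), X = x / (φ(W) log x),
U1, U2 ≥ 1 (U_ge_one of A6): the error is at most ε X q2 U1^2 U2^(K-1) for large x. (1 - ε)(1 - 2 ε) - ε ≥ 1 - 4 ε.
-/

namespace Pool.Agent.Work.MP_70e905_nt.MT

open Finset Pool.Agent.Work.MP_73869e_nt.TH

theorem D1_log (M : ℝ) : ∃ X₀ : ℕ, 3 ≤ X₀ ∧ ∀ x : ℕ, X₀ ≤ x → M ≤ Real.log x := by
  obtain ⟨X, hX⟩ := exists_nat_ge (Real.exp M)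
  refine ⟨max X 3, le_max_right _ _, fun x hx => ?_⟩
  have h1 : Real.exp M ≤ x := hX.trans (by exact_mod_cast (le_max_left _ _).trans hx)
  calc M = Real.log (Real.exp M) := (Real.log_exp M).symm
    _ ≤ Real.log x := Real.log_le_log (Real.exp_pos _) h1

theorem D1_prod {K : ℕ} (x L : ℕ) (t₀ : ℝ) (S : Finset (Fin K)) (A : Finset (ℕ × Fin K)) :
    0 ≤ ∏ l ∈ S, yy x L t₀ (pd (lb l A)) ∧ ∏ l ∈ S, yy x L t₀ (pd (lb l A)) ≤ 2 ^ K := by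
  refine ⟨prod_nonneg fun l _ => (yy_bd _ _ _ _).1, ?_⟩
  calc ∏ l ∈ S, yy x L t₀ (pd (lb l A)) ≤ ∏ _l ∈ S, (2 : ℝ) :=
        prod_le_prod (fun l _ => (yy_bd _ _ _ _).1) (fun l _ => (yy_bd _ _ _ _).2)
    _ = 2 ^ #S := by rw [prod_const]
    _ ≤ 2 ^ K := by
        apply pow_le_pow_right₀ (by norm_num)
        have := card_le_univ S
        simpa using this

theorem D1_P {K : ℕ} (c : Cfg K) (D₀ W A₀ C : ℕ) (u : ℝ) (hc : c.Ok D₀ W A₀ C) (hu : u ≤ 1)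
    (hx : 1 ≤ c.x) (p : ℕ) (hp : p ∈ c.P W u) :
    p.Prime ∧ p ≤ c.x ∧ D₀ < p ∧ ¬ p ∣ W ∧ ¬ bd c.a c.b p := by
  unfold Cfg.P Cfg.PZ at hp
  rw [mem_filter, mem_Icc] at hp
  obtain ⟨⟨h1, h2⟩, h3, h4, h5⟩ := hp
  refine ⟨h3, ?_, ?_, h4, h5⟩
  · have h6 : (p : ℝ) ≤ (c.x : ℝ) ^ u := (Nat.le_floor_iff (by positivity)).1 h2
    have h7 : (c.x : ℝ) ^ u ≤ (c.x : ℝ) ^ (1 : ℝ) :=
      Real.rpow_le_rpow_of_exponent_le (by exact_mod_cast hx) hu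
    rw [Real.rpow_one] at h7
    exact_mod_cast h6.trans h7
  · by_contra hcon
    push Not at hcon
    exact h4 (((h3.dvd_primorial_iff).2 hcon).trans hc.hDW)

theorem D1_lt {K : ℕ} (c : Cfg K) (D₀ W A₀ C : ℕ) (u : ℝ) (hc : c.Ok D₀ W A₀ C) (hu : u ≤ 1)
    (z : ℕ) (hz : z ∈ c.dom W) (i : Fin K) (p : ℕ) (hp : p ∈ c.P W u) : p < c.a i * z + c.b i := by
  unfold Cfg.dom at hz
  rw [mem_filter, mem_Ioc] at hz
  have hx : 1 ≤ c.x := by omega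
  have h1 := (D1_P c D₀ W A₀ C u hc hu hx p hp).2.1
  have h2 : z ≤ c.a i * z := Nat.le_mul_of_pos_left z (hc.ha i)
  omega

theorem f_one {K : ℕ} (c : Cfg K) (D₀ W A₀ C L : ℕ) (δ t₀ : ℝ) (hc : c.Ok D₀ W A₀ C) (hδ : δ ≤ 1)
    (z : ℕ) (hz : z ∈ c.dom W) (i : Fin K) (hi : (c.a i * z + c.b i).Prime) :
    c.f W L δ t₀ z = ff gg (c.P W δ) (Zj gg (c.P W δ) i (YY c.x L t₀ δ))
      (om (c.P W δ) c.a c.b z) := by
  unfold Cfg.f
  apply ff_Zj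
  refine om_no _ _ _ _ _ (fun p hp => ⟨?_, D1_lt c D₀ W A₀ C δ hc hδ z hz i p hp⟩) hi
  unfold Cfg.P Cfg.PZ at hp
  exact (mem_filter.1 hp).2.1

theorem E2_low (K L : ℕ) (hK : 1 ≤ K) (hL : 1 ≤ L) (hLD : ∀ t : ℝ, t < 1 / 2 → LD t) (hPNT : PNT)
    (s δ t₀ ε : ℝ) (hs : 0 < s) (hsδ : 2 * s ≤ δ) (hδ' : δ ≤ 1 / 20) (ht₀ : 0 < t₀)
    (hLδ : (2 : ℝ) ^ L * t₀ ≤ δ / 2) (hε : 0 < ε) (hε1 : ε ≤ 1 / 4) (D₀ W A₀ C : ℕ)
    (h2 : 8 * (K : ℝ) ^ 2 ≤ ε * D₀) : ∃ X₀ : ℕ, ∀ c : Cfg K, c.Ok D₀ W A₀ C → X₀ ≤ c.x →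
      2 * K * U2t (c.P W δ) c.x L t₀ ≤ ε * δ * U2 (c.P W δ) c.x L t₀ → ∀ i : Fin K,
      (1 - 4 * ε) * c.X W * c.q2 W s * U1 (c.P W δ) c.x L t₀ ^ 2 *
          U2 (c.P W δ) c.x L t₀ ^ (K - 1) ≤
        ∑ z ∈ (c.dom W).filter (fun z => (c.a i * z + c.b i).Prime), c.w W L s δ t₀ z := by
  have hδ : 0 < δ := by linarith
  have hKr : (1 : ℝ) ≤ K := by exact_mod_cast hK
  have hKD : K < D₀ := by
    have h1 : (K : ℝ) < D₀ := by
      have h3 : ε * D₀ ≤ 1 / 4 * D₀ := by gcongr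
      nlinarith
    exact_mod_cast h1
  obtain ⟨C₁, hC₁, hU1⟩ := U1_up
  obtain ⟨X1, hX1⟩ := prime_fin K hLD s δ hs hδ hsδ (K + 6) W A₀ C D₀
  obtain ⟨X2, hX2⟩ := N_asy K hPNT ε hε D₀ W A₀ C
  obtain ⟨X3, hX3⟩ := q_ge K s hs
  obtain ⟨X4, h34, hX4⟩ := D1_log (4 ^ K * C₁ ^ 2 * Nat.totient W / ε + 1)
  refine ⟨max (max X1 X2) (max X3 X4), fun c hc hx h3 i => ?_⟩
  simp only [max_le_iff] at hx
  obtain ⟨⟨x1, x2⟩, x3, x4⟩ := hx
  have hx3 : 3 ≤ c.x := h34.trans x4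
  have hxr : (3 : ℝ) ≤ c.x := by exact_mod_cast hx3
  have hPf := D1_P c D₀ W A₀ C δ hc (by linarith) (by omega)
  have hP : ∀ p ∈ c.P W δ, p.Prime := fun p hp => (hPf p hp).1
  have hlog := hX4 c.x x4
  have hφ1 : (1 : ℝ) ≤ Nat.totient W := by exact_mod_cast Nat.totient_pos.2 hc.hW
  have hM0 : 0 ≤ 4 ^ K * C₁ ^ 2 * Nat.totient W / ε := by positivity
  have hlx : 1 ≤ Real.log c.x := by linarith
  obtain ⟨q1', q2'⟩ := hX3 c D₀ W A₀ C hc hKD x3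
  obtain ⟨v1, v2⟩ := U_ge_one (c.P W δ) hP c.x L t₀ (by omega) hL ht₀.le
  have hU := hU1 c.x (by omega) (c.P W δ) (fun p hp => ⟨hP p hp, (hPf p hp).2.1⟩) L t₀
  have hN := (hX2 c hc x2 i).1
  have hEx := Ex_two c.x L D₀ (c.P W δ) t₀ δ ε i (by omega)
    (fun p hp => ⟨hP p hp, (hPf p hp).2.2.1⟩) hKD ht₀ hδ hε (by linarith) hLδ h2 h3
  have hpf := hX1 c hc x1 i (c.P W δ) (fun p hp => by
      have h := hPf p hp
      unfold Cfg.PZ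
      rw [mem_filter, mem_Icc, Nat.floor_natCast]
      exact ⟨⟨h.1.one_lt.le, h.2.1⟩, h.1, h.2.2.2⟩)
    (Zj gg (c.P W δ) i (YY c.x L t₀ δ)) (2 ^ K * (C₁ * Real.log c.x)) (fun A => by
      by_cases hA : ∃ q ∈ A, q.2 = i
      · rw [Zj_zero _ _ _ _ hA, abs_zero]
        positivity
      · push Not at hA
        obtain ⟨z1, z2⟩ := Zj_leU c.x L (c.P W δ) t₀ δ i hP A hA
        rw [abs_of_nonneg z1]
        refine z2.trans ?_
        obtain ⟨y1, y2⟩ := D1_prod c.x L t₀ (univ.erase i) A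
        exact mul_le_mul y2 hU (by linarith) (by positivity))
    (fun A hA => (Zj_supp c.x L (c.P W δ) t₀ δ i hP A hA).trans
      (Real.rpow_le_rpow_of_exponent_le (by linarith) (by linarith)))
    (fun A _ hA => Zj_zero _ _ _ _ hA)
  have hsum : ∑ z ∈ (c.dom W).filter (fun z => (c.a i * z + c.b i).Prime), c.w W L s δ t₀ z =
      ∑ z ∈ (c.dom W).filter (fun z => (c.a i * z + c.b i).Prime),
          (if cop (c.P₀ W s) c.a c.b z then 1 else 0) *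
            (ff gg (c.P W δ) (Zj gg (c.P W δ) i (YY c.x L t₀ δ)) (om (c.P W δ) c.a c.b z)) ^ 2 := by
    refine sum_congr rfl fun z hz => ?_
    rw [mem_filter] at hz
    unfold Cfg.w
    rw [f_one c D₀ W A₀ C L δ t₀ hc (by linarith) z hz.1 i hz.2]
    split_ifs <;> simp
  rw [hsum]
  rw [abs_le] at hpf
  have h5 := hpf.1
  set S := ∑ z ∈ (c.dom W).filter (fun z => (c.a i * z + c.b i).Prime),
          (if cop (c.P₀ W s) c.a c.b z then (1 : ℝ) else 0) *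
            (ff gg (c.P W δ) (Zj gg (c.P W δ) i (YY c.x L t₀ δ)) (om (c.P W δ) c.a c.b z)) ^ 2
  set Q := Ex gg (c.P W δ) (fun ω => (ff gg (c.P W δ) (Zj gg (c.P W δ) i (YY c.x L t₀ δ)) ω) ^ 2)
  set U := U1 (c.P W δ) c.x L t₀ ^ 2 * U2 (c.P W δ) c.x L t₀ ^ (K - 1) with hUdef
  have hU1' : 1 ≤ U := by
    rw [hUdef]
    exact one_le_mul_of_one_le_of_one_le (one_le_pow₀ v1) (one_le_pow₀ v2)
  have hX0 : 0 < c.X W := by
    unfold Cfg.X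
    positivity
  have hq2 : 0 < c.q2 W s := by
    refine lt_of_lt_of_le ?_ (q1'.trans q2')
    positivity
  have hQ : (1 - 2 * ε) * U ≤ Q := by
    calc (1 - 2 * ε) * U = (1 - 2 * ε) * U1 (c.P W δ) c.x L t₀ ^ 2 *
          U2 (c.P W δ) c.x L t₀ ^ (K - 1) := by rw [hUdef]; ring
      _ ≤ Q := hEx
  have h6 : (1 - ε) * c.X W * c.q2 W s * ((1 - 2 * ε) * U) ≤
      c.N i / Nat.totient (c.a i * W) * c.q2 W s * Q := by
    have k1 : 0 ≤ 1 - ε := by linarith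
    have k2 : 0 ≤ 1 - 2 * ε := by linarith
    have k3 : 0 ≤ (1 - ε) * c.X W := by positivity
    have k4 : 0 ≤ (1 - 2 * ε) * U := mul_nonneg k2 (by linarith)
    have k5 : (1 - ε) * c.X W * c.q2 W s ≤ c.N i / Nat.totient (c.a i * W) * c.q2 W s :=
      mul_le_mul_of_nonneg_right hN hq2.le
    exact mul_le_mul k5 hQ k4 (mul_nonneg (k3.trans hN) hq2.le)
  have h7 : (2 ^ K * (C₁ * Real.log c.x)) ^ 2 * c.x / Real.log c.x ^ (K + 6) ≤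
      ε * c.X W * c.q2 W s * U := by
    have e1 : (2 ^ K * (C₁ * Real.log c.x)) ^ 2 * c.x / Real.log c.x ^ (K + 6) =
        (4 ^ K * C₁ ^ 2 * Nat.totient W / Real.log c.x ^ 2) *
          (c.X W * (1 / Real.log c.x ^ (K + 1))) := by
      have e2 : ((2 : ℝ) ^ K) ^ 2 = 4 ^ K := by rw [← pow_mul, mul_comm, pow_mul]; norm_num
      have e3 : (2 ^ K * (C₁ * Real.log c.x)) ^ 2 = 4 ^ K * C₁ ^ 2 * Real.log c.x ^ 2 := by
        rw [mul_pow, e2]; ring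
      rw [e3]
      unfold Cfg.X
      have : Real.log c.x ≠ 0 := by positivity
      field_simp
      ring
    rw [e1]
    have e4 : 4 ^ K * C₁ ^ 2 * Nat.totient W / Real.log c.x ^ 2 ≤ ε := by
      rw [div_le_iff₀ (by positivity)]
      have e5 : 4 ^ K * C₁ ^ 2 * Nat.totient W / ε ≤ Real.log c.x := by linarith
      rw [div_le_iff₀ hε] at e5
      nlinarith [mul_le_mul_of_nonneg_left hlx (by positivity : 0 ≤ Real.log c.x * ε)]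
    calc (4 ^ K * C₁ ^ 2 * Nat.totient W / Real.log c.x ^ 2) *
          (c.X W * (1 / Real.log c.x ^ (K + 1))) ≤ ε * (c.X W * c.q2 W s) := by
          gcongr
          exact q1'.trans q2'
      _ = ε * c.X W * c.q2 W s * 1 := by ring
      _ ≤ ε * c.X W * c.q2 W s * U := by gcongr
  have h8 : 0 ≤ c.X W * c.q2 W s * U := by positivity
  calc (1 - 4 * ε) * c.X W * c.q2 W s * U1 (c.P W δ) c.x L t₀ ^ 2 *
          U2 (c.P W δ) c.x L t₀ ^ (K - 1) = (1 - 4 * ε) * (c.X W * c.q2 W s * U) := by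
        rw [hUdef]; ring
    _ ≤ (1 - ε) * c.X W * c.q2 W s * ((1 - 2 * ε) * U) - ε * c.X W * c.q2 W s * U := by
        have : (1 - ε) * c.X W * c.q2 W s * ((1 - 2 * ε) * U) - ε * c.X W * c.q2 W s * U =
          ((1 - ε) * (1 - 2 * ε) - ε) * (c.X W * c.q2 W s * U) := by ring
        rw [this]
        apply mul_le_mul_of_nonneg_right _ h8
        nlinarith [sq_nonneg ε]
    _ ≤ S := by linarith

end Pool.Agent.Work.MP_70e905_nt.MT
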