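import Mathlib
import Pool.Agent.Work.MP_70e905_nt.MT.C1
import Pool.Agent.Work.MP_73869e_nt.TH.T06

set_option autoImplicit false

/-!
MODULE C5 (upper bound of the sum over tuples for two labels), size M.
1 / rt (A.image fst) = prod over c ∈ A of (1 + gg c.1) (A is Lab, (1 - 1/p)⁻¹ = 1 + 1/(p-1)). The sum over
A ∈ LS K P without labels i, j is at most the sum over all A ⊆ P × Fin K without labels i, j, which is a product
over the K - 2 labels l ≠ i, j (prod_labels of TH/T06, h i S = h j S = 1[S = ∅]) of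
sum over S ⊆ P of HH S yy (pd S)^2 prod over S of (1 + gg p). Expand the last product over subsets T ⊆ S
(Finset.prod_one_add): with S = T ∪ S', yy (pd S) ≤ yy (pd S') (yy_anti), the sum is at most
(sum over T ⊆ P of prod over T of gg p ^ 2) * U2 P = prod over P of (1 + gg p ^ 2) * U2 P ≤
exp (sum gg p ^ 2) U2 P ≤ exp (2 / D₀) U2 P (sum_gg2 of A5). To the power K - 2: exp (2 K / D₀) U2^(K-2).
-/

namespace Pool.Agent.Work.MP_70e905_nt.MT

open Finset Pool.Agent.Work.MP_73869e_nt.TH

private theorem c5_gg {p : ℕ} (hp : p.Prime) : 0 ≤ gg p := by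
  unfold gg
  have : (2 : ℝ) ≤ p := by exact_mod_cast hp.two_le
  apply div_nonneg zero_le_one
  linarith

private theorem c5_prod_lb {K : ℕ} (A : Finset (ℕ × Fin K)) (f : ℕ → ℝ) :
    ∏ a ∈ A, f a.1 = ∏ i, ∏ p ∈ lb i A, f p := by
  rw [← Finset.prod_fiberwise (s := A) (g := fun a : ℕ × Fin K => a.2) (f := fun a => f a.1)]
  refine Finset.prod_congr rfl fun i _ => ?_
  unfold lb
  rw [Finset.prod_image]
  rintro ⟨p, k⟩ ha ⟨q, l⟩ hb hab
  have ha' := (mem_filter.1 ha).2
  have hb' := (mem_filter.1 hb).2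
  simp only at ha' hb' hab
  rw [ha', hb', hab]

/-- comparison of the two weights -/
private theorem c5_W (P : Finset ℕ) (hP : ∀ p ∈ P, p.Prime) :
    ∀ φ : ℕ → ℝ, Antitone φ → (∀ n, 0 ≤ φ n) →
    ∑ S ∈ P.powerset, (∏ p ∈ S, (gg p * (1 + gg p))) * φ (pd S) ≤
      (∏ p ∈ P, (1 + gg p ^ 2)) * ∑ S ∈ P.powerset, HH S * φ (pd S) := by
  induction P using Finset.induction_on with
  | empty =>
    intro φ _ _
    simp [HH]
  | insert q P hq ih =>
    intro φ hφ h0
    have ih' := ih fun p hp => hP p (mem_insert_of_mem hp)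
    have hqp := hP q (mem_insert_self q P)
    have hg := c5_gg hqp
    have hH : ∀ S ∈ P.powerset, 0 ≤ HH S := fun S hS => Finset.prod_nonneg fun p hp =>
      c5_gg (hP p (mem_insert_of_mem (mem_powerset.1 hS hp)))
    have hC : 0 ≤ ∏ p ∈ P, (1 + gg p ^ 2) := Finset.prod_nonneg fun p _ => by positivity
    have hφ2 : Antitone (fun n => φ (q * n)) := fun a b hab => hφ (Nat.mul_le_mul_left q hab)
    have a1 := ih' φ hφ h0
    have a2 := ih' (fun n => φ (q * n)) hφ2 (fun n => h0 _)
    rw [Finset.sum_powerset_insert hq, Finset.sum_powerset_insert hq, Finset.prod_insert hq]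
    have e1 : ∑ S ∈ P.powerset, (∏ p ∈ insert q S, (gg p * (1 + gg p))) * φ (pd (insert q S)) =
        gg q * (1 + gg q) * ∑ S ∈ P.powerset, (∏ p ∈ S, (gg p * (1 + gg p))) * φ (q * pd S) := by
      rw [Finset.mul_sum]
      refine Finset.sum_congr rfl fun S hS => ?_
      have hqS : q ∉ S := fun h => hq (mem_powerset.1 hS h)
      unfold pd
      rw [Finset.prod_insert hqS, Finset.prod_insert hqS]
      ring
    have e2 : ∑ S ∈ P.powerset, HH (insert q S) * φ (pd (insert q S)) =
        gg q * ∑ S ∈ P.powerset, HH S * φ (q * pd S) := by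
      rw [Finset.mul_sum]
      refine Finset.sum_congr rfl fun S hS => ?_
      have hqS : q ∉ S := fun h => hq (mem_powerset.1 hS h)
      unfold pd HH
      rw [Finset.prod_insert hqS, Finset.prod_insert hqS]
      ring
    rw [e1, e2]
    set C := ∏ p ∈ P, (1 + gg p ^ 2) with hCdef
    set U := ∑ S ∈ P.powerset, HH S * φ (pd S) with hU
    set U' := ∑ S ∈ P.powerset, HH S * φ (q * pd S) with hU'
    have hUU : U' ≤ U := by
      refine Finset.sum_le_sum fun S hS => mul_le_mul_of_nonneg_left ?_ (hH S hS)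
      exact hφ (Nat.le_mul_of_pos_left _ hqp.pos)
    have hU0 : 0 ≤ U' := Finset.sum_nonneg fun S hS => mul_nonneg (hH S hS) (h0 _)
    have b1 : gg q * (1 + gg q) * ∑ S ∈ P.powerset, (∏ p ∈ S, (gg p * (1 + gg p))) *
        φ (q * pd S) ≤ gg q * (1 + gg q) * (C * U') :=
      mul_le_mul_of_nonneg_left a2 (by positivity)
    have b2 : gg q ^ 2 * (C * U') ≤ gg q ^ 2 * (C * U) :=
      mul_le_mul_of_nonneg_left (mul_le_mul_of_nonneg_left hUU hC) (by positivity)
    have b3 : 0 ≤ gg q ^ 2 * (C * (gg q * U')) := by positivity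
    have b4 : (1 + gg q ^ 2) * C * (U + gg q * U') =
        C * U + gg q ^ 2 * (C * U) + gg q * (C * U') + gg q ^ 2 * (C * (gg q * U')) := by ring
    rw [b4]
    have b5 : gg q * (1 + gg q) * (C * U') = gg q * (C * U') + gg q ^ 2 * (C * U') := by ring
    linarith

theorem tuple_leU {K : ℕ} (x L D₀ : ℕ) (P : Finset ℕ) (t₀ : ℝ) (i j : Fin K) (hij : i ≠ j)
    (hD : 1 ≤ D₀) (hP : ∀ p ∈ P, p.Prime ∧ D₀ < p) :
    ∑ A ∈ (LS K P).filter (fun A => ∀ c ∈ A, c.2 ≠ i ∧ c.2 ≠ j),
        (∏ l ∈ (univ.erase i).erase j, yy x L t₀ (pd (lb l A))) ^ 2 *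
          (ga gg A / rt (A.image Prod.fst)) ≤
      Real.exp (2 * K / D₀) * U2 P x L t₀ ^ (K - 2) := by
  have hPp : ∀ p ∈ P, p.Prime := fun p hp => (hP p hp).1
  have hD0 : (0 : ℝ) < D₀ := by exact_mod_cast hD
  set f : ℕ → ℝ := fun p => gg p * (1 + gg p) with hf
  have hf0 : ∀ p ∈ P, 0 ≤ f p := fun p hp => by
    have := c5_gg (hPp p hp)
    rw [hf]
    positivity
  set h : Fin K → Finset ℕ → ℝ := fun l S =>
    if l = i ∨ l = j then (if S = ∅ then 1 else 0) else (∏ p ∈ S, f p) * yy x L t₀ (pd S) ^ 2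
    with hh
  set W : ℝ := ∑ S ∈ P.powerset, (∏ p ∈ S, f p) * yy x L t₀ (pd S) ^ 2 with hW
  have hhnn : ∀ l, ∀ S ∈ P.powerset, 0 ≤ h l S := by
    intro l S hS
    rw [hh]
    beta_reduce
    split_ifs
    · exact zero_le_one
    · exact le_rfl
    · exact mul_nonneg (Finset.prod_nonneg fun p hp => hf0 p (mem_powerset.1 hS hp))
        (by positivity)
  have hW0 : 0 ≤ W := Finset.sum_nonneg fun S hS =>
    mul_nonneg (Finset.prod_nonneg fun p hp => hf0 p (mem_powerset.1 hS hp)) (by positivity)
  -- the whole sum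
  have e1 : ∑ A ∈ (P ×ˢ (univ : Finset (Fin K))).powerset, ∏ l, h l (lb l A) = W ^ (K - 2) := by
    rw [prod_labels]
    have e2 : ∀ l, ∑ S ∈ P.powerset, h l S = if l = i ∨ l = j then 1 else W := by
      intro l
      rw [hh]
      beta_reduce
      split_ifs
      · rw [Finset.sum_ite_eq' P.powerset ∅, if_pos (empty_mem_powerset _)]
      · rfl
    rw [Finset.prod_congr rfl fun l _ => e2 l]
    have hj : j ∈ univ.erase i := mem_erase.2 ⟨hij.symm, mem_univ _⟩
    rw [← Finset.mul_prod_erase univ _ (mem_univ i), ← Finset.mul_prod_erase _ _ hj,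
      if_pos (Or.inl rfl), if_pos (Or.inr rfl), one_mul, one_mul,
      Finset.prod_congr rfl (g := fun _ => W)]
    · rw [Finset.prod_const, card_erase_of_mem hj, card_erase_of_mem (mem_univ i), card_univ,
        Fintype.card_fin]
      rfl
    · intro l hl
      rw [if_neg]
      rintro (h1 | h1)
      · exact (mem_erase.1 (mem_erase.1 hl).2).1 h1
      · exact (mem_erase.1 hl).1 h1
  have e3 : ∑ A ∈ (LS K P).filter (fun A => ∀ c ∈ A, c.2 ≠ i ∧ c.2 ≠ j),
        (∏ l ∈ (univ.erase i).erase j, yy x L t₀ (pd (lb l A))) ^ 2 *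
          (ga gg A / rt (A.image Prod.fst)) ≤ W ^ (K - 2) := by
    rw [← e1]
    calc ∑ A ∈ (LS K P).filter (fun A => ∀ c ∈ A, c.2 ≠ i ∧ c.2 ≠ j),
        (∏ l ∈ (univ.erase i).erase j, yy x L t₀ (pd (lb l A))) ^ 2 *
          (ga gg A / rt (A.image Prod.fst)) =
        ∑ A ∈ (LS K P).filter (fun A => ∀ c ∈ A, c.2 ≠ i ∧ c.2 ≠ j), ∏ l, h l (lb l A) := by
          refine Finset.sum_congr rfl fun A hA => ?_
          rw [mem_filter] at hA
          obtain ⟨hA1, hA2⟩ := hA
          have hA3 := mem_LS.1 hA1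
          have g1 : ga gg A / rt (A.image Prod.fst) = ∏ a ∈ A, f a.1 := by
            have g2 : rt (A.image Prod.fst) = ∏ a ∈ A, (1 - 1 / (a.1 : ℝ)) := by
              unfold rt
              rw [Finset.prod_image]
              intro a ha b hb hab
              exact hA3.2 a ha b hb hab
            unfold ga
            rw [g2, ← Finset.prod_div_distrib]
            refine Finset.prod_congr rfl fun a ha => ?_
            have g3 : (2 : ℝ) ≤ a.1 := by exact_mod_cast (hPp a.1 (hA3.1 a ha)).two_le
            rw [hf]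
            unfold gg
            have g4 : (a.1 : ℝ) - 1 ≠ 0 := by
              intro h
              linarith
            have g5 : (a.1 : ℝ) ≠ 0 := by
              intro h
              linarith
            have g6 : 1 - 1 / (a.1 : ℝ) ≠ 0 := by
              intro h
              apply g4
              field_simp at h
              linarith
            field_simp
            ring
          have hj : j ∈ univ.erase i := mem_erase.2 ⟨hij.symm, mem_univ _⟩
          have hlbi : lb i A = ∅ := by
            rw [eq_empty_iff_forall_notMem]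
            intro p hp
            rw [mem_lb] at hp
            exact (hA2 _ hp).1 rfl
          have hlbj : lb j A = ∅ := by
            rw [eq_empty_iff_forall_notMem]
            intro p hp
            rw [mem_lb] at hp
            exact (hA2 _ hp).2 rfl
          rw [g1, c5_prod_lb, ← Finset.mul_prod_erase univ (fun l => ∏ p ∈ lb l A, f p)
            (mem_univ i), ← Finset.mul_prod_erase _ (fun l => ∏ p ∈ lb l A, f p) hj,
            ← Finset.mul_prod_erase univ (fun l => h l (lb l A)) (mem_univ i),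
            ← Finset.mul_prod_erase _ (fun l => h l (lb l A)) hj, hlbi, hlbj,
            Finset.prod_empty, one_mul, one_mul]
          have g7 : h i ∅ = 1 := by
            rw [hh]
            beta_reduce
            rw [if_pos (Or.inl rfl), if_pos rfl]
          have g8 : h j ∅ = 1 := by
            rw [hh]
            beta_reduce
            rw [if_pos (Or.inr rfl), if_pos rfl]
          rw [g7, g8, one_mul, one_mul, ← Finset.prod_pow, ← Finset.prod_mul_distrib]
          refine Finset.prod_congr rfl fun l hl => ?_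
          rw [hh]
          beta_reduce
          rw [if_neg, mul_comm]
          rintro (h1 | h1)
          · exact (mem_erase.1 (mem_erase.1 hl).2).1 h1
          · exact (mem_erase.1 hl).1 h1
      _ ≤ _ := by
          refine Finset.sum_le_sum_of_subset_of_nonneg ?_ ?_
          · intro A hA
            exact (mem_filter.1 (mem_filter.1 hA).1).1
          · intro A hA _
            refine Finset.prod_nonneg fun l _ => hhnn l _ ?_
            rw [mem_powerset]
            intro p hp
            rw [mem_lb] at hp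
            exact (mem_product.1 (mem_powerset.1 hA hp)).1
  refine e3.trans ?_
  have hU0 : 0 ≤ U2 P x L t₀ := by
    unfold U2
    exact Finset.sum_nonneg fun S hS => mul_nonneg
      (Finset.prod_nonneg fun p hp => c5_gg (hPp p (mem_powerset.1 hS hp))) (by positivity)
  have hWU : W ≤ Real.exp (2 / D₀) * U2 P x L t₀ := by
    have h1 := c5_W P hPp (fun n => yy x L t₀ n ^ 2)
      (fun a b hab => pow_le_pow_left₀ (yy_bd x L t₀ _).1 (yy_anti x L t₀ a b hab) 2)
      (fun n => by positivity)
    have h2 : ∏ p ∈ P, (1 + gg p ^ 2) ≤ Real.exp (2 / D₀) := by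
      calc ∏ p ∈ P, (1 + gg p ^ 2) ≤ ∏ p ∈ P, Real.exp (gg p ^ 2) := by
            refine Finset.prod_le_prod (fun p _ => by positivity) fun p _ => ?_
            have := Real.add_one_le_exp (gg p ^ 2)
            linarith
        _ = Real.exp (∑ p ∈ P, gg p ^ 2) := by rw [Real.exp_sum]
        _ ≤ Real.exp (2 / D₀) := Real.exp_le_exp.2 (sum_gg2 D₀ hD P fun p hp => (hP p hp).2)
    exact h1.trans (mul_le_mul_of_nonneg_right h2 hU0)
  calc W ^ (K - 2) ≤ (Real.exp (2 / D₀) * U2 P x L t₀) ^ (K - 2) :=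
        pow_le_pow_left₀ hW0 hWU _
    _ = Real.exp (2 / D₀) ^ (K - 2) * U2 P x L t₀ ^ (K - 2) := mul_pow _ _ _
    _ ≤ Real.exp (2 * K / D₀) * U2 P x L t₀ ^ (K - 2) := by
        refine mul_le_mul_of_nonneg_right ?_ (pow_nonneg hU0 _)
        rw [← Real.exp_nat_mul]
        apply Real.exp_le_exp.2
        have h3 : ((K - 2 : ℕ) : ℝ) ≤ K := by exact_mod_cast Nat.sub_le K 2
        have h4 : 0 ≤ 2 / (D₀ : ℝ) := by positivity
        calc ((K - 2 : ℕ) : ℝ) * (2 / D₀) ≤ K * (2 / D₀) := mul_le_mul_of_nonneg_right h3 h4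
          _ = _ := by ring

end Pool.Agent.Work.MP_70e905_nt.MT
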