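import Mathlib
import Pool.Agent.Work.MP_70e905_nt.MT.C1

set_option autoImplicit false

/-!
MODULE F0 (the exceptional primes), size M.
Let Δ be the product over all i < j of |a i b j - a j b i| (as integers, natAbs); it is not 0 (hdif) and every
prime p with bd a b p divides Δ (natural congruence to integer divisibility; symmetric in i, j). W Δ ≤
W (2 A₀ C x)^(K^2) ≤ x^C' for x ≥ X₀ (C' and X₀ depend on K, W, A₀, C; note C may be 0, use 2 A₀ (C + 1) x).
bad_sum: the primes p > y of the set divide W Δ, they are different, so y^(number) ≤ product ≤ W Δ ≤ x^C' and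
number ≤ C' log x / log y; each 1 / p < 1 / y.
kappa_ge: for x ≥ W the set of κ is the disjoint union of the prime factors of W (their rt is φ(W) / W,
Nat.totient_eq_mul_prod_factors), of P₀ (if s log x ≤ x) and of the set E of the p ∤ W with bd and s log x < p ≤ x;
rt E ≥ 1 - sum over E of 1/p ≥ 1 - C' log x / (s log x * log (s log x)) → 1 (bad_sum with y = s log x),
and 1 / (1 - u) ≤ 1 + 2 u.
-/

namespace Pool.Agent.Work.MP_70e905_nt.MT

open Finset Pool.Agent.Work.MP_73869e_nt.TH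

theorem rt_ge (E : Finset ℕ) : 1 - ∑ p ∈ E, 1 / (p : ℝ) ≤ rt E := by
  induction E using Finset.induction_on with
  | empty => simp [rt]
  | insert p E hp ih =>
    have h1 : rt (insert p E) = (1 - 1 / (p : ℝ)) * rt E := by
      unfold rt
      rw [Finset.prod_insert hp]
    rw [h1, Finset.sum_insert hp]
    have h2 := (rt_01 E).2
    have h3 : (0 : ℝ) ≤ 1 / p := by positivity
    nlinarith

theorem f0_rt_union (A B : Finset ℕ) : rt A * rt B ≤ rt (A ∪ B) := by
  have h1 : rt (A ∪ B) * rt (A ∩ B) = rt A * rt B := by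
    unfold rt
    exact Finset.prod_union_inter
  rw [← h1]
  exact mul_le_of_le_one_right (rt_01 _).1 (rt_01 _).2

/-- the difference of two products of two natural numbers -/
private def f0D {K : ℕ} (a b : Fin K → ℕ) (i j : Fin K) : ℕ :=
  if i = j then 1 else ((a i * b j : ℕ) - (a j * b i : ℕ) : ℤ).natAbs

private theorem f0D_pos {K : ℕ} (c : Cfg K) (D₀ W A₀ C : ℕ) (h : c.Ok D₀ W A₀ C) (i j : Fin K) :
    0 < f0D c.a c.b i j := by
  unfold f0D
  split_ifs with hij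
  · exact one_pos
  · rw [Int.natAbs_pos]
    intro h0
    have h1 := h.hdif i j hij
    have h2 : ((c.a i * c.b j : ℕ) : ℤ) = ((c.a j * c.b i : ℕ) : ℤ) := by linarith
    exact h1 (by exact_mod_cast h2)

private theorem f0D_le {K : ℕ} (c : Cfg K) (D₀ W A₀ C : ℕ) (h : c.Ok D₀ W A₀ C) (hx : 1 ≤ c.x)
    (i j : Fin K) : f0D c.a c.b i j ≤ (A₀ + 1) * (C + 1) * c.x := by
  unfold f0D
  have hb : ∀ i j, c.a i * c.b j ≤ (A₀ + 1) * (C + 1) * c.x := by
    intro i j
    calc c.a i * c.b j ≤ A₀ * (C * c.x) := Nat.mul_le_mul (h.haA i) (h.hb j)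
      _ ≤ (A₀ + 1) * ((C + 1) * c.x) := by
          refine Nat.mul_le_mul (Nat.le_succ _) (Nat.mul_le_mul_right _ (Nat.le_succ _))
      _ = (A₀ + 1) * (C + 1) * c.x := by ring
  split_ifs with hij
  · exact Nat.mul_pos (Nat.mul_pos (Nat.succ_pos _) (Nat.succ_pos _)) hx
  · have h1 := hb i j
    have h2 := hb j i
    omega

private theorem f0_dvd {K : ℕ} (a b : Fin K → ℕ) (p : ℕ) (h : bd a b p) :
    p ∣ ∏ i, ∏ j, f0D a b i j := by
  obtain ⟨i, j, hij, hm⟩ := h
  have h1 : p ∣ f0D a b i j := by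
    unfold f0D
    rw [if_neg hij]
    have h2 := (Nat.modEq_iff_dvd.1 hm)
    rw [← Int.natCast_dvd]
    rw [← dvd_neg]
    have h3 : -(((a i * b j : ℕ) : ℤ) - ((a j * b i : ℕ) : ℤ)) =
        ((a j * b i : ℕ) : ℤ) - ((a i * b j : ℕ) : ℤ) := by ring
    rw [h3]
    exact h2
  exact (h1.trans (Finset.dvd_prod_of_mem _ (mem_univ j))).trans
    (Finset.dvd_prod_of_mem (fun i => ∏ j, f0D a b i j) (mem_univ i))

theorem bad_sum (K D₀ W A₀ C : ℕ) : ∃ C' X₀ : ℕ, ∀ c : Cfg K, c.Ok D₀ W A₀ C → X₀ ≤ c.x →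
    ∀ y : ℝ, 2 ≤ y →
      ∑ p ∈ ((Icc 1 c.x).filter (fun p => p.Prime ∧ (p ∣ W ∨ bd c.a c.b p))).filter
        (fun p : ℕ => y < (p : ℝ)), 1 / (p : ℝ) ≤ C' * Real.log c.x / (y * Real.log y) := by
  refine ⟨K * K + 1, W * ((A₀ + 1) * (C + 1)) ^ (K * K) + 1, ?_⟩
  intro c hc hx y hy
  have hx1 : 1 ≤ c.x := le_trans (Nat.le_add_left _ _) hx
  set B := ((Icc 1 c.x).filter (fun p => p.Prime ∧ (p ∣ W ∨ bd c.a c.b p))).filter
        (fun p : ℕ => y < (p : ℝ)) with hB
  set M := W * ∏ i, ∏ j, f0D c.a c.b i j with hM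
  have hMpos : 0 < M := by
    rw [hM]
    exact Nat.mul_pos hc.hW (Finset.prod_pos fun i _ => Finset.prod_pos fun j _ =>
      f0D_pos c D₀ W A₀ C hc i j)
  have hBp : ∀ p ∈ B, p.Prime := fun p hp =>
    (Finset.mem_filter.1 (Finset.mem_filter.1 hp).1).2.1
  have hBy : ∀ p ∈ B, y < (p : ℝ) := fun p hp => (Finset.mem_filter.1 hp).2
  have hBd : ∀ p ∈ B, p ∣ M := by
    intro p hp
    rcases (Finset.mem_filter.1 (Finset.mem_filter.1 hp).1).2.2 with h | h
    · exact Dvd.dvd.mul_right h _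
    · exact Dvd.dvd.mul_left (f0_dvd _ _ _ h) _
  have hprod : ∏ p ∈ B, p ∣ M :=
    Finset.prod_primes_dvd M (fun p hp => (hBp p hp).prime) hBd
  have hle1 : ∏ p ∈ B, p ≤ M := Nat.le_of_dvd hMpos hprod
  have hle2 : M ≤ c.x ^ (K * K + 1) := by
    have h1 : ∏ i, ∏ j, f0D c.a c.b i j ≤ ((A₀ + 1) * (C + 1) * c.x) ^ (K * K) := by
      calc ∏ i, ∏ j, f0D c.a c.b i j ≤ ∏ _i : Fin K, ∏ _j : Fin K, ((A₀ + 1) * (C + 1) * c.x) :=
            Finset.prod_le_prod' fun i _ => Finset.prod_le_prod' fun j _ =>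
              f0D_le c D₀ W A₀ C hc hx1 i j
        _ = ((A₀ + 1) * (C + 1) * c.x) ^ (K * K) := by
            simp only [Finset.prod_const, Finset.card_univ, Fintype.card_fin]
            rw [← pow_mul]
    calc M ≤ W * ((A₀ + 1) * (C + 1) * c.x) ^ (K * K) := Nat.mul_le_mul_left _ h1
      _ = (W * ((A₀ + 1) * (C + 1)) ^ (K * K)) * c.x ^ (K * K) := by rw [mul_pow]; ring
      _ ≤ c.x * c.x ^ (K * K) := Nat.mul_le_mul_right _ (by omega)
      _ = c.x ^ (K * K + 1) := by ring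
  have hy0 : 0 < y := by linarith
  have hlogy : 0 < Real.log y := Real.log_pos (by linarith)
  have hcard : (B.card : ℝ) * Real.log y ≤ (K * K + 1 : ℕ) * Real.log c.x := by
    have h1 : y ^ B.card ≤ (c.x : ℝ) ^ (K * K + 1) := by
      calc y ^ B.card = ∏ _p ∈ B, y := by rw [Finset.prod_const]
        _ ≤ ∏ p ∈ B, (p : ℝ) := Finset.prod_le_prod (fun _ _ => hy0.le) fun p hp => (hBy p hp).le
        _ = ((∏ p ∈ B, p : ℕ) : ℝ) := by push_cast; rfl
        _ ≤ ((c.x ^ (K * K + 1) : ℕ) : ℝ) := by exact_mod_cast hle1.trans hle2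
        _ = (c.x : ℝ) ^ (K * K + 1) := by push_cast; rfl
    have h2 := Real.log_le_log (by positivity) h1
    rw [Real.log_pow, Real.log_pow] at h2
    exact h2
  have hsum : ∑ p ∈ B, 1 / (p : ℝ) ≤ B.card * (1 / y) := by
    rw [← nsmul_eq_mul]
    refine Finset.sum_le_card_nsmul _ _ _ fun p hp => ?_
    exact one_div_le_one_div_of_le hy0 (hBy p hp).le
  refine hsum.trans ?_
  rw [mul_one_div, div_le_div_iff₀ hy0 (by positivity)]
  calc (B.card : ℝ) * (y * Real.log y) = (B.card : ℝ) * Real.log y * y := by ring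
    _ ≤ (K * K + 1 : ℕ) * Real.log c.x * y := mul_le_mul_of_nonneg_right hcard hy0.le

private theorem f0_rW (W : ℕ) (hW : W ≠ 0) : rW W = rt W.primeFactors := by
  have h2 := Nat.totient_eq_mul_prod_factors W
  have h3 : (Nat.totient W : ℝ) = W * ∏ p ∈ W.primeFactors, (1 - (p : ℝ)⁻¹) := by
    have := congrArg (fun q : ℚ => (q : ℝ)) h2
    push_cast at this
    exact this
  unfold rW rt
  rw [h3]
  have : (W : ℝ) ≠ 0 := by exact_mod_cast hW
  field_simp

theorem kappa_ge (K : ℕ) (s ε : ℝ) (hs : 0 < s) (hε : 0 < ε) (D₀ W A₀ C : ℕ) : ∃ X₀ : ℕ,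
    ∀ c : Cfg K, c.Ok D₀ W A₀ C → X₀ ≤ c.x → rW W * rt (c.P₀ W s) ≤ (1 + ε) * c.κ W := by
  obtain ⟨C', X₁, hbad⟩ := bad_sum K D₀ W A₀ C
  have ht1 : Filter.Tendsto (fun x : ℕ => s * Real.log (x : ℝ)) Filter.atTop Filter.atTop :=
    (Real.tendsto_log_atTop.comp tendsto_natCast_atTop_atTop).const_mul_atTop hs
  have ht2 : Filter.Tendsto (fun x : ℕ => Real.log (s * Real.log (x : ℝ))) Filter.atTop
      Filter.atTop := Real.tendsto_log_atTop.comp ht1
  have he1 := ht1.eventually_ge_atTop 2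
  have he2 := ht2.eventually_ge_atTop (max 1 (C' * (1 + ε) / (s * ε)))
  obtain ⟨X₂, hX₂⟩ := Filter.eventually_atTop.1 (he1.and he2)
  refine ⟨max X₁ (max X₂ 2), fun c hc hx => ?_⟩
  have hx1 : X₁ ≤ c.x := le_trans (le_max_left _ _) hx
  have hx2 : X₂ ≤ c.x := le_trans (le_trans (le_max_left _ _) (le_max_right _ _)) hx
  have hx3 : 2 ≤ c.x := le_trans (le_trans (le_max_right _ _) (le_max_right _ _)) hx
  obtain ⟨hy2, hly⟩ := hX₂ c.x hx2
  have hly1 : 1 ≤ Real.log (s * Real.log c.x) := (le_max_left _ _).trans hly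
  have hly2 : C' * (1 + ε) / (s * ε) ≤ Real.log (s * Real.log c.x) := (le_max_right _ _).trans hly
  have hlx : 0 < Real.log c.x := Real.log_pos (by exact_mod_cast hx3)
  set y := s * Real.log c.x with hy
  set T := (Icc 1 c.x).filter (fun p => p.Prime ∧ (p ∣ W ∨ bd c.a c.b p)) with hT
  set T3 := T.filter (fun p : ℕ => y < (p : ℝ)) with hT3
  have hb := hbad c hc hx1 y hy2
  have h3 : 1 - ε / (1 + ε) ≤ rt T3 := by
    have h4 := rt_ge T3
    have h5 : C' * Real.log c.x / (y * Real.log y) ≤ ε / (1 + ε) := by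
      rw [div_le_div_iff₀ (by positivity) (by positivity)]
      rw [div_le_iff₀ (by positivity)] at hly2
      have h6 := mul_le_mul_of_nonneg_left hly2 hlx.le
      have e1 : C' * Real.log c.x * (1 + ε) = Real.log c.x * (C' * (1 + ε)) := by ring
      have e2 : ε * (y * Real.log y) = Real.log c.x * (Real.log y * (s * ε)) := by
        rw [hy]; ring
      rw [e1, e2]
      exact h6
    linarith
  have hsub : T ⊆ W.primeFactors ∪ c.P₀ W s ∪ T3 := by
    intro p hp
    have hp' := hp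
    rw [hT, Finset.mem_filter, Finset.mem_Icc] at hp'
    rw [Finset.mem_union, Finset.mem_union]
    by_cases h1 : p ∣ W
    · exact Or.inl (Or.inl (Nat.mem_primeFactors.2 ⟨hp'.2.1, h1, hc.hW.ne'⟩))
    · rcases le_or_gt (p : ℝ) y with h2 | h2
      · refine Or.inl (Or.inr ?_)
        unfold Cfg.P₀
        rw [Finset.mem_filter, Finset.mem_Icc]
        exact ⟨⟨hp'.1.1, Nat.le_floor h2⟩, hp'.2.1, h1, hp'.2.2.resolve_left h1⟩
      · exact Or.inr (Finset.mem_filter.2 ⟨hp, h2⟩)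
  have hκ : rt (W.primeFactors) * rt (c.P₀ W s) * rt T3 ≤ c.κ W := by
    have h4 := f0_rt_union (W.primeFactors) (c.P₀ W s)
    have h5 := f0_rt_union (W.primeFactors ∪ c.P₀ W s) T3
    have h6 := rt_anti _ _ hsub
    have h7 := mul_le_mul_of_nonneg_right h4 (rt_01 T3).1
    exact h7.trans (h5.trans h6)
  rw [f0_rW W hc.hW.ne']
  set R := rt W.primeFactors * rt (c.P₀ W s) with hR
  have hR0 : 0 ≤ R := mul_nonneg (rt_01 _).1 (rt_01 _).1
  have h8 : (1 + ε) * (R * (1 - ε / (1 + ε))) = R := by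
    field_simp
    ring
  have h9 : R * (1 - ε / (1 + ε)) ≤ c.κ W :=
    (mul_le_mul_of_nonneg_left h3 hR0).trans hκ
  rw [← h8]
  exact mul_le_mul_of_nonneg_left h9 (by linarith)

theorem kappa_01 {K : ℕ} (c : Cfg K) (W : ℕ) : 0 < c.κ W ∧ c.κ W ≤ 1 := by
  refine ⟨?_, (rt_01 _).2⟩
  unfold Cfg.κ rt
  refine Finset.prod_pos fun p hp => ?_
  have h1 : (1 : ℝ) < p := by exact_mod_cast (Finset.mem_filter.1 hp).2.1.one_lt
  have h2 : 1 / (p : ℝ) < 1 := by
    rw [div_lt_one (by linarith)]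
    exact h1
  linarith

end Pool.Agent.Work.MP_70e905_nt.MT
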