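import Mathlib
import Pool.Agent.Work.MP_70e905_nt.MT.C1
import Pool.Agent.Work.Sieve.LowerS

set_option autoImplicit false

/-!
MODULE F1 (lower bound of Nz), size M.
Step 1: for every finite set P of primes and every real z: the sum of 1/d over 1 ≤ d ≤ z all of whose prime factors
are in P is at most Nz P z. Induction on P: for p not in P write d = p^k d', p ∤ d', d' ≤ z / p^k: the sum over d
(with primes in insert p P) is at most N(z) + sum over k ≥ 1 (finitely many terms) of p^(-k) N(z / p^k) with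
N = Nz P increasing, ≤ N(z) + (sum over k ≥ 1 of p^(-k)) N(z / p) = N(z) + gg p N(z / p) = Nz (insert p P) z.
(Alternatively: group the d by the set S of their prime factors, pd S ≤ d ≤ z, and the sum of 1/d over the d with
exactly the prime factors S and d ≤ z is at most prod over S of 1/(p-1).)
Step 2: the d ≤ z divisible by no p ∈ T have prime factors in (primes ≤ z) \ T; prod_mul_harmonic_le and
log_le_sum_inv (Sieve/LowerS.lean) with y = ⌊z⌋: the sum of 1/d over them is ≥ rt T * log (⌊z⌋ + 1) ≥ rt T * log z.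
Nz_low: for t ≤ δ the sets S counted in Nz (c.P W δ) (x^t) contain those with primes in (primes ≤ x^t) \ T,
T = the set of κ (primes p ≤ x with p ∣ W or bd): (primes ≤ x^t) \ T ⊆ c.P W δ.
Nz_low2: the same for P' = c.PZ W (x^u), u ≤ 1, with T = (set of κ) ∪ E: rt T ≥ κ * rt E (a union; factors in [0, 1]).
-/

namespace Pool.Agent.Work.MP_70e905_nt.MT

open Finset Pool.Agent.Work.MP_73869e_nt.TH

private theorem f1_HH_nonneg (S : Finset ℕ) (hS : ∀ p ∈ S, p.Prime) : 0 ≤ HH S := by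
  unfold HH
  refine Finset.prod_nonneg fun p hp => ?_
  unfold gg
  have h1 : (1 : ℝ) ≤ p := by exact_mod_cast (hS p hp).one_lt.le
  exact div_nonneg zero_le_one (by linarith)

private theorem f1_Nz_nonneg (P : Finset ℕ) (hP : ∀ p ∈ P, p.Prime) (z : ℝ) : 0 ≤ Nz P z := by
  unfold Nz
  refine Finset.sum_nonneg fun S hS => ?_
  rw [mem_filter, mem_powerset] at hS
  exact f1_HH_nonneg S fun p hp => hP p (hS.1 hp)

private theorem f1_Nz_mono_z (P : Finset ℕ) (hP : ∀ p ∈ P, p.Prime) (z z' : ℝ) (h : z ≤ z') :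
    Nz P z ≤ Nz P z' := by
  unfold Nz
  refine Finset.sum_le_sum_of_subset_of_nonneg ?_ ?_
  · intro S hS
    rw [mem_filter] at hS ⊢
    exact ⟨hS.1, hS.2.trans h⟩
  · intro S hS _
    rw [mem_filter, mem_powerset] at hS
    exact f1_HH_nonneg S fun p hp => hP p (hS.1 hp)

private theorem f1_Nz_insert (P : Finset ℕ) (p : ℕ) (hp : p ∉ P) (hp0 : 0 < p) (z : ℝ) :
    Nz (insert p P) z = Nz P z + gg p * Nz P (z / p) := by
  unfold Nz
  rw [Finset.sum_filter, Finset.sum_powerset_insert hp, ← Finset.sum_filter]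
  congr 1
  rw [Finset.mul_sum, Finset.sum_filter]
  refine Finset.sum_congr rfl fun S hS => ?_
  have hpS : p ∉ S := fun h => hp (mem_powerset.1 hS h)
  have hpr : (0 : ℝ) < p := by exact_mod_cast hp0
  have h1 : ((pd (insert p S) : ℕ) : ℝ) = p * pd S := by
    unfold pd
    rw [Finset.prod_insert hpS]
    push_cast
    rfl
  have h2 : HH (insert p S) = gg p * HH S := by
    unfold HH
    rw [Finset.prod_insert hpS]
  rw [h1, h2]
  have h3 : ((p : ℝ) * pd S ≤ z) ↔ ((pd S : ℕ) : ℝ) ≤ z / p := by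
    rw [le_div_iff₀ hpr, mul_comm]
  by_cases h4 : (p : ℝ) * pd S ≤ z
  · rw [if_pos h4, if_pos (h3.1 h4)]
  · rw [if_neg h4, if_neg (fun h => h4 (h3.2 h))]

private noncomputable def f1A (P : Finset ℕ) (n : ℕ) : ℝ :=
  ∑ d ∈ (Icc 1 n).filter (fun d => ∀ p ∈ d.primeFactors, p ∈ P), 1 / (d : ℝ)

private theorem f1_A_rec (P : Finset ℕ) (p : ℕ) (hp : p ∉ P) (hpp : p.Prime) (n : ℕ) :
    f1A (insert p P) n = f1A P n + 1 / p * f1A (insert p P) (n / p) := by
  unfold f1A
  set A := (Icc 1 n).filter (fun d => ∀ q ∈ d.primeFactors, q ∈ insert p P) with hA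
  have hsplit : ∑ d ∈ A, (1 : ℝ) / d = ∑ d ∈ A.filter (fun d => ¬ p ∣ d), (1 : ℝ) / d +
      ∑ d ∈ A.filter (fun d => p ∣ d), (1 : ℝ) / d := by
    have := Finset.sum_filter_add_sum_filter_not A (fun d => p ∣ d) (fun d => (1 : ℝ) / d)
    linarith
  rw [hsplit]
  congr 1
  · refine Finset.sum_congr ?_ fun _ _ => rfl
    ext d
    simp only [hA, Finset.mem_filter, Finset.mem_Icc]
    constructor
    · rintro ⟨⟨h1, h2⟩, h3⟩
      refine ⟨h1, fun q hq => ?_⟩
      rcases Finset.mem_insert.1 (h2 q hq) with h4 | h4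
      · exact absurd (h4 ▸ Nat.dvd_of_mem_primeFactors hq) h3
      · exact h4
    · rintro ⟨h1, h2⟩
      refine ⟨⟨h1, fun q hq => Finset.mem_insert_of_mem (h2 q hq)⟩, fun h3 => hp (h2 p ?_)⟩
      exact Nat.mem_primeFactors.2 ⟨hpp, h3, by omega⟩
  · rw [Finset.mul_sum]
    refine (Finset.sum_nbij' (fun e => p * e) (fun d => d / p) ?_ ?_ ?_ ?_ ?_).symm
    · intro e he
      simp only [hA, Finset.mem_filter, Finset.mem_Icc] at he ⊢
      obtain ⟨⟨h1, h2⟩, h3⟩ := he
      refine ⟨⟨⟨Nat.mul_pos hpp.pos h1, ?_⟩, ?_⟩, Nat.dvd_mul_right _ _⟩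
      · rw [mul_comm]; exact (Nat.le_div_iff_mul_le hpp.pos).1 h2
      · intro q hq
        rw [Nat.primeFactors_mul hpp.ne_zero (by omega), Finset.mem_union] at hq
        rcases hq with hq | hq
        · rw [hpp.primeFactors, Finset.mem_singleton] at hq
          rw [hq]; exact Finset.mem_insert_self _ _
        · exact h3 q hq
    · intro d hd
      simp only [hA, Finset.mem_filter, Finset.mem_Icc] at hd ⊢
      obtain ⟨⟨⟨h1, h2⟩, h3⟩, h4⟩ := hd
      refine ⟨⟨Nat.div_pos (Nat.le_of_dvd h1 h4) hpp.pos, Nat.div_le_div_right h2⟩, ?_⟩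
      intro q hq
      refine h3 q ?_
      exact Nat.primeFactors_mono (Nat.div_dvd_of_dvd h4) (by omega) hq
    · intro e _
      exact Nat.mul_div_cancel_left e hpp.pos
    · intro d hd
      simp only [hA, Finset.mem_filter] at hd
      exact Nat.mul_div_cancel' hd.2
    · intro e _
      push_cast
      rw [one_div_mul_one_div]

private theorem f1_main (P : Finset ℕ) (hP : ∀ p ∈ P, p.Prime) :
    ∀ z : ℝ, f1A P ⌊z⌋₊ ≤ Nz P z := by
  induction P using Finset.induction_on with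
  | empty =>
    intro z
    unfold f1A Nz
    rw [Finset.powerset_empty, Finset.sum_filter, Finset.sum_filter, Finset.sum_singleton]
    have hpd : pd ∅ = 1 := rfl
    have hHH : HH ∅ = 1 := rfl
    rw [hpd, hHH]
    by_cases hz : 1 ≤ z
    · rw [if_pos (by simpa using hz)]
      have h1 : ∀ d ∈ Icc 1 ⌊z⌋₊, (if ∀ q ∈ d.primeFactors, q ∈ (∅ : Finset ℕ) then
          (1 : ℝ) / d else 0) = if d = 1 then 1 else 0 := by
        intro d hd
        rw [Finset.mem_Icc] at hd
        by_cases h2 : d = 1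
        · rw [if_pos h2, if_pos (by subst h2; simp), h2]
          norm_num
        · rw [if_neg h2, if_neg]
          intro h3
          obtain ⟨q, hq, hqd⟩ := Nat.exists_prime_and_dvd h2
          exact absurd (h3 q (Nat.mem_primeFactors.2 ⟨hq, hqd, by omega⟩)) (Finset.notMem_empty q)
      rw [Finset.sum_congr rfl h1, Finset.sum_ite_eq']
      split_ifs <;> norm_num
    · have h0 : ⌊z⌋₊ = 0 := Nat.floor_eq_zero.2 (not_le.1 hz)
      rw [h0]
      rw [if_neg (by simpa using hz)]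
      simp
  | insert p P hp ih =>
    have hpp : p.Prime := hP p (Finset.mem_insert_self p P)
    have hP' : ∀ q ∈ P, q.Prime := fun q hq => hP q (Finset.mem_insert_of_mem hq)
    have ih' := ih hP'
    have hp1 : (1 : ℝ) < p := by exact_mod_cast hpp.one_lt
    -- strong induction on the integer part
    have key : ∀ n : ℕ, ∀ z : ℝ, ⌊z⌋₊ = n → f1A (insert p P) n ≤ Nz (insert p P) z := by
      intro n
      induction n using Nat.strong_induction_on with
      | _ n IH =>
        intro z hz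
        rcases Nat.eq_zero_or_pos n with hn | hn
        · subst hn
          have h1 : f1A (insert p P) 0 = 0 := by
            unfold f1A
            simp
          rw [h1]
          exact f1_Nz_nonneg _ hP z
        · have hlt : n / p < n := Nat.div_lt_self hn hpp.one_lt
          have hfl : ⌊z / p⌋₊ = n / p := by
            rw [Nat.floor_div_natCast, hz]
          have h1 := IH (n / p) hlt (z / p) hfl
          rw [f1_A_rec P p hp hpp n, f1_Nz_insert P p hp hpp.pos z]
          have h2 : f1A P n ≤ Nz P z := by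
            rw [← hz]; exact ih' z
          have h3 : Nz (insert p P) (z / p) ≤ (1 + gg p) * Nz P (z / p) := by
            rw [f1_Nz_insert P p hp hpp.pos (z / p)]
            have h4 : 0 ≤ gg p := by
              unfold gg
              exact div_nonneg zero_le_one (by linarith)
            have hz0 : 0 < z := by
              by_contra hneg
              push Not at hneg
              have : ⌊z⌋₊ = 0 := Nat.floor_of_nonpos hneg
              omega
            have h5 : Nz P (z / p / p) ≤ Nz P (z / p) := by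
              apply f1_Nz_mono_z P hP'
              exact div_le_self (by positivity) hp1.le
            have h6 := mul_le_mul_of_nonneg_left h5 h4
            linarith
          have h4 : 1 / (p : ℝ) * (1 + gg p) = gg p := by
            unfold gg
            have : (p : ℝ) - 1 ≠ 0 := by linarith
            field_simp
            ring
          have h5 : 1 / (p : ℝ) * f1A (insert p P) (n / p) ≤ gg p * Nz P (z / p) := by
            have h6 := mul_le_mul_of_nonneg_left (h1.trans h3)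
              (by positivity : (0 : ℝ) ≤ 1 / p)
            rw [← mul_assoc, h4] at h6
            exact h6
          linarith
    exact fun z => key _ z rfl

theorem sum_inv_le_Nz (P : Finset ℕ) (hP : ∀ p ∈ P, p.Prime) (z : ℝ) :
    ∑ d ∈ (Icc 1 ⌊z⌋₊).filter (fun d => ∀ p ∈ d.primeFactors, p ∈ P), 1 / (d : ℝ) ≤ Nz P z :=
  f1_main P hP z

theorem Nz_ge (T : Finset ℕ) (hT : ∀ p ∈ T, p.Prime) (z : ℝ) (hz : 1 ≤ z) :
    rt T * Real.log z ≤ Nz (((Icc 1 ⌊z⌋₊).filter Nat.Prime) \ T) z := by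
  have h1 := Pool.Agent.Work.Sieve.prod_mul_harmonic_le ⌊z⌋₊ T hT
  have h2 := Pool.Agent.Work.Sieve.log_le_sum_inv ⌊z⌋₊
  have h3 : Real.log z ≤ Real.log ((⌊z⌋₊ : ℝ) + 1) :=
    Real.log_le_log (by linarith) (Nat.lt_floor_add_one z).le
  have h4 : rt T * Real.log z ≤ rt T * ∑ d ∈ Icc 1 ⌊z⌋₊, (1 : ℝ) / d :=
    mul_le_mul_of_nonneg_left (h3.trans h2) (rt_01 T).1
  have h5 := sum_inv_le_Nz (((Icc 1 ⌊z⌋₊).filter Nat.Prime) \ T)
    (fun p hp => (Finset.mem_filter.1 (Finset.mem_sdiff.1 hp).1).2) z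
  refine h4.trans (h1.trans (le_trans ?_ h5))
  refine Finset.sum_le_sum_of_subset_of_nonneg ?_ fun _ _ _ => by positivity
  intro d hd
  rw [Finset.mem_filter] at hd ⊢
  refine ⟨hd.1, fun q hq => ?_⟩
  have hqp := Nat.prime_of_mem_primeFactors hq
  have hqd := Nat.dvd_of_mem_primeFactors hq
  have hd1 := Finset.mem_Icc.1 hd.1
  rw [Finset.mem_sdiff, Finset.mem_filter, Finset.mem_Icc]
  exact ⟨⟨⟨hqp.one_lt.le, (Nat.le_of_dvd hd1.1 hqd).trans hd1.2⟩, hqp⟩,
    fun hqT => hd.2 q hqT hqd⟩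

theorem Nz_mono (P P' : Finset ℕ) (h : P ⊆ P') (hP : ∀ p ∈ P', p.Prime) (z : ℝ) :
    Nz P z ≤ Nz P' z := by
  unfold Nz
  refine Finset.sum_le_sum_of_subset_of_nonneg ?_ ?_
  · intro S hS
    rw [mem_filter, mem_powerset] at hS ⊢
    exact ⟨hS.1.trans h, hS.2⟩
  · intro S hS _
    rw [mem_filter, mem_powerset] at hS
    exact f1_HH_nonneg S fun p hp => hP p (hS.1 hp)

private theorem f1_rt_union (A B : Finset ℕ) : rt A * rt B ≤ rt (A ∪ B) := by
  have h1 : rt (A ∪ B) * rt (A ∩ B) = rt A * rt B := by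
    unfold rt
    exact Finset.prod_union_inter
  rw [← h1]
  exact mul_le_of_le_one_right (rt_01 _).1 (rt_01 _).2

theorem Nz_low2 {K : ℕ} (c : Cfg K) (W : ℕ) (u : ℝ) (hx : 1 ≤ c.x) (hu : 0 ≤ u) (hu1 : u ≤ 1)
    (E : Finset ℕ) (hE : ∀ p ∈ E, p.Prime) :
    c.κ W * rt E * (u * Real.log c.x) ≤ Nz (c.PZ W ((c.x : ℝ) ^ u) \ E) ((c.x : ℝ) ^ u) := by
  have hx1 : (1 : ℝ) ≤ c.x := by exact_mod_cast hx
  have hz : 1 ≤ (c.x : ℝ) ^ u := Real.one_le_rpow hx1 hu
  have hfl : ⌊(c.x : ℝ) ^ u⌋₊ ≤ c.x := by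
    have h1 : (c.x : ℝ) ^ u ≤ c.x := by
      calc (c.x : ℝ) ^ u ≤ (c.x : ℝ) ^ (1 : ℝ) := Real.rpow_le_rpow_of_exponent_le hx1 hu1
        _ = c.x := Real.rpow_one _
    have h2 := Nat.floor_le_floor h1
    rwa [Nat.floor_natCast] at h2
  set T := (Icc 1 c.x).filter (fun p => p.Prime ∧ (p ∣ W ∨ bd c.a c.b p)) with hT
  have hTE : ∀ p ∈ T ∪ E, p.Prime := by
    intro p hp
    rcases Finset.mem_union.1 hp with h | h
    · exact (Finset.mem_filter.1 h).2.1
    · exact hE p h
  have h1 := Nz_ge (T ∪ E) hTE _ hz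
  rw [Real.log_rpow (by linarith)] at h1
  have h2 : c.κ W * rt E ≤ rt (T ∪ E) := f1_rt_union T E
  have hlog : 0 ≤ Real.log c.x := Real.log_nonneg hx1
  have h3 := mul_le_mul_of_nonneg_right h2 (mul_nonneg hu hlog)
  refine h3.trans (h1.trans ?_)
  refine Nz_mono _ _ ?_ ?_ _
  · intro p hp
    simp only [Finset.mem_sdiff, Finset.mem_filter, Finset.mem_Icc, Finset.mem_union, hT,
      not_or, Cfg.PZ] at hp ⊢
    obtain ⟨⟨⟨h4, h5⟩, h6⟩, h7, h8⟩ := hp
    have h9 : ¬ (p ∣ W ∨ bd c.a c.b p) := fun h => h7 ⟨⟨h4, h5.trans hfl⟩, h6, h⟩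
    exact ⟨⟨⟨h4, h5⟩, h6, fun h => h9 (Or.inl h), fun h => h9 (Or.inr h)⟩, h8⟩
  · intro p hp
    exact (Finset.mem_filter.1 (Finset.mem_sdiff.1 hp).1).2.1

theorem Nz_low {K : ℕ} (c : Cfg K) (W : ℕ) (δ t : ℝ) (hx : 1 ≤ c.x) (ht : 0 ≤ t) (htδ : t ≤ δ)
    (hδ : δ ≤ 1) : c.κ W * Real.log c.x * t ≤ Nz (c.P W δ) ((c.x : ℝ) ^ t) := by
  have hx1 : (1 : ℝ) ≤ c.x := by exact_mod_cast hx
  have h1 := Nz_low2 c W t hx ht (htδ.trans hδ) ∅ (fun p hp => absurd hp (Finset.notMem_empty p))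
  have h2 : rt ∅ = 1 := rfl
  rw [h2, mul_one, Finset.sdiff_empty] at h1
  have h3 : Nz (c.PZ W ((c.x : ℝ) ^ t)) ((c.x : ℝ) ^ t) ≤ Nz (c.P W δ) ((c.x : ℝ) ^ t) := by
    refine Nz_mono _ _ ?_ ?_ _
    · intro p hp
      simp only [Finset.mem_filter, Finset.mem_Icc, Cfg.PZ, Cfg.P] at hp ⊢
      refine ⟨⟨hp.1.1, hp.1.2.trans (Nat.floor_le_floor ?_)⟩, hp.2⟩
      exact Real.rpow_le_rpow_of_exponent_le hx1 htδ
    · intro p hp
      exact (Finset.mem_filter.1 hp).2.1
  refine le_trans (le_of_eq ?_) (h1.trans h3)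
  ring

end Pool.Agent.Work.MP_70e905_nt.MT
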