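import Mathlib
import Pool.Agent.Work.MP_70e905_nt.MT.B6
import Pool.Agent.Work.MP_70e905_nt.MT.C2
import Pool.Agent.Work.MP_70e905_nt.MT.C5
import Pool.Agent.Work.MP_70e905_nt.MT.C6
import Pool.Agent.Work.MP_70e905_nt.MT.D1
import Pool.Agent.Work.MP_70e905_nt.MT.E1
import Pool.Agent.Work.MP_70e905_nt.MT.F0
import Pool.Agent.Work.MP_70e905_nt.MT.F1
import Pool.Agent.Work.MP_70e905_nt.MT.F4
import Pool.Agent.Work.MP_73869e_nt.TH.T02

set_option autoImplicit false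

/-!
MODULE E2 (upper bound of the third sum), size M-L.
P = c.P W δ, u = 1/4 - 2 δ, P' = c.PZ W (x^u) ⊇ P (δ ≤ 1/20 ≤ u), R = x^u, Z = Zj gg P j (Zj gg P i YY), V = Yg P P' R j Z.
For z ∈ c.dom W with both forms prime: c.f z = ff gg P (Zj gg P i YY) (om P z) (f_one of D1) = ff gg P Z (om P z) (ff_Zj of
TH/T05 for j; om_no of A1) = ff gg P' V (om P' z) (ff_Yg of E1; hZ from ZZ_zero of C2; om_no for P'). So the sum over these
z of c.w z is at most the sum over ALL z ∈ c.dom W with a i z + b i prime of 1[cop] * (ff gg P' V (om P' z))^2.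
prime_fin (B6) for P', Y = V, η = δ: V A ≠ 0 → pr A ≤ x^δ * x^u = x^(1/4 - δ) (Yg_supp, ZZ_supp), V A = 0 if A has the
label i (Yg_zero, ZZ_zero), |V A| ≤ 2^K U1^2 ≤ 2^K (C₁ log x)^2 (Yg_bd, ZZ_leU, ZZ_zero, U1_up of C6), exponent
A = K + 8. Main term: N i / φ(a i W) ≤ (1 + ε) X (N_asy of F4), Ex ≤ sum of V A ^ 2 ga gg A (Ex_upper of TH/T02;
K gg p ≤ 1 as p > D₀ > K) = sum over A ∈ LS K P of Z A ^ 2 * (ga gg A / Nz (P' \ A.image fst) R) (sum_Yg). For A without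
labels i, j (others vanish): Z A ≤ prod over l ≠ i, j of yy * U1^2 (ZZ_leU), Nz (P' \ A.image fst) R ≥
κ * rt (A.image fst) * u log x (Nz_low2 of F1). So Ex ≤ U1^4 / (κ u log x) * exp (2 K / D₀) U2^(K-2) (tuple_leU of C5).
The error (2^K (C₁ log x)^2)^2 x / (log x)^(K+8) is at most ε X q2 U1^4 U2^(K-2) / (κ u log x), because κ ≤ 1
(kappa_01 of F0), u ≤ 1, U1, U2 ≥ 1, q2 ≥ (log x)^(-K-1) (q_ge of C6), X = x / (φ(W) log x).
-/

namespace Pool.Agent.Work.MP_70e905_nt.MT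

open Finset Pool.Agent.Work.MP_73869e_nt.TH

private theorem E2_sub {K : ℕ} (c : Cfg K) (W : ℕ) (δ u : ℝ) (hδu : δ ≤ u) (hx : 1 ≤ c.x) :
    c.P W δ ⊆ c.P W u := by
  intro p hp
  unfold Cfg.P Cfg.PZ at hp ⊢
  rw [mem_filter, mem_Icc] at hp ⊢
  refine ⟨⟨hp.1.1, hp.1.2.trans ?_⟩, hp.2⟩
  apply Nat.floor_le_floor
  exact Real.rpow_le_rpow_of_exponent_le (by exact_mod_cast hx) hδu

private theorem E2_rt_pos {K : ℕ} (P : Finset ℕ) (hP : ∀ p ∈ P, p.Prime) (A : Finset (ℕ × Fin K))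
    (hA : A ∈ LS K P) : 0 < rt (A.image Prod.fst) := by
  unfold rt
  refine prod_pos fun p hp => ?_
  obtain ⟨c, hc, rfl⟩ := mem_image.1 hp
  have h := (hP _ ((mem_LS.1 hA).1 c hc)).two_le
  have h' : (2 : ℝ) ≤ c.1 := by exact_mod_cast h
  have : 1 / (c.1 : ℝ) ≤ 1 / 2 := one_div_le_one_div_of_le (by norm_num) h'
  linarith

private theorem E2_ga {K : ℕ} (P : Finset ℕ) (hP : ∀ p ∈ P, p.Prime) (A : Finset (ℕ × Fin K))
    (hA : A ∈ LS K P) : 0 ≤ ga gg A := by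
  unfold ga
  refine prod_nonneg fun c hc => ?_
  have h := (hP _ ((mem_LS.1 hA).1 c hc)).two_le
  have h' : (2 : ℝ) ≤ c.1 := by exact_mod_cast h
  unfold gg
  apply div_nonneg zero_le_one
  linarith

theorem E3_up (K L : ℕ) (hL : 1 ≤ L) (hLD : ∀ t : ℝ, t < 1 / 2 → LD t) (hPNT : PNT)
    (s δ t₀ ε : ℝ) (hs : 0 < s) (hsδ : 2 * s ≤ δ) (hδ' : δ ≤ 1 / 20) (ht₀ : 0 < t₀)
    (hε : 0 < ε) (D₀ W A₀ C : ℕ) (hD : K < D₀) : ∃ X₀ : ℕ, ∀ c : Cfg K, c.Ok D₀ W A₀ C →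
      X₀ ≤ c.x → ∀ i j : Fin K, i ≠ j →
      ∑ z ∈ (c.dom W).filter (fun z => (c.a i * z + c.b i).Prime ∧ (c.a j * z + c.b j).Prime),
          c.w W L s δ t₀ z ≤
        ((1 + ε) * Real.exp (2 * K / D₀) + ε) * c.X W * c.q2 W s *
          U1 (c.P W δ) c.x L t₀ ^ 4 * U2 (c.P W δ) c.x L t₀ ^ (K - 2) /
            (c.κ W * ((1 / 4 - 2 * δ) * Real.log c.x)) := by
  have hδ : 0 < δ := by linarith
  obtain ⟨C₁, hC₁, hU1⟩ := U1_up
  obtain ⟨X1, hX1⟩ := prime_fin K hLD s δ hs hδ hsδ (K + 8) W A₀ C D₀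
  obtain ⟨X2, hX2⟩ := N_asy K hPNT ε hε D₀ W A₀ C
  obtain ⟨X3, hX3⟩ := q_ge K s hs
  obtain ⟨X4, h34, hX4⟩ := D1_log (4 ^ K * C₁ ^ 4 * Nat.totient W / ε + 1)
  refine ⟨max (max X1 X2) (max X3 X4), fun c hc hx i j hij => ?_⟩
  simp only [max_le_iff] at hx
  obtain ⟨⟨x1, x2⟩, x3, x4⟩ := hx
  have hx3 : 3 ≤ c.x := h34.trans x4
  have hx1 : 1 ≤ c.x := by omega
  have hxr : (3 : ℝ) ≤ c.x := by exact_mod_cast hx3
  set u : ℝ := 1 / 4 - 2 * δ with hu
  have hu0 : 0 < u := by linarith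
  have hu1 : u ≤ 1 := by linarith
  have hδu : δ ≤ u := by linarith
  have hPf := D1_P c D₀ W A₀ C δ hc (by linarith) hx1
  have hPf' := D1_P c D₀ W A₀ C u hc hu1 hx1
  have hP : ∀ p ∈ c.P W δ, p.Prime := fun p hp => (hPf p hp).1
  have hP' : ∀ p ∈ c.P W u, p.Prime := fun p hp => (hPf' p hp).1
  have hPP' : c.P W δ ⊆ c.P W u := E2_sub c W δ u hδu hx1
  have hlog := hX4 c.x x4
  have hφ1 : (1 : ℝ) ≤ Nat.totient W := by exact_mod_cast Nat.totient_pos.2 hc.hW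
  have hM0 : 0 ≤ 4 ^ K * C₁ ^ 4 * Nat.totient W / ε := by positivity
  have hlx : 1 ≤ Real.log c.x := by linarith
  have hlx0 : 0 < Real.log c.x := by linarith
  obtain ⟨q1', q2'⟩ := hX3 c D₀ W A₀ C hc hD x3
  obtain ⟨v1, v2⟩ := U_ge_one (c.P W δ) hP c.x L t₀ hx1 hL ht₀.le
  have hU := hU1 c.x (by omega) (c.P W δ) (fun p hp => ⟨hP p hp, (hPf p hp).2.1⟩) L t₀
  have hN := (hX2 c hc x2 i).2
  obtain ⟨k1, k2⟩ := kappa_01 c W
  set R : ℝ := (c.x : ℝ) ^ u with hR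
  have hR1 : 1 ≤ R := Real.one_le_rpow (by linarith) hu0.le
  set Z : Finset (ℕ × Fin K) → ℝ := Zj gg (c.P W δ) j (Zj gg (c.P W δ) i (YY c.x L t₀ δ)) with hZdef
  set V : Finset (ℕ × Fin K) → ℝ := Yg (c.P W δ) (c.P W u) R j Z with hVdef
  have hZj : ∀ A, (∃ q ∈ A, q.2 = j) → Z A = 0 := fun A hA => by
    obtain ⟨q, hq, hqj⟩ := hA
    exact ZZ_zero _ _ _ _ _ ⟨q, hq, Or.inr hqj⟩
  have hZi : ∀ A, (∃ q ∈ A, q.2 = i) → Z A = 0 := fun A hA => by
    obtain ⟨q, hq, hqj⟩ := hA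
    exact ZZ_zero _ _ _ _ _ ⟨q, hq, Or.inl hqj⟩
  have hZbd : ∀ A, |Z A| ≤ 2 ^ K * (C₁ * Real.log c.x) ^ 2 := fun A => by
    by_cases hA : ∃ q ∈ A, q.2 = i ∨ q.2 = j
    · rw [hZdef, ZZ_zero _ _ _ _ _ hA, abs_zero]
      positivity
    · push Not at hA
      obtain ⟨z1, z2⟩ := ZZ_leU c.x L (c.P W δ) t₀ δ i j hij hP A hA
      rw [hZdef, abs_of_nonneg z1]
      refine z2.trans ?_
      obtain ⟨y1, y2⟩ := D1_prod c.x L t₀ ((univ.erase i).erase j) A
      have h1 : U1 (c.P W δ) c.x L t₀ ^ 2 ≤ (C₁ * Real.log c.x) ^ 2 :=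
        pow_le_pow_left₀ (by linarith) hU 2
      exact mul_le_mul y2 h1 (by positivity) (by positivity)
  have hVsupp : ∀ A, V A ≠ 0 → (pr A : ℝ) ≤ (c.x : ℝ) ^ (1 / 4 - δ) := fun A hA => by
    have h1 := Yg_supp (c.P W δ) (c.P W u) R ((c.x : ℝ) ^ δ) (by positivity) j Z
      (fun B hB => ZZ_supp c.x L (c.P W δ) t₀ δ i j hP B hB) A hA
    rw [hR, ← Real.rpow_add (by linarith)] at h1
    have h2 : δ + u = 1 / 4 - δ := by rw [hu]; ring
    rwa [h2] at h1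
  have hpf := hX1 c hc x1 i (c.P W u) (fun p hp => by
      have h := hPf' p hp
      unfold Cfg.PZ
      rw [mem_filter, mem_Icc, Nat.floor_natCast]
      exact ⟨⟨h.1.one_lt.le, h.2.1⟩, h.1, h.2.2.2⟩)
    V (2 ^ K * (C₁ * Real.log c.x) ^ 2)
    (fun A => Yg_bd (c.P W δ) (c.P W u) hP' R hR1 j Z _ hZbd A) hVsupp
    (fun A _ hA => Yg_zero (c.P W δ) (c.P W u) R i j hij Z hZi A hA)
  have hfz : ∀ z ∈ (c.dom W).filter (fun z => (c.a i * z + c.b i).Prime ∧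
      (c.a j * z + c.b j).Prime), c.w W L s δ t₀ z =
      (if cop (c.P₀ W s) c.a c.b z then (1 : ℝ) else 0) *
        (ff gg (c.P W u) V (om (c.P W u) c.a c.b z)) ^ 2 := fun z hz => by
    rw [mem_filter] at hz
    obtain ⟨hz1, hz2, hz3⟩ := hz
    have e1 := f_one c D₀ W A₀ C L δ t₀ hc (by linarith) z hz1 i hz2
    have n1 : ∀ q ∈ om (c.P W δ) c.a c.b z, q.2 ≠ j :=
      om_no _ _ _ _ _ (fun p hp => ⟨hP p hp, D1_lt c D₀ W A₀ C δ hc (by linarith) z hz1 j p hp⟩) hz3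
    have n2 : ∀ q ∈ om (c.P W u) c.a c.b z, q.2 ≠ j :=
      om_no _ _ _ _ _ (fun p hp => ⟨hP' p hp, D1_lt c D₀ W A₀ C u hc hu1 z hz1 j p hp⟩) hz3
    have e2 := ff_Zj gg (c.P W δ) j (Zj gg (c.P W δ) i (YY c.x L t₀ δ)) (om (c.P W δ) c.a c.b z) n1
    have e3 := ff_Yg (c.P W δ) (c.P W u) hPP' hP' R hR1 j Z hZj c.a c.b z n2
    unfold Cfg.w
    rw [e1, e2, ← hZdef, ← e3, ← hVdef]
    split_ifs <;> simp
  have hsum : ∑ z ∈ (c.dom W).filter (fun z => (c.a i * z + c.b i).Prime ∧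
      (c.a j * z + c.b j).Prime), c.w W L s δ t₀ z ≤
      ∑ z ∈ (c.dom W).filter (fun z => (c.a i * z + c.b i).Prime),
          (if cop (c.P₀ W s) c.a c.b z then 1 else 0) *
            (ff gg (c.P W u) V (om (c.P W u) c.a c.b z)) ^ 2 := by
    rw [sum_congr rfl hfz]
    apply sum_le_sum_of_subset_of_nonneg
    · intro z hz
      rw [mem_filter] at hz ⊢
      exact ⟨hz.1, hz.2.1⟩
    · intro z _ _
      split_ifs
      · positivity
      · simp
  refine hsum.trans ?_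
  rw [abs_le] at hpf
  have h5 := hpf.2
  set S := ∑ z ∈ (c.dom W).filter (fun z => (c.a i * z + c.b i).Prime),
          (if cop (c.P₀ W s) c.a c.b z then (1 : ℝ) else 0) *
            (ff gg (c.P W u) V (om (c.P W u) c.a c.b z)) ^ 2
  set Q := Ex gg (c.P W u) (fun ω => (ff gg (c.P W u) V ω) ^ 2) with hQdef
  set U := U1 (c.P W δ) c.x L t₀ ^ 4 * U2 (c.P W δ) c.x L t₀ ^ (K - 2) with hUdef
  set g := Real.exp (2 * K / D₀) with hg
  have hg0 : 0 < g := Real.exp_pos _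
  have hU1' : 1 ≤ U := by
    rw [hUdef]
    exact one_le_mul_of_one_le_of_one_le (one_le_pow₀ v1) (one_le_pow₀ v2)
  have hX0 : 0 < c.X W := by
    unfold Cfg.X
    positivity
  have hq2 : 0 < c.q2 W s := by
    refine lt_of_lt_of_le ?_ (q1'.trans q2')
    positivity
  have hden : 0 < c.κ W * (u * Real.log c.x) := by positivity
  have hQ : Q ≤ g * U / (c.κ W * (u * Real.log c.x)) := by
    have h1 := Ex_upper gg (c.P W u) (fun p hp => by
      have h := hPf' p hp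
      have h6 : (K : ℝ) + 1 ≤ D₀ := by exact_mod_cast hD
      have h7 : (D₀ : ℝ) + 1 ≤ p := by exact_mod_cast h.2.2.1
      unfold gg
      have h8 : 0 < (p : ℝ) - 1 := by
        have : (0 : ℝ) ≤ K := Nat.cast_nonneg _
        linarith
      refine ⟨by positivity, ?_⟩
      rw [mul_one_div, div_le_one h8]
      linarith) V
    rw [← hQdef, hVdef, sum_Yg (c.P W δ) (c.P W u) hPP' hP' R hR1 j Z hZj] at h1
    refine h1.trans ?_
    have h2 : ∑ A ∈ LS K (c.P W δ), Z A ^ 2 * (ga gg A / Nz (c.P W u \ A.image Prod.fst) R) =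
        ∑ A ∈ (LS K (c.P W δ)).filter (fun A => ∀ q ∈ A, q.2 ≠ i ∧ q.2 ≠ j),
          Z A ^ 2 * (ga gg A / Nz (c.P W u \ A.image Prod.fst) R) := by
      rw [sum_filter]
      refine sum_congr rfl fun A _ => ?_
      split_ifs with h
      · rfl
      · push Not at h
        obtain ⟨q, hq, hqq⟩ := h
        have hz0 : Z A = 0 := by
          by_cases hqi : q.2 = i
          · exact hZi A ⟨q, hq, hqi⟩
          · exact hZj A ⟨q, hq, hqq hqi⟩
        rw [hz0]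
        ring
    rw [h2]
    have h3 : ∀ A ∈ (LS K (c.P W δ)).filter (fun A => ∀ q ∈ A, q.2 ≠ i ∧ q.2 ≠ j),
        Z A ^ 2 * (ga gg A / Nz (c.P W u \ A.image Prod.fst) R) ≤
        (U1 (c.P W δ) c.x L t₀ ^ 4 / (c.κ W * (u * Real.log c.x))) *
          ((∏ l ∈ (univ.erase i).erase j, yy c.x L t₀ (pd (lb l A))) ^ 2 *
          (ga gg A / rt (A.image Prod.fst))) := fun A hA => by
      rw [mem_filter] at hA
      obtain ⟨z1, z2⟩ := ZZ_leU c.x L (c.P W δ) t₀ δ i j hij hP A hA.2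
      have hrt := E2_rt_pos (c.P W δ) hP A hA.1
      have hga := E2_ga (c.P W δ) hP A hA.1
      have hNz := Nz_low2 c W u hx1 hu0.le hu1 (A.image Prod.fst) (fun p hp => by
        obtain ⟨q, hq, rfl⟩ := mem_image.1 hp
        exact hP _ ((mem_LS.1 hA.1).1 q hq))
      have e1 : Z A ^ 2 ≤ ((∏ l ∈ (univ.erase i).erase j, yy c.x L t₀ (pd (lb l A))) *
          U1 (c.P W δ) c.x L t₀ ^ 2) ^ 2 := pow_le_pow_left₀ z1 z2 2
      have e2 : ga gg A / Nz (c.P W u \ A.image Prod.fst) R ≤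
          ga gg A / (c.κ W * rt (A.image Prod.fst) * (u * Real.log c.x)) := by
        apply div_le_div_of_nonneg_left hga (by positivity)
        exact hNz
      calc Z A ^ 2 * (ga gg A / Nz (c.P W u \ A.image Prod.fst) R)
          ≤ ((∏ l ∈ (univ.erase i).erase j, yy c.x L t₀ (pd (lb l A))) *
          U1 (c.P W δ) c.x L t₀ ^ 2) ^ 2 *
            (ga gg A / (c.κ W * rt (A.image Prod.fst) * (u * Real.log c.x))) := by
            apply mul_le_mul e1 e2 _ (by positivity)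
            apply div_nonneg hga
            exact le_trans (by positivity) hNz
        _ = _ := by
            field_simp
    refine (sum_le_sum h3).trans ?_
    rw [← mul_sum]
    have h4 := tuple_leU c.x L D₀ (c.P W δ) t₀ i j hij (by omega)
      (fun p hp => ⟨hP p hp, (hPf p hp).2.2.1⟩)
    calc (U1 (c.P W δ) c.x L t₀ ^ 4 / (c.κ W * (u * Real.log c.x))) *
          ∑ A ∈ (LS K (c.P W δ)).filter (fun A => ∀ q ∈ A, q.2 ≠ i ∧ q.2 ≠ j),
          ((∏ l ∈ (univ.erase i).erase j, yy c.x L t₀ (pd (lb l A))) ^ 2 *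
          (ga gg A / rt (A.image Prod.fst)))
        ≤ (U1 (c.P W δ) c.x L t₀ ^ 4 / (c.κ W * (u * Real.log c.x))) *
          (g * U2 (c.P W δ) c.x L t₀ ^ (K - 2)) := by
          gcongr
      _ = g * U / (c.κ W * (u * Real.log c.x)) := by rw [hUdef]; ring
  have hN0 : 0 ≤ c.N i / Nat.totient (c.a i * W) := by
    apply div_nonneg _ (Nat.cast_nonneg _)
    unfold Cfg.N
    rw [sub_nonneg]
    exact_mod_cast Nat.monotone_primeCounting (by
      have : c.a i * c.x ≤ c.a i * (2 * c.x) := Nat.mul_le_mul_left _ (by omega)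
      omega)
  have hB0 : 0 ≤ g * U / (c.κ W * (u * Real.log c.x)) := by positivity
  have h6 : c.N i / Nat.totient (c.a i * W) * c.q2 W s * Q ≤
      (1 + ε) * c.X W * c.q2 W s * (g * U / (c.κ W * (u * Real.log c.x))) := by
    have e1 : c.N i / Nat.totient (c.a i * W) * c.q2 W s ≤ (1 + ε) * c.X W * c.q2 W s :=
      mul_le_mul_of_nonneg_right hN hq2.le
    calc c.N i / Nat.totient (c.a i * W) * c.q2 W s * Q
        ≤ c.N i / Nat.totient (c.a i * W) * c.q2 W s * (g * U / (c.κ W * (u * Real.log c.x))) :=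
          mul_le_mul_of_nonneg_left hQ (mul_nonneg hN0 hq2.le)
      _ ≤ _ := mul_le_mul_of_nonneg_right e1 hB0
  have h7 : (2 ^ K * (C₁ * Real.log c.x) ^ 2) ^ 2 * c.x / Real.log c.x ^ (K + 8) ≤
      ε * c.X W * c.q2 W s * U / (c.κ W * (u * Real.log c.x)) := by
    have e1 : (2 ^ K * (C₁ * Real.log c.x) ^ 2) ^ 2 * c.x / Real.log c.x ^ (K + 8) =
        (4 ^ K * C₁ ^ 4 * Nat.totient W / Real.log c.x) *
          (c.X W * (1 / Real.log c.x ^ (K + 1))) / Real.log c.x := by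
      have e2 : ((2 : ℝ) ^ K) ^ 2 = 4 ^ K := by rw [← pow_mul, mul_comm, pow_mul]; norm_num
      have e3 : (2 ^ K * (C₁ * Real.log c.x) ^ 2) ^ 2 = 4 ^ K * C₁ ^ 4 * Real.log c.x ^ 4 := by
        rw [mul_pow, e2]; ring
      rw [e3]
      unfold Cfg.X
      have : Real.log c.x ≠ 0 := by positivity
      field_simp
      ring
    rw [e1]
    have e4 : 4 ^ K * C₁ ^ 4 * Nat.totient W / Real.log c.x ≤ ε := by
      rw [div_le_iff₀ (by positivity)]
      have e5 : 4 ^ K * C₁ ^ 4 * Nat.totient W / ε ≤ Real.log c.x := by linarith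
      rw [div_le_iff₀ hε] at e5
      linarith
    have e6 : c.κ W * (u * Real.log c.x) ≤ Real.log c.x := by
      have : c.κ W * u ≤ 1 := mul_le_one₀ k2 hu0.le hu1
      nlinarith
    calc (4 ^ K * C₁ ^ 4 * Nat.totient W / Real.log c.x) *
          (c.X W * (1 / Real.log c.x ^ (K + 1))) / Real.log c.x
        ≤ ε * (c.X W * c.q2 W s) / Real.log c.x := by
          gcongr
          exact q1'.trans q2'
      _ = ε * c.X W * c.q2 W s * 1 / Real.log c.x := by ring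
      _ ≤ ε * c.X W * c.q2 W s * U / Real.log c.x := by gcongr
      _ ≤ ε * c.X W * c.q2 W s * U / (c.κ W * (u * Real.log c.x)) := by
          apply div_le_div_of_nonneg_left (by positivity) hden e6
  calc S ≤ (1 + ε) * c.X W * c.q2 W s * (g * U / (c.κ W * (u * Real.log c.x))) +
        ε * c.X W * c.q2 W s * U / (c.κ W * (u * Real.log c.x)) := by linarith
    _ = ((1 + ε) * g + ε) * c.X W * c.q2 W s *
          U1 (c.P W δ) c.x L t₀ ^ 4 * U2 (c.P W δ) c.x L t₀ ^ (K - 2) /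
            (c.κ W * (u * Real.log c.x)) := by
        rw [hUdef]
        ring

end Pool.Agent.Work.MP_70e905_nt.MT
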