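import Mathlib
import Pool.Agent.Work.MP_70e905_nt.MT.F0
import Pool.Agent.Work.MP_70e905_nt.MT.M0

set_option autoImplicit false

/-!
MODULE F2 (upper bound of Nz), size M.
C₀ = 2 * (constant of mert_inv, M0). A set S ⊆ c.P W δ with pd S ≤ x^t has all its primes ≤ x^t, so
Nz ≤ prod over p ∈ P, p ≤ x^t of (1 + gg p) and 1 + gg p = (1 - 1/p)⁻¹. The primes ≤ x^t are the disjoint union of
(a superset of) those of c.P W δ and of T' = the primes p ≤ x^t with p ∣ W or bd; so the product is at most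
(rt (primes ≤ x^t))⁻¹ * rt T' ≤ (C₀ / 2) * t * log x * rt T' (mert_inv, x^t ≥ 2), and with T the set of κ
(x^t ≤ x): κ = rt T = rt T' * rt (T \ T') and T \ T' are the elements of T larger than x^t:
rt (T \ T') ≥ 1 - sum of 1/p ≥ 1 - C' log x / (x^τ τ log x) ≥ 1/2 (rt_ge, bad_sum of F0 with y = x^t ≥ x^τ) for large x.
-/

namespace Pool.Agent.Work.MP_70e905_nt.MT

open Finset Pool.Agent.Work.MP_73869e_nt.TH

private theorem f2_HH_nonneg (S : Finset ℕ) (hS : ∀ p ∈ S, p.Prime) : 0 ≤ HH S := by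
  unfold HH
  refine Finset.prod_nonneg fun p hp => ?_
  unfold gg
  have h1 : (1 : ℝ) ≤ p := by exact_mod_cast (hS p hp).one_lt.le
  exact div_nonneg zero_le_one (by linarith)

private theorem f2_rt_pos (S : Finset ℕ) (hS : ∀ p ∈ S, p.Prime) : 0 < rt S := by
  unfold rt
  refine Finset.prod_pos fun p hp => ?_
  have h1 : (1 : ℝ) < p := by exact_mod_cast (hS p hp).one_lt
  have h2 : 1 / (p : ℝ) < 1 := by
    rw [div_lt_one (by linarith)]
    exact h1
  linarith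

/-- the product bound -/
private theorem f2_prod (P : Finset ℕ) (hP : ∀ p ∈ P, p.Prime) (z : ℝ) :
    Nz P z ≤ (rt (P.filter (fun p : ℕ => (p : ℝ) ≤ z)))⁻¹ := by
  set P' := P.filter (fun p : ℕ => (p : ℝ) ≤ z) with hP'
  have hPp : ∀ p ∈ P', p.Prime := fun p hp => hP p (Finset.mem_filter.1 hp).1
  have h1 : Nz P z ≤ ∑ S ∈ P'.powerset, HH S := by
    unfold Nz
    refine Finset.sum_le_sum_of_subset_of_nonneg ?_ ?_
    · intro S hS
      rw [mem_filter, mem_powerset] at hS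
      rw [mem_powerset]
      intro p hp
      rw [hP', Finset.mem_filter]
      refine ⟨hS.1 hp, le_trans ?_ hS.2⟩
      have h2 : p ∣ pd S := Finset.dvd_prod_of_mem (fun p => p) hp
      have h3 : 0 < pd S := Finset.prod_pos fun q hq => (hP q (hS.1 hq)).pos
      exact_mod_cast Nat.le_of_dvd h3 h2
    · intro S hS _
      exact f2_HH_nonneg S fun p hp => hPp p (mem_powerset.1 hS hp)
  refine h1.trans (le_of_eq ?_)
  have h2 : ∏ p ∈ P', (1 + gg p) = ∑ S ∈ P'.powerset, HH S := by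
    unfold HH
    exact Finset.prod_one_add (f := gg) P'
  rw [← h2]
  unfold rt
  rw [← Finset.prod_inv_distrib]
  refine Finset.prod_congr rfl fun p hp => ?_
  have h3 : (1 : ℝ) < p := by exact_mod_cast (hPp p hp).one_lt
  unfold gg
  have h4 : (p : ℝ) - 1 ≠ 0 := by linarith
  have h5 : (p : ℝ) ≠ 0 := by linarith
  have h6 : 1 - 1 / (p : ℝ) = (p - 1) / p := by field_simp
  rw [h6, inv_div]
  field_simp
  ring

theorem Nz_up : ∃ C₀ : ℝ, 1 ≤ C₀ ∧ ∀ (K D₀ W A₀ C : ℕ) (δ τ : ℝ), 0 < τ → ∃ X₀ : ℕ,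
    ∀ c : Cfg K, c.Ok D₀ W A₀ C → X₀ ≤ c.x → ∀ t : ℝ, τ ≤ t → t ≤ 1 →
      Nz (c.P W δ) ((c.x : ℝ) ^ t) ≤ C₀ * (c.κ W * Real.log c.x) * t := by
  obtain ⟨CM, hCM1, hCM⟩ := mert_inv
  refine ⟨2 * CM, by linarith, ?_⟩
  intro K D₀ W A₀ C δ τ hτ
  obtain ⟨C', X₁, hbad⟩ := bad_sum K D₀ W A₀ C
  have ht1 : Filter.Tendsto (fun x : ℕ => (x : ℝ) ^ τ) Filter.atTop Filter.atTop :=
    (tendsto_rpow_atTop hτ).comp tendsto_natCast_atTop_atTop
  obtain ⟨X₂, hX₂⟩ := Filter.eventually_atTop.1 (ht1.eventually_ge_atTop (max 2 (2 * C' / τ)))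
  refine ⟨max X₁ (max X₂ 2), fun c hc hx t hτt ht1' => ?_⟩
  have hx1 : X₁ ≤ c.x := le_trans (le_max_left _ _) hx
  have hx2 : X₂ ≤ c.x := le_trans (le_trans (le_max_left _ _) (le_max_right _ _)) hx
  have hx3 : 2 ≤ c.x := le_trans (le_trans (le_max_right _ _) (le_max_right _ _)) hx
  have hxr : (1 : ℝ) < c.x := by exact_mod_cast hx3
  have hlx : 0 < Real.log c.x := Real.log_pos hxr
  have ht0 : 0 < t := hτ.trans_le hτt
  set y : ℝ := (c.x : ℝ) ^ t with hy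
  have hyτ : (c.x : ℝ) ^ τ ≤ y := Real.rpow_le_rpow_of_exponent_le hxr.le hτt
  have hy2 : 2 ≤ y := (le_max_left _ _).trans ((hX₂ c.x hx2).trans hyτ)
  have hyC : 2 * C' / τ ≤ y := (le_max_right _ _).trans ((hX₂ c.x hx2).trans hyτ)
  have hlogy : Real.log y = t * Real.log c.x := Real.log_rpow (by linarith) t
  set Q := (Icc 1 ⌊y⌋₊).filter Nat.Prime with hQ
  set T := (Icc 1 c.x).filter (fun p => p.Prime ∧ (p ∣ W ∨ bd c.a c.b p)) with hT
  set T' := Q.filter (fun p => p ∣ W ∨ bd c.a c.b p) with hT'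
  set T3 := T.filter (fun p : ℕ => y < (p : ℝ)) with hT3
  have hQp : ∀ p ∈ Q, p.Prime := fun p hp => (Finset.mem_filter.1 hp).2
  have hPp : ∀ p ∈ c.P W δ, p.Prime := fun p hp => by
    unfold Cfg.P Cfg.PZ at hp
    exact (Finset.mem_filter.1 hp).2.1
  -- upper bound by a product
  have h1 := f2_prod (c.P W δ) hPp y
  have hsub1 : (c.P W δ).filter (fun p : ℕ => (p : ℝ) ≤ y) ⊆ Q \ T' := by
    intro p hp
    rw [Finset.mem_filter] at hp
    obtain ⟨hp1, hp2⟩ := hp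
    unfold Cfg.P Cfg.PZ at hp1
    rw [Finset.mem_filter, Finset.mem_Icc] at hp1
    rw [Finset.mem_sdiff, hQ, Finset.mem_filter, Finset.mem_Icc]
    refine ⟨⟨⟨hp1.1.1, Nat.le_floor hp2⟩, hp1.2.1⟩, fun h => ?_⟩
    rcases (Finset.mem_filter.1 h).2 with h3 | h3
    · exact hp1.2.2.1 h3
    · exact hp1.2.2.2 h3
  have h2 : (rt ((c.P W δ).filter (fun p : ℕ => (p : ℝ) ≤ y)))⁻¹ ≤ (rt (Q \ T'))⁻¹ := by
    refine inv_anti₀ ?_ (rt_anti _ _ hsub1)
    exact f2_rt_pos _ fun p hp => hQp p (Finset.mem_sdiff.1 hp).1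
  have h3 : (rt (Q \ T'))⁻¹ = rt T' * (rt Q)⁻¹ := by
    have e1 : rt (Q \ T') * rt T' = rt Q := by
      unfold rt
      exact Finset.prod_sdiff (Finset.filter_subset _ _)
    have p1 := f2_rt_pos (Q \ T') fun p hp => hQp p (Finset.mem_sdiff.1 hp).1
    have p2 := f2_rt_pos T' fun p hp => hQp p (Finset.mem_filter.1 hp).1
    rw [← e1]
    field_simp
  have h4 := hCM y hy2
  -- comparison with kappa
  have hb := hbad c hc hx1 y hy2
  have h5 : 1 / 2 ≤ rt T3 := by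
    have h6 := rt_ge T3
    have h7 : C' * Real.log c.x / (y * Real.log y) ≤ 1 / 2 := by
      rw [div_le_div_iff₀ (by rw [hlogy]; positivity) (by norm_num), hlogy]
      rw [div_le_iff₀ hτ] at hyC
      have h8 : 2 * C' ≤ y * t := hyC.trans (mul_le_mul_of_nonneg_left hτt (by linarith))
      have h9 := mul_le_mul_of_nonneg_right h8 hlx.le
      linarith
    linarith
  have hsub2 : T ⊆ T' ∪ T3 := by
    intro p hp
    have hp' := hp
    rw [hT, Finset.mem_filter, Finset.mem_Icc] at hp'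
    rw [Finset.mem_union]
    rcases le_or_gt (p : ℝ) y with h6 | h6
    · refine Or.inl (Finset.mem_filter.2 ⟨Finset.mem_filter.2 ⟨Finset.mem_Icc.2
        ⟨hp'.1.1, Nat.le_floor h6⟩, hp'.2.1⟩, hp'.2.2⟩)
    · exact Or.inr (Finset.mem_filter.2 ⟨hp, h6⟩)
  have h6 : rt T' * rt T3 ≤ c.κ W := (f0_rt_union T' T3).trans (rt_anti _ _ hsub2)
  have h7 : rt T' ≤ 2 * c.κ W := by
    have h8 := mul_le_mul_of_nonneg_left h5 (rt_01 T').1
    linarith
  have h8 : 0 ≤ (rt Q)⁻¹ := inv_nonneg.2 (rt_01 Q).1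
  rw [hlogy] at h4
  calc Nz (c.P W δ) y ≤ (rt (Q \ T'))⁻¹ := h1.trans h2
    _ = rt T' * (rt Q)⁻¹ := h3
    _ ≤ (2 * c.κ W) * (CM * (t * Real.log c.x)) :=
        mul_le_mul h7 h4 h8 (by have := (kappa_01 c W).1; positivity)
    _ = 2 * CM * (c.κ W * Real.log c.x) * t := by ring

end Pool.Agent.Work.MP_70e905_nt.MT
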