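import Mathlib
import Pool.Agent.Work.MP_70e905_nt.MT.Defs

set_option autoImplicit false

/-!
MODULE G1 (Cauchy-Schwarz over the clusters; numerical contradiction), size S-M.
cluster: let N z = number of i with pr z i. sum_i sum_{z, pr z i} w z = sum_z w z N z; by Cauchy-Schwarz
(Finset.sum_mul_sq_le_sq_mul_sq with sqrt (w z) and sqrt (w z) N z, or Finset.sum_sq_le_sum_mul_sum_of_sq_eq_mul)
its square is ≤ (sum_z w z) (sum_z w z (N z)^2), and w z (N z)^2 = sum over pairs (i, j) with pr z i, pr z j: the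
pairs i = j give the second sum, the pairs i ≠ j have cl i = cl j by hno.
num: V ≥ K T2 ≥ 0. If T2 = 0 then V ≥ 0 and 6 T1 ≤ 0, contradiction. V^2 ≤ S0 (V + E3) ≤ T1 (V + K m T3), and
T1 K m T3 = (K^2 / 5) T1 T3 ≤ (K^2 / 5) (41 / 10) T2^2 ≤ (82 / 100) V^2. So (18 / 100) V^2 ≤ T1 V, V ≤ (100 / 18) T1 < 6 T1 ≤ V.
-/

namespace Pool.Agent.Work.MP_70e905_nt.MT

open Finset Pool.Agent.Work.MP_73869e_nt.TH

theorem cluster {K : ℕ} (dom : Finset ℕ) (w : ℕ → ℝ) (hw : ∀ z, 0 ≤ w z) (cl : Fin K → ℕ)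
    (q : ℕ → Fin K → Prop) [∀ z i, Decidable (q z i)]
    (hno : ∀ z ∈ dom, ∀ i j, cl i ≠ cl j → q z i → ¬ q z j) :
    (∑ i, ∑ z ∈ dom.filter (fun z => q z i), w z) ^ 2 ≤
      (∑ z ∈ dom, w z) * (∑ i, ∑ z ∈ dom.filter (fun z => q z i), w z +
        ∑ i, ∑ j ∈ univ.filter (fun j => i ≠ j ∧ cl i = cl j),
          ∑ z ∈ dom.filter (fun z => q z i ∧ q z j), w z) := by
  classical
  set N : ℕ → ℝ := fun z => ∑ i, if q z i then (1 : ℝ) else 0 with hN
  have h1 : ∑ i, ∑ z ∈ dom.filter (fun z => q z i), w z = ∑ z ∈ dom, w z * N z := by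
    simp only [Finset.sum_filter]
    rw [Finset.sum_comm]
    refine Finset.sum_congr rfl fun z _ => ?_
    rw [hN]
    simp only [Finset.mul_sum, mul_ite, mul_one, mul_zero]
  have h2 : ∑ i, ∑ z ∈ dom.filter (fun z => q z i), w z +
        ∑ i, ∑ j ∈ univ.filter (fun j => i ≠ j ∧ cl i = cl j),
          ∑ z ∈ dom.filter (fun z => q z i ∧ q z j), w z = ∑ z ∈ dom, w z * N z ^ 2 := by
    have e1 : ∑ i, ∑ z ∈ dom.filter (fun z => q z i), w z =
        ∑ z ∈ dom, ∑ i, if q z i then w z else 0 := by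
      simp only [Finset.sum_filter]
      rw [Finset.sum_comm]
    have e2 : ∑ i, ∑ j ∈ univ.filter (fun j => i ≠ j ∧ cl i = cl j),
          ∑ z ∈ dom.filter (fun z => q z i ∧ q z j), w z =
        ∑ z ∈ dom, ∑ i, ∑ j, if (i ≠ j ∧ cl i = cl j) then
          (if q z i ∧ q z j then w z else 0) else 0 := by
      rw [Finset.sum_comm]
      refine Finset.sum_congr rfl fun i _ => ?_
      rw [Finset.sum_filter, Finset.sum_comm]
      refine Finset.sum_congr rfl fun j _ => ?_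
      split_ifs with h
      · rw [Finset.sum_filter]
      · simp
    rw [e1, e2, ← Finset.sum_add_distrib]
    refine Finset.sum_congr rfl fun z hz => ?_
    rw [← Finset.sum_add_distrib, hN, sq, Finset.sum_mul_sum, Finset.mul_sum]
    refine Finset.sum_congr rfl fun i _ => ?_
    have e3 : (if q z i then w z else 0) = ∑ j, if i = j then (if q z i then w z else 0) else 0 := by
      rw [Finset.sum_ite_eq]
      simp
    rw [e3, ← Finset.sum_add_distrib, Finset.mul_sum]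
    refine Finset.sum_congr rfl fun j _ => ?_
    by_cases hij : i = j
    · subst hij
      by_cases hi : q z i <;> simp [hi]
    · by_cases hi : q z i
      · by_cases hj : q z j
        · have hc : cl i = cl j := by
            by_contra hc
            exact hno z hz i j hc hi hj
          simp [hi, hj, hij, hc]
        · simp [hj, hij]
      · simp [hi, hij]
  rw [h2, h1]
  have h3 := Finset.sum_mul_sq_le_sq_mul_sq dom (fun z => √(w z)) (fun z => √(w z) * N z)
  have e4 : ∀ z, √(w z) * (√(w z) * N z) = w z * N z := by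
    intro z
    rw [← mul_assoc, Real.mul_self_sqrt (hw z)]
  have e5 : ∀ z, √(w z) ^ 2 = w z := fun z => Real.sq_sqrt (hw z)
  have e6 : ∀ z, (√(w z) * N z) ^ 2 = w z * N z ^ 2 := by
    intro z
    rw [mul_pow, Real.sq_sqrt (hw z)]
  simp only [e4, e5, e6] at h3
  exact h3

theorem num (K m : ℕ) (hKm : K = 5 * m) (S0 V E3 T1 T2 T3 : ℝ) (hS0 : 0 ≤ S0) (hT1 : 0 < T1)
    (hT2 : 0 ≤ T2) (hT3 : 0 ≤ T3) (h0 : S0 ≤ T1) (hV : K * T2 ≤ V) (hC : V ^ 2 ≤ S0 * (V + E3))
    (hE3 : E3 ≤ K * m * T3) (hT : T1 * T3 ≤ 41 / 10 * T2 ^ 2) (h6 : 6 * T1 ≤ K * T2) : False := by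
  have hVpos : 0 < V := by linarith
  have hK : (K : ℝ) = 5 * m := by
    rw [hKm]
    push_cast
    ring
  have hVE : 0 ≤ V + E3 := by
    by_contra hcon
    push Not at hcon
    have : S0 * (V + E3) ≤ 0 := mul_nonpos_of_nonneg_of_nonpos hS0 hcon.le
    nlinarith
  have h1 : V ^ 2 ≤ T1 * (V + E3) := hC.trans (mul_le_mul_of_nonneg_right h0 hVE)
  have h2 : T1 * E3 ≤ T1 * (K * m * T3) := mul_le_mul_of_nonneg_left hE3 hT1.le
  have h3 : T1 * (K * m * T3) = (K : ℝ) ^ 2 / 5 * (T1 * T3) := by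
    have : (m : ℝ) = K / 5 := by rw [hK]; ring
    rw [this]
    ring
  have h4 : (K : ℝ) ^ 2 / 5 * (T1 * T3) ≤ (K : ℝ) ^ 2 / 5 * (41 / 10 * T2 ^ 2) :=
    mul_le_mul_of_nonneg_left hT (by positivity)
  have h5 : ((K : ℝ) * T2) ^ 2 ≤ V ^ 2 := by
    have : (0 : ℝ) ≤ K * T2 := by positivity
    exact pow_le_pow_left₀ this hV 2
  have h7 : 9 / 50 * V ^ 2 ≤ T1 * V := by nlinarith
  have h8 : 9 / 50 * V ≤ T1 := by nlinarith
  linarith

end Pool.Agent.Work.MP_70e905_nt.MT
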