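import Mathlib
import Pool.Agent.Work.MP_70e905_nt.MT.Defs

set_option autoImplicit false

/-!
MODULE G2 (the inequalities between the three main terms), size M. Pure algebra with positive reals.
Meaning: rW = φ(W)/W, r = rt P₀, k = κ, lx = log x, X = x / (φ(W) lx), so X * rW * lx = x / W = xW; q1 = q2 r;
rW * r ≤ (1 + ε) k; g = exp(2 K / D₀) ≤ 1 + ε; ε = δ = 1/1000.
T1 = (g + ε) xW q1 U2^K, T2 = (1 - 4 ε) X q2 U1^2 U2^(K-1), T3 = ((1 + ε) g + ε) X q2 U1^4 U2^(K-2) / (k (1/4 - 2 δ) lx).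
ineq_T: T1 T3 = (g + ε)((1 + ε) g + ε) X^2 q2^2 U1^4 U2^(2K-2) * (rW r / k) / (1/4 - 2/1000) (the powers of U2:
U2^K U2^(K-2) = U2^(2K-2) = (U2^(K-1))^2, K ≥ 2), and (g + ε)((1 + ε) g + ε)(1 + ε) / 0.248 ≤
1.002 * 1.003001 * 1.001 / 0.248 < 4.0566 < 4.0672 < (41/10) (996/1000)^2.
ineq_6: K T2 / T1 = K (1 - 4 ε) U1^2 / ((g + ε) rW lx r U2) ≥ K (1 - 4 ε) U1^2 / ((g + ε) (1 + ε) k lx U2), and U1 ≥ k lx L t₀,
U2 ≤ 8 C₀ k lx t₀, so K T2 / T1 ≥ (0.99) K L^2 t₀ / (8 C₀) = 0.99 L ε δ / (64 C₀^2) ≥ 6 for t₀ = ε δ / (8 K C₀ L) and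
L ≥ 5 * 10^8 * C₀^2.
-/

namespace Pool.Agent.Work.MP_70e905_nt.MT

theorem ineq_T (K : ℕ) (hK : 2 ≤ K) (g rW' r k lx X q2 U1' U2' : ℝ) (hg : 1 ≤ g) (hg' : g ≤ 1 + 1 / 1000)
    (hrW : 0 < rW') (hr : 0 ≤ r) (hk : 0 < k) (hlx : 0 < lx) (hX : 0 < X) (hq2 : 0 ≤ q2) (hU1 : 0 < U1')
    (hU2 : 0 < U2') (hrk : rW' * r ≤ (1 + 1 / 1000) * k) :
    (g + 1 / 1000) * (X * rW' * lx) * (q2 * r) * U2' ^ K *
        (((1 + 1 / 1000) * g + 1 / 1000) * X * q2 * U1' ^ 4 * U2' ^ (K - 2) /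
          (k * ((1 / 4 - 2 * (1 / 1000)) * lx))) ≤
      41 / 10 * ((1 - 4 * (1 / 1000)) * X * q2 * U1' ^ 2 * U2' ^ (K - 1)) ^ 2 := by
  obtain ⟨n, rfl⟩ : ∃ n, K = n + 2 := ⟨K - 2, by omega⟩
  have e1 : n + 2 - 2 = n := by omega
  have e2 : n + 2 - 1 = n + 1 := by omega
  rw [e1, e2]
  set M : ℝ := X ^ 2 * q2 ^ 2 * U1' ^ 4 * (U2' ^ (n + 1)) ^ 2 with hM
  have hM0 : 0 ≤ M := by positivity
  have e3 : (g + 1 / 1000) * (X * rW' * lx) * (q2 * r) * U2' ^ (n + 2) *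
        (((1 + 1 / 1000) * g + 1 / 1000) * X * q2 * U1' ^ 4 * U2' ^ n /
          (k * ((1 / 4 - 2 * (1 / 1000)) * lx))) =
      (g + 1 / 1000) * ((1 + 1 / 1000) * g + 1 / 1000) * (rW' * r / k) /
        (1 / 4 - 2 * (1 / 1000)) * M := by
    rw [hM]
    field_simp
    ring
  have e4 : 41 / 10 * ((1 - 4 * (1 / 1000)) * X * q2 * U1' ^ 2 * U2' ^ (n + 1)) ^ 2 =
      41 / 10 * (1 - 4 * (1 / 1000)) ^ 2 * M := by
    rw [hM]
    ring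
  rw [e3, e4]
  refine mul_le_mul_of_nonneg_right ?_ hM0
  have h1 : rW' * r / k ≤ 1 + 1 / 1000 := by
    rw [div_le_iff₀ hk]
    exact hrk
  have h0 : 0 ≤ rW' * r / k := by positivity
  have h2 : (g + 1 / 1000) * ((1 + 1 / 1000) * g + 1 / 1000) ≤
      (1 + 1 / 1000 + 1 / 1000) * ((1 + 1 / 1000) * (1 + 1 / 1000) + 1 / 1000) := by
    refine mul_le_mul (by linarith) (by linarith) (by positivity) (by norm_num)
  have h3 : (g + 1 / 1000) * ((1 + 1 / 1000) * g + 1 / 1000) * (rW' * r / k) ≤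
      (1 + 1 / 1000 + 1 / 1000) * ((1 + 1 / 1000) * (1 + 1 / 1000) + 1 / 1000) *
        (1 + 1 / 1000) :=
    mul_le_mul h2 h1 h0 (by norm_num)
  rw [div_le_iff₀ (by norm_num)]
  refine h3.trans ?_
  norm_num

theorem ineq_6 (K L : ℕ) (hK : 1 ≤ K) (C₀ t₀ g rW' r k lx X q2 U1' U2' : ℝ) (hC₀ : 1 ≤ C₀)
    (hL : 5 * 10 ^ 8 * C₀ ^ 2 ≤ L) (ht₀ : t₀ = 1 / 1000 * (1 / 1000) / (8 * K * C₀ * L)) (hg : 1 ≤ g)
    (hg' : g ≤ 1 + 1 / 1000) (hrW : 0 < rW') (hr : 0 ≤ r) (hk : 0 < k) (hlx : 0 < lx) (hX : 0 < X)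
    (hq2 : 0 ≤ q2) (hU1 : k * lx * L * t₀ ≤ U1') (hU2 : 0 < U2') (hU2' : U2' ≤ 8 * (C₀ * (k * lx)) * t₀)
    (hrk : rW' * r ≤ (1 + 1 / 1000) * k) :
    6 * ((g + 1 / 1000) * (X * rW' * lx) * (q2 * r) * U2' ^ K) ≤
      K * ((1 - 4 * (1 / 1000)) * X * q2 * U1' ^ 2 * U2' ^ (K - 1)) := by
  obtain ⟨n, rfl⟩ : ∃ n, K = n + 1 := ⟨K - 1, by omega⟩
  have e2 : n + 1 - 1 = n := by omega
  rw [e2]
  have hKp : (0 : ℝ) < ((n + 1 : ℕ) : ℝ) := by positivity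
  have hLp : (0 : ℝ) < L := lt_of_lt_of_le (by positivity) hL
  have ht0 : 0 < t₀ := by
    rw [ht₀]
    positivity
  set κ : ℝ := ((n + 1 : ℕ) : ℝ) with hκ
  -- remove the common factor
  have hM0 : 0 ≤ X * q2 * U2' ^ n := by positivity
  have key : 6 * ((g + 1 / 1000) * lx * (rW' * r) * U2') ≤
      κ * ((1 - 4 * (1 / 1000)) * U1' ^ 2) := by
    have a1 : (g + 1 / 1000) * lx * (rW' * r) * U2' ≤
        (1 + 2 / 1000) * lx * ((1 + 1 / 1000) * k) * (8 * (C₀ * (k * lx)) * t₀) := by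
      have b1 : (g + 1 / 1000) * lx ≤ (1 + 2 / 1000) * lx :=
        mul_le_mul_of_nonneg_right (by linarith) hlx.le
      have b2 : (g + 1 / 1000) * lx * (rW' * r) ≤ (1 + 2 / 1000) * lx * ((1 + 1 / 1000) * k) :=
        mul_le_mul b1 hrk (by positivity) (by positivity)
      exact mul_le_mul b2 hU2' hU2.le (by positivity)
    have a2 : (k * lx * L * t₀) ^ 2 ≤ U1' ^ 2 :=
      pow_le_pow_left₀ (by positivity) hU1 2
    have a3 : κ * C₀ * L * t₀ = 1 / 8000000 := by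
      rw [ht₀]
      field_simp
      norm_num
    have a4 : 6 * ((1 + 2 / 1000) * lx * ((1 + 1 / 1000) * k) * (8 * (C₀ * (k * lx)) * t₀)) ≤
        κ * ((1 - 4 * (1 / 1000)) * (k * lx * L * t₀) ^ 2) := by
      have c1 : κ * ((1 - 4 * (1 / 1000)) * (k * lx * L * t₀) ^ 2) =
          (1 - 4 * (1 / 1000)) * (k * lx) ^ 2 * t₀ * (L / C₀) * (κ * C₀ * L * t₀) := by
        field_simp
      rw [c1, a3]
      have c2 : 5 * 10 ^ 8 * C₀ ≤ L / C₀ := by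
        rw [le_div_iff₀ (by linarith)]
        linarith
      have c3 : 6 * ((1 + 2 / 1000) * lx * ((1 + 1 / 1000) * k) * (8 * (C₀ * (k * lx)) * t₀)) =
          (48 * (1 + 2 / 1000) * (1 + 1 / 1000)) * C₀ * ((k * lx) ^ 2 * t₀) := by ring
      have c4 : (1 - 4 * (1 / 1000)) * (k * lx) ^ 2 * t₀ * (L / C₀) * (1 / 8000000) =
          ((1 - 4 * (1 / 1000)) / 8000000) * (L / C₀) * ((k * lx) ^ 2 * t₀) := by ring
      rw [c3, c4]
      refine mul_le_mul_of_nonneg_right ?_ (by positivity)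
      have c5 : ((1 - 4 * (1 / 1000)) / 8000000) * (5 * 10 ^ 8 * C₀) ≤
          ((1 - 4 * (1 / 1000)) / 8000000) * (L / C₀) :=
        mul_le_mul_of_nonneg_left c2 (by norm_num)
      refine le_trans ?_ c5
      have : (48 * (1 + 2 / 1000) * (1 + 1 / 1000)) * C₀ ≤
          ((1 - 4 * (1 / 1000)) / 8000000) * (5 * 10 ^ 8) * C₀ :=
        mul_le_mul_of_nonneg_right (by norm_num) (by linarith)
      linarith
    calc _ ≤ 6 * ((1 + 2 / 1000) * lx * ((1 + 1 / 1000) * k) * (8 * (C₀ * (k * lx)) * t₀)) := by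
          linarith
      _ ≤ _ := a4
      _ ≤ _ := by
          refine mul_le_mul_of_nonneg_left ?_ hKp.le
          exact mul_le_mul_of_nonneg_left a2 (by norm_num)
  have e5 : 6 * ((g + 1 / 1000) * (X * rW' * lx) * (q2 * r) * U2' ^ (n + 1)) =
      6 * ((g + 1 / 1000) * lx * (rW' * r) * U2') * (X * q2 * U2' ^ n) := by ring
  have e6 : κ * ((1 - 4 * (1 / 1000)) * X * q2 * U1' ^ 2 * U2' ^ n) =
      κ * ((1 - 4 * (1 / 1000)) * U1' ^ 2) * (X * q2 * U2' ^ n) := by ring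
  rw [e5, e6]
  exact mul_le_mul_of_nonneg_right key hM0

end Pool.Agent.Work.MP_70e905_nt.MT
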