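import Mathlib
import Pool.Agent.Work.MP_70e905_nt.MT.A7
import Pool.Agent.Work.MP_70e905_nt.MT.D1
import Pool.Agent.Work.MP_70e905_nt.MT.E2
import Pool.Agent.Work.MP_70e905_nt.MT.F2
import Pool.Agent.Work.MP_70e905_nt.MT.F3
import Pool.Agent.Work.MP_70e905_nt.MT.G1
import Pool.Agent.Work.MP_70e905_nt.MT.G2

set_option autoImplicit false

/-!
MODULE G3 (assembly for configurations), size M-L.
Constants: C₀ from Nz_up (F2), ε = δ = 1/1000, L = ⌈5 * 10^8 * C₀^2⌉, m = 2^L, K = 5 m, t₀ = ε δ / (8 K C₀ L), s = δ / (10 (K + 1)),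
D₀ = 8000 K^2 (so 8 K^2 ≤ ε D₀, K < D₀, 2 K / D₀ ≤ 1/4000, exp ≤ 1 + 1/1000). 2^L t₀ ≤ δ / 2.
s log (K + 1) ≤ s K ≤ 1/10; 2 s ≤ δ.
X₀ = maximum of those of E1_up (A7), E2_low (D1), E3_up (E2), Nz_up (F2, τ = t₀), kappa_ge (F0), q_ge (C6) and 3.
For a configuration with x ≥ X₀ suppose the conclusion fails. s12U (F3) with P = c.P W δ, v = δ / 2 (or δ), c = κ log x,
C = C₀ κ log x (Nz_low of F1, Nz_up): U1 ≥ κ log x L t₀, κ log x t₀ ≤ U2 ≤ 8 C₀ κ log x t₀, U2t ≤ 4 C₀ κ log x L t₀^2; hence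
2 K U2t ≤ ε δ U2 (2 K * 4 C₀ L t₀ = ε δ).
T1 = (g + ε) (x / W) q1 U2^K with g = exp (2 K / D₀), x / W = X * rW W * log x, q1 = q2 * rt P₀ (q1_eq);
E1_up: sum of w ≤ T1; E2_low: each ≥ T2 = (1 - 4 ε) X q2 U1^2 U2^(K-1); E3_up: each ≤ T3.
cluster (G1) with q z i = (c.a i * z + c.b i).Prime, cl i = i / m; hno is the negation of the conclusion.
For every i the number of j ≠ i with j / m = i / m is ≤ m, so E3 ≤ K m T3. ineq_T, ineq_6 (G2, with kappa_ge) and num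
(G1) give a contradiction. T1 > 0: q1 > 0 by q_ge.
-/

namespace Pool.Agent.Work.MP_70e905_nt.MT

open Finset Pool.Agent.Work.MP_73869e_nt.TH

private theorem G3_card (K m : ℕ) (hm : 0 < m) (i : Fin K) :
    #(univ.filter (fun j : Fin K => i ≠ j ∧ (i : ℕ) / m = (j : ℕ) / m)) ≤ m := by
  have h : #(univ.filter (fun j : Fin K => i ≠ j ∧ (i : ℕ) / m = (j : ℕ) / m)) ≤ #(range m) := by
    apply card_le_card_of_injOn (fun j : Fin K => (j : ℕ) % m)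
    · intro j _
      simp only [coe_range, Set.mem_Iio]
      exact Nat.mod_lt _ hm
    · intro j hj k hk hjk
      have hj' := (mem_filter.1 (mem_coe.1 hj)).2.2
      have hk' := (mem_filter.1 (mem_coe.1 hk)).2.2
      have h1 := Nat.div_add_mod (j : ℕ) m
      have h2 := Nat.div_add_mod (k : ℕ) m
      have h3 : (j : ℕ) % m = (k : ℕ) % m := hjk
      apply Fin.ext
      rw [← h1, ← h2, h3, ← hj', ← hk']
  simpa using h

private theorem G3_exp (K D₀ : ℕ) (hK : 1 ≤ K) (hD : D₀ = 8000 * K ^ 2) :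
    1 ≤ Real.exp (2 * K / D₀) ∧ Real.exp (2 * K / D₀) ≤ 1 + 1 / 1000 := by
  have hK' : (1 : ℝ) ≤ K := by exact_mod_cast hK
  have h1 : (2 * K / D₀ : ℝ) = 1 / (4000 * K) := by
    rw [hD]
    push_cast
    field_simp
    ring
  have h2 : (2 * K / D₀ : ℝ) ≤ 1 / 4000 := by
    rw [h1]
    apply one_div_le_one_div_of_le (by norm_num)
    linarith
  have h0 : 0 ≤ (2 * K / D₀ : ℝ) := by positivity
  refine ⟨Real.one_le_exp h0, ?_⟩
  have h3 := Real.exp_bound' h0 (h2.trans (by norm_num)) (n := 2) (by norm_num)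
  have h4 : ∑ m ∈ range 2, (2 * K / D₀ : ℝ) ^ m / m.factorial = 1 + 2 * K / D₀ := by
    simp [Finset.sum_range_succ]
  rw [h4] at h3
  have h5 : (2 * K / D₀ : ℝ) ^ 2 ≤ (1 / 4000) ^ 2 := by gcongr
  refine h3.trans ?_
  norm_num at h5 ⊢
  nlinarith

private theorem G3_core (hLD : ∀ t : ℝ, t < 1 / 2 → LD t) (hPNT : PNT) (C₀ : ℝ) (hC₀ : 1 ≤ C₀)
    (hN : ∀ (K D₀ W A₀ C : ℕ) (δ τ : ℝ), 0 < τ → ∃ X₀ : ℕ,
      ∀ c : Cfg K, c.Ok D₀ W A₀ C → X₀ ≤ c.x → ∀ t : ℝ, τ ≤ t → t ≤ 1 →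
      Nz (c.P W δ) ((c.x : ℝ) ^ t) ≤ C₀ * (c.κ W * Real.log c.x) * t)
    (K m L D₀ : ℕ) (hm : m = 2 ^ L) (hK : K = 5 * m) (hL : 5 * 10 ^ 8 * C₀ ^ 2 ≤ L)
    (hD : D₀ = 8000 * K ^ 2) (W A₀ C : ℕ) :
    ∃ X₀ : ℕ, ∀ c : Cfg K, c.Ok D₀ W A₀ C → X₀ ≤ c.x →
      ∃ z ∈ c.dom W, ∃ i j : Fin K, (i : ℕ) / m ≠ (j : ℕ) / m ∧
        (c.a i * z + c.b i).Prime ∧ (c.a j * z + c.b j).Prime := by
  have hm0 : 0 < m := by rw [hm]; positivity
  have hK1 : 1 ≤ K := by omega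
  have hK2 : 2 ≤ K := by omega
  have hKr : (1 : ℝ) ≤ K := by exact_mod_cast hK1
  have hL1 : 1 ≤ L := by
    have h1 : (1 : ℝ) ≤ C₀ ^ 2 := one_le_pow₀ hC₀
    have h2 : (1 : ℝ) ≤ L := by linarith
    exact_mod_cast h2
  have hLr : (1 : ℝ) ≤ L := by exact_mod_cast hL1
  have hC0 : 0 < C₀ := by linarith
  set t₀ : ℝ := 1 / 1000 * (1 / 1000) / (8 * K * C₀ * L) with ht₀
  have ht₀p : 0 < t₀ := by positivity
  set s : ℝ := 1 / 1000 / (10 * (K + 1)) with hs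
  have hsp : 0 < s := by positivity
  have hs1 : s ≤ 1 / 1000 / 10 := by
    rw [hs]
    apply div_le_div_of_nonneg_left (by norm_num) (by norm_num)
    linarith
  have hsK : s * Real.log (K + 1) ≤ 1 / 10 := by
    have h1 : Real.log ((K : ℝ) + 1) ≤ K + 1 := by
      have := Real.log_le_sub_one_of_pos (x := (K : ℝ) + 1) (by linarith)
      linarith
    calc s * Real.log (K + 1) ≤ s * (K + 1) := by gcongr
      _ = 1 / 10000 := by rw [hs]; field_simp; norm_num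
      _ ≤ 1 / 10 := by norm_num
  have hKD : K < D₀ := by
    rw [hD]
    nlinarith
  have h2' : 8 * (K : ℝ) ^ 2 ≤ 1 / 1000 * D₀ := by
    rw [hD]
    push_cast
    linarith [sq_nonneg (K : ℝ)]
  have hLδ : (2 : ℝ) ^ L * t₀ ≤ 1 / 1000 / 2 := by
    have h1 : (K : ℝ) = 5 * 2 ^ L := by rw [hK, hm]; push_cast; ring
    have h2 : (2 : ℝ) ^ L * t₀ = 1 / 1000 * (1 / 1000) / (40 * C₀ * L) := by
      rw [ht₀, h1]
      field_simp
      ring
    rw [h2]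
    rw [div_le_iff₀ (by positivity)]
    nlinarith
  obtain ⟨g1, g2⟩ := G3_exp K D₀ hK1 hD
  obtain ⟨X1, hX1⟩ := E1_up K L hL1 s (1 / 1000) t₀ (1 / 1000) hsp hsK (by norm_num) (by norm_num) ht₀p
    (by norm_num) D₀ W A₀ C hKD
  obtain ⟨X2, hX2⟩ := E2_low K L hK1 hL1 hLD hPNT s (1 / 1000) t₀ (1 / 1000) hsp (by linarith)
    (by norm_num) ht₀p hLδ (by norm_num) (by norm_num) D₀ W A₀ C h2'
  obtain ⟨X3, hX3⟩ := E3_up K L hL1 hLD hPNT s (1 / 1000) t₀ (1 / 1000) hsp (by linarith)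
    (by norm_num) ht₀p (by norm_num) D₀ W A₀ C hKD
  obtain ⟨X4, hX4⟩ := hN K D₀ W A₀ C (1 / 1000) t₀ ht₀p
  obtain ⟨X5, hX5⟩ := kappa_ge K s (1 / 1000) hsp (by norm_num) D₀ W A₀ C
  obtain ⟨X6, hX6⟩ := q_ge K s hsp
  refine ⟨max (max (max X1 X2) (max X3 X4)) (max (max X5 X6) 3), fun c hc hx => ?_⟩
  simp only [max_le_iff] at hx
  obtain ⟨⟨⟨x1, x2⟩, x3, x4⟩, ⟨x5, x6⟩, x7⟩ := hx
  by_contra hcon
  push Not at hcon
  have hxr : (3 : ℝ) ≤ c.x := by exact_mod_cast x7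
  have hlx : 0 < Real.log c.x := Real.log_pos (by linarith)
  obtain ⟨k1, k2⟩ := kappa_01 c W
  have hP : ∀ p ∈ c.P W (1 / 1000), p.Prime := fun p hp => by
    unfold Cfg.P Cfg.PZ at hp
    exact (mem_filter.1 hp).2.1
  have e1 := hX1 c hc x1
  have e3 := hX3 c hc x3
  have e5 := hX5 c hc x5
  obtain ⟨e6, e6'⟩ := hX6 c D₀ W A₀ C hc hKD x6
  obtain ⟨u1, u2, u3, u4⟩ := s12U (c.P W (1 / 1000)) c.x L t₀ (1 / 1000) (c.κ W * Real.log c.x)
    (C₀ * (c.κ W * Real.log c.x)) hP (by omega) ht₀p hL1 (hLδ.trans (by norm_num)) (by positivity)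
    (fun t h1 h2 => Nz_low c W (1 / 1000) t (by omega) (ht₀p.le.trans h1) h2 (by norm_num))
    (fun t h1 h2 => hX4 c hc x4 t h1 (h2.trans (by norm_num)))
  obtain ⟨v1, v2⟩ := U_ge_one (c.P W (1 / 1000)) hP c.x L t₀ (by omega) hL1 ht₀p.le
  set U1' := U1 (c.P W (1 / 1000)) c.x L t₀ with hU1'
  set U2' := U2 (c.P W (1 / 1000)) c.x L t₀ with hU2'
  set κ := c.κ W with hκ
  set lx := Real.log c.x with hlxd
  have h3 : 2 * K * U2t (c.P W (1 / 1000)) c.x L t₀ ≤ 1 / 1000 * (1 / 1000) * U2' := by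
    have e : 2 * K * (4 * (C₀ * (κ * lx)) * L * t₀ ^ 2) = 1 / 1000 * (1 / 1000) * (κ * lx * t₀) := by
      have : t₀ ^ 2 = t₀ * (1 / 1000 * (1 / 1000) / (8 * K * C₀ * L)) := by rw [← ht₀]; ring
      rw [this]
      field_simp
      ring
    calc 2 * K * U2t (c.P W (1 / 1000)) c.x L t₀ ≤ 2 * K * (4 * (C₀ * (κ * lx)) * L * t₀ ^ 2) := by
          gcongr
      _ = 1 / 1000 * (1 / 1000) * (κ * lx * t₀) := e
      _ ≤ _ := by gcongr
  have e2 := hX2 c hc x2 h3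
  have hW0 : (0 : ℝ) < W := by exact_mod_cast hc.hW
  have hφ : (0 : ℝ) < Nat.totient W := by exact_mod_cast Nat.totient_pos.2 hc.hW
  have hX : 0 < c.X W := by
    unfold Cfg.X
    positivity
  have hrW : 0 < rW W := by
    unfold rW
    positivity
  have hq1 : 0 < c.q1 W s := lt_of_lt_of_le (by positivity) e6
  have hq2 : 0 < c.q2 W s := lt_of_lt_of_le hq1 e6'
  have hxW : (c.x : ℝ) / W = c.X W * rW W * lx := by
    unfold Cfg.X rW
    rw [← hlxd]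
    field_simp
  have hr : 0 ≤ rt (c.P₀ W s) := (rt_01 _).1
  rw [hxW, q1_eq] at e1
  set g := Real.exp (2 * K / D₀) with hg
  set q2 := c.q2 W s with hq2d
  set r := rt (c.P₀ W s) with hrd
  set X := c.X W with hXd
  have hr0 : 0 < r := by
    have h := hq1
    rw [q1_eq] at h
    exact pos_of_mul_pos_right (a := q2) (by simpa [hq2d, hrd] using h) hq2.le
  have hclu := cluster (K := K) (c.dom W) (c.w W L s (1 / 1000) t₀) (fun z => by
      unfold Cfg.w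
      split_ifs
      · positivity
      · exact le_rfl) (fun i => (i : ℕ) / m)
      (fun z i => (c.a i * z + c.b i).Prime) (fun z hz i j hij hi hj => hcon z hz i j hij hi hj)
  have hT := ineq_T K hK2 g (rW W) r κ lx X q2 U1' U2' g1 g2 hrW hr k1 hlx hX hq2.le
    (by linarith) (by linarith) e5
  have h6 := ineq_6 K L hK1 C₀ t₀ g (rW W) r κ lx X q2 U1' U2' hC₀ hL ht₀ g1 g2 hrW hr k1 hlx hX
    hq2.le u1 (by linarith) u3 e5
  refine num K m hK (∑ z ∈ c.dom W, c.w W L s (1 / 1000) t₀ z)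
    (∑ i, ∑ z ∈ (c.dom W).filter (fun z => (c.a i * z + c.b i).Prime), c.w W L s (1 / 1000) t₀ z)
    (∑ i : Fin K, ∑ j ∈ univ.filter (fun j : Fin K => i ≠ j ∧ (i : ℕ) / m = (j : ℕ) / m),
      ∑ z ∈ (c.dom W).filter (fun z => (c.a i * z + c.b i).Prime ∧ (c.a j * z + c.b j).Prime),
        c.w W L s (1 / 1000) t₀ z)
    ((g + 1 / 1000) * (X * rW W * lx) * (q2 * r) * U2' ^ K)
    ((1 - 4 * (1 / 1000)) * X * q2 * U1' ^ 2 * U2' ^ (K - 1))
    (((1 + 1 / 1000) * g + 1 / 1000) * X * q2 * U1' ^ 4 * U2' ^ (K - 2) /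
          (κ * ((1 / 4 - 2 * (1 / 1000)) * lx))) ?_ ?_ ?_ ?_ e1 ?_ hclu ?_ hT h6
  · refine sum_nonneg fun z _ => ?_
    unfold Cfg.w
    split_ifs
    · positivity
    · exact le_rfl
  · have : 0 < U2' := by linarith
    have : 0 < g := by linarith
    positivity
  · have : 0 < U2' := by linarith
    have : 0 < U1' := by linarith
    have : (0 : ℝ) ≤ 1 - 4 * (1 / 1000) := by norm_num
    positivity
  · have : 0 < U2' := by linarith
    have : 0 < U1' := by linarith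
    have : 0 < g := by linarith
    have : (0 : ℝ) ≤ 1 / 4 - 2 * (1 / 1000) := by norm_num
    positivity
  · calc (K : ℝ) * ((1 - 4 * (1 / 1000)) * X * q2 * U1' ^ 2 * U2' ^ (K - 1))
        = ∑ _i : Fin K, ((1 - 4 * (1 / 1000)) * X * q2 * U1' ^ 2 * U2' ^ (K - 1)) := by
          rw [sum_const, card_univ, Fintype.card_fin, nsmul_eq_mul]
      _ ≤ _ := sum_le_sum fun i _ => e2 i
  · set T3 := ((1 + 1 / 1000) * g + 1 / 1000) * X * q2 * U1' ^ 4 * U2' ^ (K - 2) /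
          (κ * ((1 / 4 - 2 * (1 / 1000)) * lx)) with hT3
    have hT3n : 0 ≤ T3 := by
      have : 0 < U2' := by linarith
      have : 0 < U1' := by linarith
      have : 0 < g := by linarith
      have : (0 : ℝ) ≤ 1 / 4 - 2 * (1 / 1000) := by norm_num
      positivity
    calc ∑ i : Fin K, ∑ j ∈ univ.filter (fun j : Fin K => i ≠ j ∧ (i : ℕ) / m = (j : ℕ) / m),
          ∑ z ∈ (c.dom W).filter (fun z => (c.a i * z + c.b i).Prime ∧ (c.a j * z + c.b j).Prime),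
          c.w W L s (1 / 1000) t₀ z
        ≤ ∑ _i : Fin K, (m * T3) := by
          refine sum_le_sum fun i _ => ?_
          calc ∑ j ∈ univ.filter (fun j : Fin K => i ≠ j ∧ (i : ℕ) / m = (j : ℕ) / m),
                ∑ z ∈ (c.dom W).filter (fun z => (c.a i * z + c.b i).Prime ∧
                  (c.a j * z + c.b j).Prime), c.w W L s (1 / 1000) t₀ z
              ≤ ∑ _j ∈ univ.filter (fun j : Fin K => i ≠ j ∧ (i : ℕ) / m = (j : ℕ) / m), T3 :=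
                sum_le_sum fun j hj => e3 i j (mem_filter.1 hj).2.1
            _ = #(univ.filter (fun j : Fin K => i ≠ j ∧ (i : ℕ) / m = (j : ℕ) / m)) * T3 := by
                rw [sum_const, nsmul_eq_mul]
            _ ≤ m * T3 := by
                gcongr
                exact_mod_cast G3_card K m hm0 i
      _ = K * m * T3 := by
          rw [sum_const, card_univ, Fintype.card_fin, nsmul_eq_mul]
          ring

theorem GTcfg (hLD : ∀ t : ℝ, t < 1 / 2 → LD t) (hPNT : PNT) : ∃ m D₀ : ℕ, 0 < m ∧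
    ∀ W A₀ C : ℕ, ∃ X₀ : ℕ, ∀ c : Cfg (5 * m), c.Ok D₀ W A₀ C → X₀ ≤ c.x →
      ∃ z ∈ c.dom W, ∃ i j : Fin (5 * m), (i : ℕ) / m ≠ (j : ℕ) / m ∧
        (c.a i * z + c.b i).Prime ∧ (c.a j * z + c.b j).Prime := by
  obtain ⟨C₀, hC₀, hN⟩ := Nz_up
  obtain ⟨L, hL⟩ := exists_nat_ge (5 * 10 ^ 8 * C₀ ^ 2)
  refine ⟨2 ^ L, 8000 * (5 * 2 ^ L) ^ 2, by positivity, fun W A₀ C => ?_⟩
  exact G3_core hLD hPNT C₀ hC₀ hN (5 * 2 ^ L) (2 ^ L) L _ rfl rfl hL rfl W A₀ C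

end Pool.Agent.Work.MP_70e905_nt.MT
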