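import Mathlib
import Pool.Agent.Work.MP_70e905_nt.MT.G3

set_option autoImplicit false

/-!
MODULE Main (the uniform cluster theorem GT), size S.
From GTcfg (G3) with the bijection finProdFinEquiv : Fin 5 × Fin m ≃ Fin (5 * m), (c, i) ↦ i + m * c, whose value
divided by m is c.
-/

namespace Pool.Agent.Work.MP_70e905_nt.MT

open Finset Pool.Agent.Work.MP_73869e_nt.TH

theorem GT (hLD : ∀ t : ℝ, t < 1 / 2 → LD t) (hPNT : PNT) : ∃ m D₀ : ℕ, 0 < m ∧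
    ∀ W A₀ C : ℕ, 0 < W → primorial D₀ ∣ W → ∃ X₀ : ℕ,
      ∀ (x v : ℕ) (a b : Fin 5 × Fin m → ℕ), X₀ ≤ x → (∀ i, 1 ≤ a i ∧ a i ≤ A₀) →
      (∀ i, ∀ p : ℕ, p.Prime → p ∣ a i → p ∣ W) → (∀ i, b i ≤ C * x) →
      (∀ i, Nat.Coprime (a i * v + b i) W) → (∀ i j, i ≠ j → a i * b j ≠ a j * b i) →
      ∃ z : ℕ, x < z ∧ z ≤ 2 * x ∧ z ≡ v [MOD W] ∧ ∃ i j : Fin 5 × Fin m, i.1 ≠ j.1 ∧
        (a i * z + b i).Prime ∧ (a j * z + b j).Prime := by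
  obtain ⟨m, D₀, hm, h⟩ := GTcfg hLD hPNT
  refine ⟨m, D₀, hm, fun W A₀ C hW hDW => ?_⟩
  obtain ⟨X₀, hX⟩ := h W A₀ C
  refine ⟨X₀, fun x v a b hx ha haW hb hcop hdif => ?_⟩
  set e : Fin 5 × Fin m ≃ Fin (5 * m) := finProdFinEquiv with he
  have hdiv : ∀ i : Fin (5 * m), ((e.symm i).1 : ℕ) = (i : ℕ) / m := fun i => rfl
  obtain ⟨z, hz, i, j, hij, hi, hj⟩ := hX ⟨x, v, fun i => a (e.symm i), fun i => b (e.symm i)⟩
    { hW := hW
      hDW := hDW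
      ha := fun i => (ha _).1
      haA := fun i => (ha _).2
      haW := fun i => haW _
      hb := fun i => hb _
      hcop := fun i => hcop _
      hdif := fun i j hij => hdif _ _ (fun h => hij (e.symm.injective h)) } hx
  unfold Cfg.dom at hz
  rw [mem_filter, mem_Ioc] at hz
  refine ⟨z, hz.1.1, hz.1.2, hz.2, e.symm i, e.symm j, ?_, hi, hj⟩
  intro h
  apply hij
  rw [← hdiv, ← hdiv, h]

end Pool.Agent.Work.MP_70e905_nt.MT
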